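import Pool.Agent.H435.ST.Ln
import Pool.Graph.R_seed8.Y741.LSetup

/-!
Derivations that are dual to the coefficients of a generic form, and preserve a function.
-/

set_option autoImplicit false

open MvPolynomial FF Pool.Agent.W603.LV Pool.Agent.W603.PV Pool.Agent.TH145.GH
open Pool.Agent.TH145.GC (Ev dF_sub dF_self ord_prod exists_minor Rt Cf finite_cf Tan
  der_zero_of_alg)
open Pool.Agent.W602.GT Pool.Agent.TH145.MG Pool.Agent.TH145.GE Pool.Agent.TH145.GF
open Pool.Agent.Y741 (Comm comm_of)

namespace Pool.Agent.H435.ST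

open scoped Classical in
/-- Derivations of the function field, which preserve the constants, dual to independent
constants. -/
theorem exists_dualsT {k0 k L ι : Type} [Field k0] [Field k] [Field L] [Algebra k0 k] [Algebra k L]
    [Algebra k0 L] [IsScalarTower k0 k L] [IsAlgClosed k] [CharZero k] {t : ι → L}
    (ht : IsTranscendenceBasis k t) {β : Type} (c : β → k) (hc : AlgebraicIndependent k0 c) :
    ∃ D : β → Derivation k0 L L, (∀ b, Sem k ((D b).restrictScalars ℤ)) ∧
      (∀ b b', D b (algebraMap k L (c b')) = if b = b' then 1 else 0) ∧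
      (∀ b i, D b (t i) = 0) ∧ ∃ (ι' : Type) (z : ι' → L), IsTranscendenceBasis k0 z ∧
        ∀ b i, ∃ r : k0, D b (z i) = algebraMap k0 L r := by
  have hL : CharZero L := charZero_of_injective_algebraMap (algebraMap k L).injective
  have hk0 : CharZero k0 := by
    constructor
    intro a b hab
    have h1 := congrArg (algebraMap k0 k) hab
    rw [map_natCast, map_natCast] at h1
    exact Nat.cast_injective h1
  obtain ⟨s, hs, hy⟩ := exists_isTranscendenceBasis_superset (R := k0)
    (s := Set.range c) hc.coe_range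
  have hz := hy.sumElim_comp ht
  obtain ⟨z, hzd⟩ : ∃ z : ι ⊕ s → L, z = Sum.elim t (algebraMap k L ∘ fun w : s =>
    (w : k)) := ⟨_, rfl⟩
  rw [← hzd] at hz
  have hE : ∀ b : β, ∃ E : Derivation k0 L L, ∀ i, E (z i) =
      Sum.elim (fun _ => 0) (fun w : s => if (w : k) = c b then 1 else 0) i :=
    fun b => Pool.Agent.W602.GT.exists_der z hz _
  choose E hE using hE
  refine ⟨E, fun b => ?_, fun b b' => ?_, fun b i => ?_, ι ⊕ s, z, hz, fun b i => ?_⟩
  · obtain ⟨S, hS⟩ : ∃ S : Set L, S = Set.range (algebraMap k0 L) ∪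
      Set.range (algebraMap k L ∘ fun w : s => (w : k)) := ⟨_, rfl⟩
    have hkr : IsAlgClosed (algebraMap k L).fieldRange :=
      IsAlgClosed.of_ringEquiv k _ (RingHom.rangeRestrictFieldEquiv (algebraMap k L))
    have hSk : acl S ≤ (algebraMap k L).fieldRange := by
      refine acl_of_isAlgClosed hkr ?_
      rw [hS]
      rintro _ (⟨r, rfl⟩ | ⟨i, rfl⟩)
      · exact ⟨algebraMap k0 k r, (IsScalarTower.algebraMap_apply k0 k L r).symm⟩
      · exact ⟨i, rfl⟩
    have hkS : ∀ r : k, algebraMap k L r ∈ acl S := by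
      intro r
      rw [mem_acl]
      have h1 : IsAlgebraic (IntermediateField.adjoin k0 (Set.range fun w : s => (w : k))) r := by
        have := hy.isAlgebraic_field
        exact this.isAlgebraic r
      obtain ⟨p, hp0, hp⟩ := h1
      have h2 : ∀ a : IntermediateField.adjoin k0 (Set.range fun w : s => (w : k)),
          algebraMap k L (a : k) ∈ Subfield.closure S := by
        intro a
        have h3 : (a : k) ∈ Subfield.closure (Set.range (algebraMap k0 k) ∪
            Set.range fun w : s => (w : k)) := by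
          rw [← IntermediateField.adjoin_toSubfield]
          exact a.2
        have h4 : Subfield.closure (Set.range (algebraMap k0 k) ∪
            Set.range fun w : s => (w : k)) ≤
            (Subfield.closure S).comap (algebraMap k L) := by
          rw [Subfield.closure_le]
          rintro _ (⟨r, rfl⟩ | ⟨i, rfl⟩)
          · refine Subfield.subset_closure ?_
            rw [hS]
            exact Or.inl ⟨r, IsScalarTower.algebraMap_apply k0 k L r⟩
          · refine Subfield.subset_closure ?_
            rw [hS]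
            exact Or.inr ⟨i, rfl⟩
        exact h4 h3
      let φ : IntermediateField.adjoin k0 (Set.range fun w : s => (w : k)) →+*
          Subfield.closure S :=
        { toFun := fun a => ⟨algebraMap k L (a : k), h2 a⟩
          map_one' := Subtype.ext (map_one (algebraMap k L))
          map_mul' := fun a b => Subtype.ext (map_mul (algebraMap k L) (a : k) b)
          map_zero' := Subtype.ext (map_zero (algebraMap k L))
          map_add' := fun a b => Subtype.ext (map_add (algebraMap k L) (a : k) b) }
      refine ⟨p.map φ, (Polynomial.map_ne_zero_iff φ.injective).2 hp0, ?_⟩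
      have h5 := congrArg (algebraMap k L) hp
      rw [map_zero, Polynomial.aeval_def, Polynomial.hom_eval₂] at h5
      rw [Polynomial.aeval_def, Polynomial.eval₂_map]
      exact h5
    intro r
    have h1 : (E b).restrictScalars ℤ (algebraMap k L r) ∈ acl S := by
      refine der_acl ((E b).restrictScalars ℤ) ?_ (hkS r)
      rw [hS]
      rintro s' (⟨r, rfl⟩ | ⟨i, rfl⟩)
      · change E b (algebraMap k0 L r) ∈ _
        rw [Derivation.map_algebraMap]
        exact zero_mem _
      · change E b ((algebraMap k L ∘ fun w : s => (w : k)) i) ∈ _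
        have h2 : (algebraMap k L ∘ fun w : s => (w : k)) i = z (Sum.inr i) := by rw [hzd]; rfl
        rw [h2, hE]
        simp only [Sum.elim_inr]
        split_ifs
        · exact one_mem _
        · exact zero_mem _
    obtain ⟨r', hr'⟩ := hSk h1
    exact ⟨r', hr'.symm⟩
  · have h2 : algebraMap k L (c b') = z (Sum.inr ⟨c b', hs ⟨b', rfl⟩⟩) := by rw [hzd]; rfl
    rw [h2, hE]
    simp only [Sum.elim_inr]
    by_cases h : b = b'
    · rw [h, if_pos rfl, if_pos rfl]
    · rw [if_neg h, if_neg fun h' => h (hc.injective h').symm]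
  · have h2 : t i = z (Sum.inl i) := by rw [hzd]; rfl
    rw [h2, hE]
    rfl
  · rw [hE]
    rcases i with i | i
    · exact ⟨0, by rw [map_zero]; rfl⟩
    · simp only [Sum.elim_inr]
      split_ifs
      · exact ⟨1, (map_one _).symm⟩
      · exact ⟨0, (map_zero _).symm⟩

/-- The derivations that are dual to the coefficients of generic forms. -/
theorem exists_duals_T {k0 k L ι : Type} [Field k0] [Field k] [Field L] [Algebra k0 k]
    [Algebra k L] [IsAlgClosed k] [CharZero k] {t : ι → L}
    (ht : IsTranscendenceBasis k t) {n : ℕ} {A : Type} {dg : A → ℕ}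
    (G : A → MvPolynomial (Fin (n + 1)) k)
    (hind : AlgebraicIndependent k0 fun p : (a : A) × {I : Fin (n + 1) →₀ ℕ // I.degree = dg a} =>
      (G p.1).coeff p.2.1) :
    ∃ D : A → (Fin (n + 1) →₀ ℕ) → Derivation ℤ L L,
      Pool.Agent.TH145.GC.Dual (fun a => map (algebraMap k L) (G a)) dg D ∧
      (∀ a I, Sem k (D a I)) ∧ Comm D ∧ ∀ a I i, D a I (t i) = 0 := by
  classical
  let _ : Algebra k0 L := ((algebraMap k L).comp (algebraMap k0 k)).toAlgebra
  have hst : IsScalarTower k0 k L := IsScalarTower.of_algebraMap_eq fun _ => rfl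
  have hL : CharZero L := charZero_of_injective_algebraMap (algebraMap k L).injective
  obtain ⟨D', hS, hdu, hDt, ι', z, hz, hzr⟩ := exists_dualsT ht _ hind
  obtain ⟨D, hD⟩ : ∃ D : A → (Fin (n + 1) →₀ ℕ) → Derivation ℤ L L, ∀ a I,
      D a I = if h : I.degree = dg a then (D' ⟨a, ⟨I, h⟩⟩).restrictScalars ℤ else 0 :=
    ⟨_, fun _ _ => rfl⟩
  refine ⟨D, fun a b I J hI hJ => ?_, fun a I => ?_, ?_, fun a I i => ?_⟩
  · have h1 : D a I ((map (algebraMap k L) (G b)).coeff J) =
        if (⟨a, ⟨I, hI⟩⟩ : (a : A) × {I : Fin (n + 1) →₀ ℕ // I.degree = dg a}) =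
          ⟨b, ⟨J, hJ⟩⟩ then 1 else 0 := by
      rw [hD, dif_pos hI, coeff_map]
      exact (hdu _ ⟨b, ⟨J, hJ⟩⟩).trans (by congr)
    dsimp only
    refine ⟨fun hab hIJ => ?_, fun h => ?_⟩
    · subst hab
      subst hIJ
      rw [h1, if_pos rfl]
    · rw [h1, if_neg]
      intro heq
      have e1 : a = b := congrArg Sigma.fst heq
      subst e1
      have e2 := eq_of_heq (Sigma.mk.inj_iff.1 heq).2
      have e3 : I = J := congrArg Subtype.val e2
      rcases h with h | h
      · exact h rfl
      · exact h e3
  · rw [hD]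
    split_ifs
    · exact hS _
    · exact fun r => ⟨0, by rw [map_zero]; rfl⟩
  · refine comm_of hz (fun a I r => ?_) fun a I j => ?_
    · rw [hD]
      split_ifs
      · exact (D' _).map_algebraMap r
      · rfl
    · rw [hD]
      split_ifs
      · exact hzr _ j
      · exact ⟨0, by rw [map_zero]; rfl⟩
  · rw [hD]
    split_ifs
    · exact hDt _ _
    · rfl

/-- Derivations that are dual to the coefficients of a generic form, and preserve a function. -/
theorem exists_DU {k0 k L : Type} [Field k0] [Field k] [Field L] [Algebra k0 k] [Algebra k L]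
    [IsAlgClosed k] [CharZero k] {n d : ℕ} {G : MvPolynomial (Fin (n + 1)) k}
    (hgen : AlgebraicIndependent k0 fun I : {I : Fin (n + 1) →₀ ℕ // I.degree = d} =>
      G.coeff I.1) {ι : Type} {t : ι → L} (ht : IsTranscendenceBasis k t) :
    ∃ D : Unit → (Fin (n + 1) →₀ ℕ) → Derivation ℤ L L,
      Pool.Agent.TH145.GC.Dual (fun _ : Unit => map (algebraMap k L) G) (fun _ => d) D ∧
      (∀ a I, Sem k (D a I)) ∧ Comm D ∧ ∀ a I i, D a I (t i) = 0 := by
  have hind : AlgebraicIndependent k0
      fun p : (_ : Unit) × {I : Fin (n + 1) →₀ ℕ // I.degree = d} => G.coeff p.2.1 :=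
    hgen.comp (fun p : (_ : Unit) × {I : Fin (n + 1) →₀ ℕ // I.degree = d} => p.2)
      fun p q hpq => Sigma.ext rfl (heq_of_eq hpq)
  exact exists_duals_T (A := Unit) (dg := fun _ => d) ht (fun _ => G) hind

theorem dual_of {L : Type} [Field L] {n d : ℕ} {F : MvPolynomial (Fin (n + 1)) L}
    {D : Unit → (Fin (n + 1) →₀ ℕ) → Derivation ℤ L L}
    (hD : Pool.Agent.TH145.GC.Dual (fun _ : Unit => F) (fun _ => d) D) : Dual F d (D ()) :=
  fun I J hI hJ => ⟨fun h => (hD () () I J hI hJ).1 rfl h, fun h =>
    (hD () () I J hI hJ).2 (Or.inr h)⟩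

end Pool.Agent.H435.ST
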