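import Pool.Agent.H435.ST.Sml

/-!
The degrees of the curves in a generic sextic threefold.
-/

set_option autoImplicit false
set_option linter.unusedSectionVars false

open MvPolynomial FF Pool.Agent.W603.LV Pool.Agent.W603.PV Pool.Agent.TH145.GH
open Pool.Agent.Y735 (pl po po_le exists_po fht fht_nonneg fht_fin)
open Pool.Agent.W602.GT Pool.Agent.TH145.GF
open Pool.Agent.Y741 (pht_nonneg)
open Pool.Agent.H916 (BiForm ChartHyp rel_ineq)
open Pool.Agent.K4H62.EL (Weier)

namespace Pool.Agent.H435.ST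

open Pool.Agent.H435.VG (ge_po le_po)

/-- The triples of indices as indices. -/
noncomputable def ε : Fin (124 + 1) ≃ T3 :=
  (Fintype.equivFinOfCardEq (by simp [T3])).symm

section eqs

variable {k : Type} [Field k]

/-- The variable over a triple. -/
noncomputable def Yv (q : T3) : MvPolynomial (Fin (124 + 1) ⊕ Fin (4 + 1)) k :=
  X (Sum.inl (ε.symm q))

/-- The variable of a coordinate. -/
noncomputable def Xv (l : Fin (4 + 1)) : MvPolynomial (Fin (124 + 1) ⊕ Fin (4 + 1)) k :=
  X (Sum.inr l)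

/-- The equations of the points of the planes. -/
noncomputable def Rl (a b c e : Fin (4 + 1)) : MvPolynomial (Fin (124 + 1) ⊕ Fin (4 + 1)) k :=
  Xv a * Yv (b, c, e) - Xv b * Yv (a, c, e) + Xv c * Yv (a, b, e) - Xv e * Yv (a, b, c)

/-- The equations of the plane sections. -/
def Eqs (G : MvPolynomial (Fin (4 + 1)) k) :
    Set (MvPolynomial (Fin (124 + 1) ⊕ Fin (4 + 1)) k) :=
  {H | H = rename Sum.inr G ∨ ∃ a b c e, H = Rl a b c e}

theorem bi_G {G : MvPolynomial (Fin (4 + 1)) k} (hG : G.IsHomogeneous 6) :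
    BiForm (rename Sum.inr G : MvPolynomial (Fin (124 + 1) ⊕ Fin (4 + 1)) k) := by
  have h1 : ∀ (w : Fin (124 + 1) ⊕ Fin (4 + 1) → ℕ) (u : Fin (4 + 1) →₀ ℕ),
      Finsupp.weight w (Finsupp.mapDomain Sum.inr u) = Finsupp.weight (fun l => w (Sum.inr l)) u := by
    intro w u
    rw [Finsupp.weight_apply, Finsupp.weight_apply]
    exact Finsupp.sum_mapDomain_index (h := fun i c => c • w i) (fun _ => zero_smul _ _)
      fun _ _ _ => add_smul _ _ _
  refine ⟨0, 6, fun d hd => ?_, fun d hd => ?_⟩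
  · obtain ⟨u, rfl, hu⟩ := coeff_rename_ne_zero _ _ _ hd
    rw [h1, Finsupp.weight_apply]
    simp
  · obtain ⟨u, rfl, hu⟩ := coeff_rename_ne_zero _ _ _ hd
    rw [h1]
    exact hG hu

theorem bi_Rl (a b c e : Fin (4 + 1)) : BiForm (Rl a b c e :
    MvPolynomial (Fin (124 + 1) ⊕ Fin (4 + 1)) k) := by
  refine ⟨1, 1, ?_, ?_⟩
  · have h1 : ∀ l q, IsWeightedHomogeneous (Sum.elim (fun _ => 1) (fun _ => 0) :
        Fin (124 + 1) ⊕ Fin (4 + 1) → ℕ) (Xv l * Yv q :
        MvPolynomial (Fin (124 + 1) ⊕ Fin (4 + 1)) k) 1 := by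
      intro l q
      have h2 := (isWeightedHomogeneous_X k (Sum.elim (fun _ => 1) (fun _ => 0) :
        Fin (124 + 1) ⊕ Fin (4 + 1) → ℕ) (Sum.inr l)).mul (isWeightedHomogeneous_X k
        (Sum.elim (fun _ => 1) (fun _ => 0) : Fin (124 + 1) ⊕ Fin (4 + 1) → ℕ)
        (Sum.inl (ε.symm q)))
      exact h2
    exact (((h1 _ _).sub (h1 _ _)).add (h1 _ _)).sub (h1 _ _)
  · have h1 : ∀ l q, IsWeightedHomogeneous (Sum.elim (fun _ => 0) (fun _ => 1) :
        Fin (124 + 1) ⊕ Fin (4 + 1) → ℕ) (Xv l * Yv q :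
        MvPolynomial (Fin (124 + 1) ⊕ Fin (4 + 1)) k) 1 := by
      intro l q
      have h2 := (isWeightedHomogeneous_X k (Sum.elim (fun _ => 0) (fun _ => 1) :
        Fin (124 + 1) ⊕ Fin (4 + 1) → ℕ) (Sum.inr l)).mul (isWeightedHomogeneous_X k
        (Sum.elim (fun _ => 0) (fun _ => 1) : Fin (124 + 1) ⊕ Fin (4 + 1) → ℕ)
        (Sum.inl (ε.symm q)))
      exact h2
    exact (((h1 _ _).sub (h1 _ _)).add (h1 _ _)).sub (h1 _ _)

theorem aeval_Rl {K : Type} [Field K] [Algebra k K] (y : Fin (124 + 1) → K)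
    (x : Fin (4 + 1) → K) (a b c e : Fin (4 + 1)) : aeval (Sum.elim y x) (Rl a b c e :
      MvPolynomial (Fin (124 + 1) ⊕ Fin (4 + 1)) k) =
      x a * y (ε.symm (b, c, e)) - x b * y (ε.symm (a, c, e)) + x c * y (ε.symm (a, b, e)) -
        x e * y (ε.symm (a, b, c)) := by
  simp only [Rl, Xv, Yv, map_sub, map_add, map_mul, aeval_X, Sum.elim_inl, Sum.elim_inr]

end eqs

section chart

variable {k : Type} [Field k] [IsAlgClosed k] [CharZero k]

/-- The points of a plane. -/
theorem of_plane {K : Type} [Field K] [Algebra k K] {c : Fin (124 + 1) → k} {i0 : Fin (124 + 1)}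
    (hc : c i0 = 1) {x : Fin (4 + 1) → K} {G : MvPolynomial (Fin (4 + 1)) k}
    (h : ∀ H ∈ Eqs G, aeval (Sum.elim (fun l => algebraMap k K (c l)) x) H = 0) :
    aeval x G = 0 ∧ ∃ i : Fin (2 + 1) → Fin (4 + 1), ∀ l, ∃ r : Fin (2 + 1) → k,
      x l = ∑ s, algebraMap k K (r s) * x (i s) := by
  constructor
  · have h1 := h _ (Or.inl rfl)
    rw [aeval_rename] at h1
    exact h1
  · obtain ⟨p, q, r, hpqr⟩ : ∃ p q r, ε i0 = (p, q, r) := ⟨_, _, _, rfl⟩
    have hi : ε.symm (p, q, r) = i0 := by rw [← hpqr, Equiv.symm_apply_apply]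
    refine ⟨![p, q, r], fun l => ⟨![c (ε.symm (l, q, r)), -c (ε.symm (l, p, r)),
      c (ε.symm (l, p, q))], ?_⟩⟩
    have h1 := h _ (Or.inr ⟨l, p, q, r, rfl⟩)
    rw [aeval_Rl, hi, hc, map_one] at h1
    rw [Fin.sum_univ_three]
    change x l = algebraMap k K (c (ε.symm (l, q, r))) * x p +
      algebraMap k K (-c (ε.symm (l, p, r))) * x q + algebraMap k K (c (ε.symm (l, p, q))) * x r
    rw [map_neg]
    linear_combination h1

variable {k0 : Type} [Field k0] [Algebra k0 k] {G : MvPolynomial (Fin (4 + 1)) k}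

/-- The dimension of the plane sections. -/
theorem dim_plane (hG : G.IsHomogeneous 6)
    (hgen : AlgebraicIndependent k0 fun I : {I : Fin (4 + 1) →₀ ℕ // I.degree = 6} =>
      G.coeff I.1) {K : Type} [Field K] [Algebra k K] {x : Fin (4 + 1) → K} {j0 : Fin (4 + 1)}
    (hj : x j0 = 1) (hx : aeval x G = 0) {i : Fin (2 + 1) → Fin (4 + 1)}
    (hpl : ∀ l, ∃ r : Fin (2 + 1) → k, x l = ∑ s, algebraMap k K (r s) * x (i s))
    (a b : Fin (4 + 1)) : ¬ AlgebraicIndependent k ![x a, x b] := by
  classical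
  intro hab
  -- the functions `1`, `x a`, `x b` are independent
  have hind : LinearIndependent k ![x j0, x a, x b] := by
    rw [Fintype.linearIndependent_iff]
    intro g hg
    rw [Fin.sum_univ_three] at hg
    change g 0 • x j0 + g 1 • x a + g 2 • x b = 0 at hg
    rw [hj] at hg
    obtain ⟨p, hp⟩ : ∃ p : MvPolynomial (Fin 2) k, p = C (g 0) + C (g 1) * X 0 + C (g 2) * X 1 :=
      ⟨_, rfl⟩
    have h1 : aeval ![x a, x b] p = 0 := by
      rw [hp, map_add, map_add, map_mul, map_mul, aeval_X, aeval_X, aeval_C, aeval_C, aeval_C]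
      change algebraMap k K (g 0) + algebraMap k K (g 1) * x a + algebraMap k K (g 2) * x b = 0
      rw [← hg, Algebra.smul_def, Algebra.smul_def, Algebra.smul_def, mul_one]
    have h2 : p = 0 := by
      rw [algebraicIndependent_iff] at hab
      exact hab p h1
    have h3 := congrArg (eval ![(0 : k), 0]) h2
    have h4 := congrArg (eval ![(1 : k), 0]) h2
    have h5 := congrArg (eval ![(0 : k), 1]) h2
    rw [hp] at h3 h4 h5
    simp only [map_add, map_mul, eval_C, eval_X, map_zero] at h3 h4 h5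
    change g 0 + g 1 * 0 + g 2 * 0 = 0 at h3
    change g 0 + g 1 * 1 + g 2 * 0 = 0 at h4
    change g 0 + g 1 * 0 + g 2 * 1 = 0 at h5
    have e0 : g 0 = 0 := by linear_combination h3
    have e1 : g 1 = 0 := by linear_combination h4 - e0
    have e2 : g 2 = 0 := by linear_combination h5 - e0
    intro s
    fin_cases s
    · exact e0
    · exact e1
    · exact e2
  obtain ⟨S, hS⟩ : ∃ S : Submodule k K, S = Submodule.span k (Set.range fun s => x (i s)) :=
    ⟨_, rfl⟩
  obtain ⟨T, hT⟩ : ∃ T : Submodule k K, T = Submodule.span k (Set.range ![x j0, x a, x b]) :=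
    ⟨_, rfl⟩
  have hxS : ∀ l, x l ∈ S := by
    intro l
    obtain ⟨r, hr⟩ := hpl l
    rw [hr, hS]
    refine sum_mem fun s _ => ?_
    rw [← Algebra.smul_def]
    exact Submodule.smul_mem _ _ (Submodule.subset_span ⟨s, rfl⟩)
  have hSf : FiniteDimensional k S := by
    rw [hS]
    exact FiniteDimensional.span_of_finite k (Set.finite_range _)
  have hTS : T ≤ S := by
    rw [hT, Submodule.span_le]
    rintro _ ⟨s, rfl⟩
    fin_cases s
    · exact hxS j0
    · exact hxS a
    · exact hxS b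
  have hTr : Module.finrank k T = 3 := by
    rw [hT, finrank_span_eq_card hind, Fintype.card_fin]
  have hSr : Module.finrank k S ≤ 3 := by
    rw [hS]
    have h1 := finrank_range_le_card (R := k) fun s : Fin (2 + 1) => x (i s)
    rw [Fintype.card_fin] at h1
    exact h1
  have hTS' : T = S := Submodule.eq_of_le_of_finrank_le hTS (by rw [hTr]; exact hSr)
  have hxT : ∀ l, ∃ g : Fin 3 → k, ∑ s, g s • ![x j0, x a, x b] s = x l := by
    intro l
    have h1 : x l ∈ T := by rw [hTS']; exact hxS l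
    rw [hT, Submodule.mem_span_range_iff_exists_fun] at h1
    exact h1
  choose g hg using hxT
  have hxg : ∀ l, x l = algebraMap k K (g l 0) + algebraMap k K (g l 1) * x a +
      algebraMap k K (g l 2) * x b := by
    intro l
    have h1 := hg l
    rw [Fin.sum_univ_three] at h1
    change g l 0 • x j0 + g l 1 • x a + g l 2 • x b = x l at h1
    rw [← h1, hj, Algebra.smul_def, Algebra.smul_def, Algebra.smul_def, mul_one]
  have huniq : ∀ (l : Fin (4 + 1)) (s : Fin 3), x l = ![x j0, x a, x b] s →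
      ∀ s', g l s' = if s' = s then 1 else 0 := by
    intro l s hl s'
    have h1 : ∑ s', (g l s' - if s' = s then 1 else 0) • ![x j0, x a, x b] s' = 0 := by
      have e1 : ∀ s', (g l s' - if s' = s then 1 else 0) • ![x j0, x a, x b] s' =
          g l s' • ![x j0, x a, x b] s' - (if s' = s then ![x j0, x a, x b] s' else 0) := by
        intro s'
        rw [sub_smul]
        congr 1
        split_ifs
        · rw [one_smul]
        · rw [zero_smul]
      rw [Finset.sum_congr rfl fun s' _ => e1 s', Finset.sum_sub_distrib, hg,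
        Finset.sum_ite_eq', if_pos (Finset.mem_univ s), hl, sub_self]
    exact sub_eq_zero.1 ((Fintype.linearIndependent_iff.1 hind) _ h1 s')
  have hj1 := huniq j0 0 rfl
  have ha1 := huniq a 1 rfl
  obtain ⟨τ, hτ⟩ := no_line_k hG hgen (u := fun l => g l 0) (v := fun l => g l 1) (by
    intro h0
    have h1 : g j0 0 * g a 1 - g a 0 * g j0 1 = 0 := congrFun h0 (j0, a)
    rw [hj1, hj1, ha1, ha1, if_pos rfl, if_pos rfl, if_neg (by decide), if_neg (by decide)] at h1
    norm_num at h1)
  apply hτ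
  obtain ⟨p, hp⟩ : ∃ p : MvPolynomial (Fin 2) k,
    p = aeval (fun l => C (g l 0) + C (g l 1) * X 0 + C (g l 2) * X 1) G := ⟨_, rfl⟩
  have h1 : aeval ![x a, x b] p = 0 := by
    rw [hp, ← AlgHom.comp_apply, comp_aeval]
    have h2 : (fun l => (aeval ![x a, x b]) (C (g l 0) + C (g l 1) * X 0 + C (g l 2) * X 1 :
        MvPolynomial (Fin 2) k)) = x := by
      funext l
      rw [map_add, map_add, map_mul, map_mul, aeval_X, aeval_X, aeval_C, aeval_C, aeval_C]
      exact (hxg l).symm
    rw [h2]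
    exact hx
  have h2 : p = 0 := by
    rw [algebraicIndependent_iff] at hab
    exact hab p h1
  have h3 : eval ![τ, 0] p = eval (fun l => g l 0 + τ * g l 1) G := by
    rw [hp]
    have h4 : (eval ![τ, 0]).comp ((aeval (fun l => C (g l 0) + C (g l 1) * X 0 +
        C (g l 2) * X 1) : MvPolynomial (Fin (4 + 1)) k →ₐ[k] MvPolynomial (Fin 2) k) :
        MvPolynomial (Fin (4 + 1)) k →+* MvPolynomial (Fin 2) k) =
        eval (fun l => g l 0 + τ * g l 1) := by
      apply MvPolynomial.ringHom_ext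
      · intro c
        rw [RingHom.comp_apply, RingHom.coe_coe, aeval_C, MvPolynomial.algebraMap_eq, eval_C,
          eval_C]
      · intro l
        rw [RingHom.comp_apply, RingHom.coe_coe, aeval_X, eval_X]
        simp only [map_add, map_mul, eval_C, eval_X]
        change g l 0 + g l 1 * τ + g l 2 * 0 = _
        ring
    exact DFunLike.congr_fun h4 G
  rw [← h3, h2, map_zero]

/-- The hypotheses of the theorem on the families of curves. -/
theorem chart (hG : G.IsHomogeneous 6)
    (hgen : AlgebraicIndependent k0 fun I : {I : Fin (4 + 1) →₀ ℕ // I.degree = 6} =>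
      G.coeff I.1) (i0 : Fin (124 + 1)) (j0 : Fin (4 + 1)) :
    ChartHyp k (∅ : Set (MvPolynomial (Fin (124 + 1)) k)) (Eqs G) i0 j0 ∅ := by
  refine ⟨fun H hH => ?_, Set.finite_empty, ?_, ?_, fun c hc => absurd hc (Set.notMem_empty c)⟩
  · rcases hH with rfl | ⟨a, b, c, e, rfl⟩
    · exact (bi_G hG).hom2
    · exact (bi_Rl a b c e).hom2
  · intro c hc _ E _ _ _ O a b X' Y' hW x hx h i
    obtain ⟨hxG, i', hpl⟩ := of_plane hc h
    by_contra hcon
    push Not at hcon
    have hT : Transcendental k (x i / x j0) := by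
      by_contra hA
      obtain ⟨r, hr⟩ := const_of_alg hA
      apply hcon r
      rw [hr, div_mul_cancel₀ _ hx]
    exact no_small hG hgen (Pool.Agent.H916.weier_nonpos hW) hx hT hxG hpl
  · intro c _ hc _ K _ _ x hx h i i'
    obtain ⟨hxG, i'', hpl⟩ := of_plane hc h
    exact dim_plane hG hgen hx hxG hpl i i'

theorem pht_eps {L : Type} [Field L] [Algebra k L] [IsFF k L] {Y : T3 → L} (hY : Y ≠ 0) :
    pht k (fun l => Y (ε l)) = fht k Y := by
  rw [← fht_fin]
  unfold fht
  congr 1
  refine finsum_congr fun P => ?_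
  have h0 : (fun l => Y (ε l)) ≠ 0 := by
    intro h
    apply hY
    funext q
    have h3 := congrFun h (ε.symm q)
    rw [Equiv.apply_symm_apply] at h3
    exact h3
  apply le_antisymm
  · refine le_po P hY fun q => ?_
    have h3 := ge_po P (fun l => Y (ε l)) (ε.symm q)
    rwa [Equiv.apply_symm_apply] at h3
  · exact le_po P h0 fun l => ge_po P Y (ε l)

/-- The degrees of the curves in the planes of a family. -/
theorem part3 (hG : G.IsHomogeneous 6)
    (hgen : AlgebraicIndependent k0 fun I : {I : Fin (4 + 1) →₀ ℕ // I.degree = 6} =>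
      G.coeff I.1) : ∃ A : ℕ, ∀ (L : Type) [Field L] [Algebra k L] [IsFF k L]
      (x : Fin (4 + 1) → L) (Y : T3 → L), x ≠ 0 → aeval x G = 0 → Pln x Y →
      pht k x ≤ A * (max (canDeg k L) 0 + 1 + fht k Y) := by
  obtain ⟨A, hA⟩ := rel_ineq (k := k) (N := 124) (M := 4) (Φ := ∅) (Ψ := Eqs G)
    (fun H hH => absurd hH (Set.notMem_empty H)) (fun H hH => by
      rcases hH with rfl | ⟨a, b, c, e, rfl⟩
      · exact bi_G hG
      · exact bi_Rl a b c e) fun i0 j0 => ⟨∅, chart hG hgen i0 j0⟩
  refine ⟨A, fun L _ _ _ x Y hx hxG hY => ?_⟩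
  have h1 := hA L (fun l => Y (ε l)) x (by
    obtain ⟨q, hq⟩ := Function.ne_iff.1 hY.ne
    exact ⟨ε.symm q, by rw [Equiv.apply_symm_apply]; exact hq⟩) (Function.ne_iff.1 hx)
    (fun H hH => absurd hH (Set.notMem_empty H)) (fun H hH => by
      rcases hH with rfl | ⟨a, b, c, e, rfl⟩
      · rw [aeval_rename]
        exact hxG
      · rw [aeval_Rl]
        simp only [Equiv.apply_symm_apply]
        exact hY.rel a b c e)
  rw [pht_eps hY.ne] at h1
  exact h1

/-- **A generic sextic threefold is algebraically hyperbolic.** -/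
theorem main (hG : G.IsHomogeneous 6)
    (hgen : AlgebraicIndependent k0 fun I : {I : Fin (4 + 1) →₀ ℕ // I.degree = 6} =>
      G.coeff I.1) : ∃ B : ℕ, ∀ (L : Type) [Field L] [Algebra k L] [IsFF k L]
      (x : Fin (4 + 1) → L), aeval x G = 0 → (∃ a b, x b ≠ 0 ∧ Transcendental k (x a / x b)) →
      1 ≤ canDeg k L ∧ pht k x ≤ B * canDeg k L := by
  obtain ⟨A, hA⟩ := part3 hG hgen
  refine ⟨3 * A + 2, fun L _ _ _ x hx ⟨a, b, hb, hab⟩ => ?_⟩
  have hx0 : x ≠ 0 := fun h => hb (by rw [h]; rfl)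
  have hcd0 := canDeg_nonneg_of hG hgen hb hab hx
  have hxa : x a ≠ 0 := by
    intro h
    apply hab
    rw [h, zero_div]
    exact isAlgebraic_zero
  have hpos : 0 < pht k x := by
    have h1 := Pool.Agent.W603.CX.hgt_le_pht (k := k) x hxa hb
    by_contra h2
    push Not at h2
    obtain ⟨c, hc⟩ := Pool.Agent.W603.LV.const_of_hgt (h1.trans h2)
    apply hab
    rw [hc]
    exact isAlgebraic_algebraMap _
  have h12 := part2 hG hgen hb hab hx
  have hcd : 1 ≤ canDeg k L := by
    by_contra hcon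
    have hcd' : canDeg k L ≤ 0 := by omega
    rcases h12 with h1 | ⟨Y, hY, hYh⟩
    · linarith
    · -- a constant plane
      obtain ⟨q, hq⟩ := Function.ne_iff.1 hY.ne
      have hq' : Y q ≠ 0 := hq
      have hc : ∀ q', ∃ c : k, Y q' / Y q = algebraMap k L c := by
        intro q'
        by_cases h0 : Y q' = 0
        · exact ⟨0, by rw [h0, zero_div, map_zero]⟩
        · apply Pool.Agent.W603.LV.const_of_hgt
          have h2 := Pool.Agent.W603.CX.hgt_le_pht (k := k) (fun l => Y (ε l)) (j := ε.symm q')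
            (l := ε.symm q) (by rw [Equiv.apply_symm_apply]; exact h0)
            (by rw [Equiv.apply_symm_apply]; exact hq')
          rw [Equiv.apply_symm_apply, Equiv.apply_symm_apply, pht_eps hY.ne] at h2
          exact h2.trans (hYh.trans hcd')
      choose c hc using hc
      obtain ⟨p, q1, q2⟩ := q
      refine no_small hG hgen hcd' hb hab hx (i := ![p, q1, q2]) fun l =>
        ⟨![c (l, q1, q2), -c (l, p, q2), c (l, p, q1)], ?_⟩
      rw [Fin.sum_univ_three]
      change x l = algebraMap k L (c (l, q1, q2)) * x p +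
        algebraMap k L (-c (l, p, q2)) * x q1 + algebraMap k L (c (l, p, q1)) * x q2
      rw [map_neg, ← hc, ← hc, ← hc]
      field_simp
      linear_combination hY.rel l p q1 q2
  refine ⟨hcd, ?_⟩
  have hA0 : (0 : ℤ) ≤ A := Int.natCast_nonneg _
  rcases h12 with h1 | ⟨Y, hY, hYh⟩
  · push_cast
    nlinarith
  · have h1 := hA L x Y hx0 hx hY
    rw [max_eq_left hcd0] at h1
    push_cast
    nlinarith

end chart

end Pool.Agent.H435.ST
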