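import Pool.Agent.H435.ST.Low
import Pool.Agent.H916.Endo

/-!
Rational curves and plane curves of genus at most one in a generic sextic threefold.
-/

set_option autoImplicit false
set_option linter.unusedSectionVars false

open MvPolynomial FF Pool.Agent.W603.LV Pool.Agent.W603.PV Pool.Agent.TH145.GH
open Pool.Agent.Y735 (pl po fht fht_nonneg sum_two)
open Pool.Agent.W602.GT Pool.Agent.TH145.GF
open Pool.Agent.Y741 (pht_nonneg)
open Pool.Agent.W619.PQ (canDeg_rational isFF_down)
open scoped IntermediateField

namespace Pool.Agent.H435.ST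

open Pool.Agent.H435.VG (ge_po le_po)

section lines

variable {k : Type} [Field k] [IsAlgClosed k] [CharZero k]

/-- A generic sextic contains no lines. -/
theorem no_line_k {k0 : Type} [Field k0] [Algebra k0 k]
    {G : MvPolynomial (Fin (4 + 1)) k} (hG : G.IsHomogeneous 6)
    (hgen : AlgebraicIndependent k0 fun I : {I : Fin (4 + 1) →₀ ℕ // I.degree = 6} =>
      G.coeff I.1) {u v : Fin (4 + 1) → k} (huv : pl u v ≠ 0) :
    ∃ τ : k, eval (fun l => u l + τ * v l) G ≠ 0 := by
  by_contra hcon
  push Not at hcon
  obtain ⟨ι, t, ht⟩ := exists_isTranscendenceBasis' k k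
  obtain ⟨Dd, hDd, -, -, -⟩ := exists_DU (L := k) hgen ht
  have hid : map (algebraMap k k) G = G := by
    rw [Algebra.algebraMap_self, MvPolynomial.map_id]
  rw [hid] at hDd
  refine no_line hG (dual_of hDd) huv ?_
  apply Polynomial.funext
  intro τ
  rw [lnp_eval, hcon, Polynomial.eval_zero]

end lines

section

variable {k L : Type} [Field k] [Field L] [Algebra k L] [IsAlgClosed k] [CharZero k] [IsFF k L]

/-- The canonical degree is not negative. -/
theorem canDeg_nonneg_of {k0 : Type} [Field k0] [Algebra k0 k]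
    {G : MvPolynomial (Fin (4 + 1)) k} (hG : G.IsHomogeneous 6)
    (hgen : AlgebraicIndependent k0 fun I : {I : Fin (4 + 1) →₀ ℕ // I.degree = 6} =>
      G.coeff I.1) {x : Fin (4 + 1) → L} {a b : Fin (4 + 1)} (hb : x b ≠ 0)
    (hab : Transcendental k (x a / x b)) (hx : aeval x G = 0) : 0 ≤ canDeg k L := by
  have hx0 : x ≠ 0 := fun h => hb (by rw [h]; rfl)
  rcases part2 hG hgen hb hab hx with h1 | ⟨Y, hY, hYh⟩
  · have h2 := pht_nonneg (k := k) hx0
    linarith
  · exact (fht_nonneg hY.ne).trans hYh

/-- Three independent functions of small height. -/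
theorem rational_of_small {z : Fin (2 + 1) → L} (hz : LinearIndependent k z)
    (hh : pht k z ≤ 2) : canDeg k L < 0 := by
  classical
  have hz0 : z ≠ 0 := by
    rintro rfl
    exact hz.ne_zero 0 rfl
  obtain ⟨P, -⟩ := exists_place (k := k) (K := L)
  obtain ⟨lam, z2, hlam, hlamP, hzz, hz2, i1, hi1⟩ := exists_scaled P hz0
  choose c hc using fun l => exists_const P (hz2 l)
  obtain ⟨a, b, hai, hbi, hab, hall⟩ := exists_three i1
  obtain ⟨w, hw⟩ : ∃ w : Fin (1 + 1) → L, w = ![z a - algebraMap k L (c a) * z i1,
    z b - algebraMap k L (c b) * z i1] := ⟨_, rfl⟩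
  have hw0 : w 0 = z a - algebraMap k L (c a) * z i1 := by rw [hw]; rfl
  have hw1 : w 1 = z b - algebraMap k L (c b) * z i1 := by rw [hw]; rfl
  have hzl : ∀ l, z l = lam * z2 l := fun l => by
    conv_lhs => rw [hzz]
    rfl
  have hind : ∀ r r' : k, algebraMap k L r * w 0 + algebraMap k L r' * w 1 = 0 → r = 0 ∧ r' = 0 := by
    intro r r' h
    rw [Fintype.linearIndependent_iff] at hz
    have h1 := hz (fun l => if l = a then r else if l = b then r' else -(r * c a + r' * c b)) (by
      have h2 : (Finset.univ : Finset (Fin (2 + 1))) = {a, b, i1} := by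
        ext l
        simp only [Finset.mem_univ, Finset.mem_insert, Finset.mem_singleton, true_iff]
        exact hall l
      rw [h2, Finset.sum_insert (by
        simp only [Finset.mem_insert, Finset.mem_singleton]
        rintro (h | h)
        · exact hab h
        · exact hai h), Finset.sum_insert (by
        simp only [Finset.mem_singleton]
        exact hbi), Finset.sum_singleton, if_pos rfl, if_neg hab.symm, if_pos rfl,
        if_neg hai.symm, if_neg hbi.symm]
      simp only [Algebra.smul_def, map_neg, map_add, map_mul]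
      rw [hw0, hw1] at h
      linear_combination h)
    have h3 := h1 a
    have h4 := h1 b
    simp only [if_pos rfl] at h3
    simp only [if_neg hab.symm, if_pos rfl] at h4
    exact ⟨h3, h4⟩
  have hw1n : w 1 ≠ 0 := by
    intro h0
    have h1 := hind 0 1 (by rw [h0, map_zero, zero_mul, mul_zero, add_zero])
    exact one_ne_zero h1.2
  have hwne : w ≠ 0 := fun h => hw1n (by rw [h]; rfl)
  have hw0n : w 0 ≠ 0 := by
    intro h0
    have h1 := hind 1 0 (by rw [h0, map_zero, zero_mul, mul_zero, add_zero])
    exact one_ne_zero h1.1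
  have hgeP : ∀ l, Ge P (pord P z + 1) (w l) := by
    have key : ∀ l, Ge P (pord P z + 1) (z l - algebraMap k L (c l) * z i1) := by
      intro l
      have h1 : z l - algebraMap k L (c l) * z i1 = lam * (z2 l - algebraMap k L (c l)) := by
        rw [hzl l, hzl i1, hi1]
        ring
      rw [h1]
      have h2 : Ge P (pord P z) lam := Or.inr hlamP.ge
      exact h2.mul (hc l)
    intro l
    fin_cases l
    · change Ge P _ (w 0)
      rw [hw0]
      exact key a
    · change Ge P _ (w 1)
      rw [hw1]
      exact key b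
  have hgeQ : ∀ (Q : Place k L) l, Ge Q (pord Q z) (w l) := by
    intro Q
    have key : ∀ l, Ge Q (pord Q z) (z l - algebraMap k L (c l) * z i1) := by
      intro l
      have h2 := (Ge.const (P := Q) (c l)).mul (ge_pord Q z i1)
      rw [zero_add] at h2
      exact (ge_pord Q z l).sub h2
    intro l
    fin_cases l
    · change Ge Q _ (w 0)
      rw [hw0]
      exact key a
    · change Ge Q _ (w 1)
      rw [hw1]
      exact key b
  have hfin : {Q : Place k L | (if Q = P then (-1 : ℤ) else 0) ≠ 0}.Finite := by
    refine (Set.finite_singleton P).subset fun Q hQ => ?_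
    by_contra h
    have h' : Q ≠ P := h
    exact hQ (if_neg h')
  have h1 := sum_two (k := k) hz0 hwne (a := 1) (b := -1) (c := 0) (g := (1 : L)) (Θ := (1 : L))
    (C := fun Q : Place k L => if Q = P then (-1 : ℤ) else 0) hfin (fun Q => by
      rw [Q.ord_one]
      by_cases hQ : Q = P
      · rw [if_pos hQ]
        have h2 := le_po Q hwne (c := pord Q z + 1) (by rw [hQ]; exact hgeP)
        linarith
      · rw [if_neg hQ]
        have h2 := le_po Q hwne (hgeQ Q)
        linarith)
  rw [finsum_eq_single _ P fun Q hQ => if_neg hQ, if_pos rfl] at h1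
  have h2 := Pool.Agent.W603.CX.hgt_le_pht (k := k) w hw0n hw1n
  rw [← Pool.Agent.Y735.fht_fin] at h2
  have h3 : hgt k (w 0 / w 1) ≤ 1 := by linarith
  have hT : Transcendental k (w 0 / w 1) := by
    intro hA
    obtain ⟨r, hr⟩ := const_of_alg (k := k) (L := L) (t := w 0 / w 1) (fun h => h hA)
    have h4 := hind 1 (-r) (by
      rw [map_one, one_mul, map_neg, hr]
      field_simp
      ring)
    exact one_ne_zero h4.1
  have h4 := hgt_eq_finrank (k := k) hT
  have h5 : FiniteDimensional k⟮w 0 / w 1⟯ L := IsFF.finite hT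
  have h6 : 0 < Module.finrank k⟮w 0 / w 1⟯ L := Module.finrank_pos
  have h7 : Module.finrank k⟮w 0 / w 1⟯ L = 1 := by omega
  have h8 : k⟮w 0 / w 1⟯ = ⊤ := by
    rw [← IntermediateField.finrank_eq_one_iff_eq_top]
    exact h7
  rw [canDeg_rational h8]
  norm_num

/-- A generic sextic has no points on constant lines. -/
theorem no_const_line {k0 : Type} [Field k0] [Algebra k0 k]
    {G : MvPolynomial (Fin (4 + 1)) k} (hG : G.IsHomogeneous 6)
    (hgen : AlgebraicIndependent k0 fun I : {I : Fin (4 + 1) →₀ ℕ // I.degree = 6} =>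
      G.coeff I.1) {x : Fin (4 + 1) → L} {a b : Fin (4 + 1)} (hb : x b ≠ 0)
    (hab : Transcendental k (x a / x b)) (hx : aeval x G = 0) {α β : L} {u v : Fin (4 + 1) → k}
    (hxl : ∀ l, x l = algebraMap k L (u l) * α + algebraMap k L (v l) * β) : False := by
  classical
  -- the vectors are independent
  have hcst : ∀ (r r' : k) (γ : L), x a = algebraMap k L r * γ → x b = algebraMap k L r' * γ →
      False := by
    intro r r' γ h1 h2
    apply hab
    have hγ : γ ≠ 0 := by
      rintro rfl
      exact hb (by rw [h2, mul_zero])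
    rw [h1, h2, mul_div_mul_right _ _ hγ, ← map_div₀]
    exact isAlgebraic_algebraMap _
  have huv : pl u v ≠ 0 := by
    intro h0
    have h1 : u a * v b - u b * v a = 0 := congrFun h0 (a, b)
    by_cases hub : u b = 0
    · by_cases hvb : v b = 0
      · apply hb
        rw [hxl, hub, hvb, map_zero, zero_mul, zero_mul, add_zero]
      · have h2 : u a = 0 := by
          rw [hub, zero_mul, sub_zero] at h1
          exact (mul_eq_zero.1 h1).resolve_right hvb
        exact hcst (v a) (v b) β (by rw [hxl, h2, map_zero, zero_mul, zero_add])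
          (by rw [hxl, hub, map_zero, zero_mul, zero_add])
    · refine hcst (u a / u b) 1 (x b) ?_ (by rw [map_one, one_mul])
      rw [hxl a, hxl b]
      have h2 : v a = u a / u b * v b := by
        field_simp
        linear_combination -h1
      rw [h2, map_mul, map_div₀]
      have h3 : algebraMap k L (u b) ≠ 0 := (_root_.map_ne_zero _).2 hub
      field_simp
  obtain ⟨τ, hτ⟩ := no_line_k hG hgen huv
  by_cases hα : α = 0
  · exact hcst (v a) (v b) β (by rw [hxl, hα, mul_zero, zero_add])
      (by rw [hxl, hα, mul_zero, zero_add])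
  by_cases hT : Transcendental k (β / α)
  · -- the form vanishes on the line
    have h1 : Polynomial.aeval (β / α) (lnp G u v) = 0 := by
      have h2 : ((Polynomial.aeval (β / α) : Polynomial k →ₐ[k] L) :
          Polynomial k →+* L).comp
          ((aeval fun l => Polynomial.C (u l) + Polynomial.X * Polynomial.C (v l) :
            MvPolynomial (Fin (4 + 1)) k →ₐ[k] Polynomial k) :
            MvPolynomial (Fin (4 + 1)) k →+* Polynomial k) =
          (eval fun l => algebraMap k L (u l) + β / α * algebraMap k L (v l)).comp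
            (map (algebraMap k L)) := by
        apply MvPolynomial.ringHom_ext
        · intro c
          rw [RingHom.comp_apply, RingHom.comp_apply, map_C, eval_C, RingHom.coe_coe,
            RingHom.coe_coe, aeval_C, Polynomial.algebraMap_eq, Polynomial.aeval_C]
        · intro l
          rw [RingHom.comp_apply, RingHom.comp_apply, map_X, eval_X, RingHom.coe_coe,
            RingHom.coe_coe, aeval_X, map_add, map_mul, Polynomial.aeval_C,
            Polynomial.aeval_X, Polynomial.aeval_C]
      have h3 := DFunLike.congr_fun h2 G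
      have h4 : (fun l => algebraMap k L (u l) + β / α * algebraMap k L (v l)) = α⁻¹ • x := by
        funext l
        rw [Pi.smul_apply, smul_eq_mul, hxl]
        field_simp
      have h5 : eval (α⁻¹ • x) (map (algebraMap k L) G) = 0 := by
        rw [eval_smul_hom (hG.map _), eval_map]
        have h6 : eval₂ (algebraMap k L) x G = 0 := hx
        rw [h6, mul_zero]
      rw [RingHom.comp_apply, RingHom.comp_apply, h4, h5] at h3
      exact h3
    have h2 : lnp G u v = 0 := by
      by_contra h3
      exact hT ⟨_, h3, h1⟩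
    apply hτ
    rw [← lnp_eval, h2, Polynomial.eval_zero]
  · obtain ⟨r, hr⟩ := const_of_alg hT
    have h1 : ∀ l, x l = algebraMap k L (u l + v l * r) * α := by
      intro l
      rw [hxl, map_add, map_mul, hr]
      field_simp
    exact hcst _ _ α (h1 a) (h1 b)

/-- A plane curve of genus at most one, that generates the function field. -/
theorem no_small1 {k0 : Type} [Field k0] [Algebra k0 k]
    {G : MvPolynomial (Fin (4 + 1)) k} (hG : G.IsHomogeneous 6)
    (hgen : AlgebraicIndependent k0 fun I : {I : Fin (4 + 1) →₀ ℕ // I.degree = 6} =>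
      G.coeff I.1) (hcd : canDeg k L ≤ 0) {x : Fin (4 + 1) → L} {a b : Fin (4 + 1)} (hb : x b ≠ 0)
    (hab : Transcendental k (x a / x b)) (hx : aeval x G = 0)
    (htop : IntermediateField.adjoin k (Set.range fun l => x l / x b) = ⊤)
    {i : Fin (2 + 1) → Fin (4 + 1)}
    (hpl : ∀ l, ∃ c : Fin (2 + 1) → k, x l = ∑ s, algebraMap k L (c s) * x (i s)) : False := by
  classical
  have hLz : CharZero L := charZero_of_injective_algebraMap (algebraMap k L).injective
  choose ψ hψ using hpl
  by_cases hlin : LinearIndependent k fun s => x (i s)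
  swap
  · -- a line
    rw [Fintype.linearIndependent_iff] at hlin
    push Not at hlin
    obtain ⟨g, hg, s0, hs0⟩ := hlin
    obtain ⟨p, q, hp, hq, hpq, hall⟩ := exists_three s0
    have huniv : (Finset.univ : Finset (Fin (2 + 1))) = {p, q, s0} := by
      ext l
      simp only [Finset.mem_univ, Finset.mem_insert, Finset.mem_singleton, true_iff]
      exact hall l
    have hsum : ∀ f : Fin (2 + 1) → L, ∑ s, f s = f p + (f q + f s0) := by
      intro f
      rw [huniv, Finset.sum_insert (by
        simp only [Finset.mem_insert, Finset.mem_singleton]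
        rintro (h | h)
        · exact hpq h
        · exact hp h), Finset.sum_insert (by
        simp only [Finset.mem_singleton]
        exact hq), Finset.sum_singleton]
    rw [hsum] at hg
    simp only [Algebra.smul_def] at hg
    have hg0 : algebraMap k L (g s0) ≠ 0 := (_root_.map_ne_zero _).2 hs0
    refine no_const_line hG hgen hb hab hx (α := x (i p)) (β := x (i q))
      (u := fun l => ψ l p - ψ l s0 * (g p / g s0)) (v := fun l => ψ l q - ψ l s0 * (g q / g s0))
      fun l => ?_
    rw [hψ l, hsum, map_sub, map_sub, map_mul, map_mul, map_div₀, map_div₀]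
    have h1 : x (i s0) = -(algebraMap k L (g p) / algebraMap k L (g s0)) * x (i p) -
        (algebraMap k L (g q) / algebraMap k L (g s0)) * x (i q) := by
      field_simp
      linear_combination hg
    rw [h1]
    ring
  -- three independent coordinates
  have hi : Function.Injective i := by
    intro s s' h
    exact hlin.injective (by simp only [h])
  have hψi : ∀ s s', ψ (i s) s' = if s = s' then 1 else 0 := by
    intro s s'
    have h1 := hψ (i s)
    have h2 : ∑ s', (ψ (i s) s' - if s = s' then 1 else 0) • x (i s') = 0 := by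
      have e1 : ∀ s', (ψ (i s) s' - if s = s' then 1 else 0) • x (i s') =
          algebraMap k L (ψ (i s) s') * x (i s') - (if s = s' then x (i s') else 0) := by
        intro s'
        rw [sub_smul, Algebra.smul_def]
        congr 1
        split_ifs
        · rw [one_smul]
        · rw [zero_smul]
      rw [Finset.sum_congr rfl fun s' _ => e1 s', Finset.sum_sub_distrib, ← h1,
        Finset.sum_ite_eq, if_pos (Finset.mem_univ s), sub_self]
    have h3 := (Fintype.linearIndependent_iff.1 hlin) _ h2 s'
    exact sub_eq_zero.1 h3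
  obtain ⟨z, hz⟩ : ∃ z : Fin (2 + 1) → L, ∀ s, z s = x (i s) := ⟨_, fun _ => rfl⟩
  have hzf : (fun s => x (i s)) = z := (funext hz).symm
  rw [hzf] at hlin
  obtain ⟨F, hFd⟩ : ∃ F, F = map (algebraMap k L) G := ⟨_, rfl⟩
  have hF : F.IsHomogeneous 6 := by rw [hFd]; exact hG.map _
  have hxF : eval x F = 0 := by
    rw [hFd, eval_map]
    exact hx
  have hFk : ∀ u, ∃ c : k, F.coeff u = algebraMap k L c := fun u => by
    rw [hFd, coeff_map]
    exact ⟨_, rfl⟩
  obtain ⟨Dd, hDd, hS, -, -⟩ := exists_DU (L := L) hgen (IsFF.basis (k := k) hab)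
  rw [← hFd] at hDd
  obtain ⟨δ, hδ⟩ := exists_der (k := k) (K := L)
  -- the point of the plane is not constant
  obtain ⟨b0, hb0⟩ : ∃ b0, z b0 ≠ 0 := by
    by_contra hcon
    push Not at hcon
    apply hb
    rw [hψ b]
    exact Finset.sum_eq_zero fun s _ => by rw [← hz, hcon, mul_zero]
  have hxz : ∀ l, x l / z b0 = ∑ s, algebraMap k L (ψ l s) * (z s / z b0) := by
    intro l
    rw [hψ l, Finset.sum_div]
    exact Finset.sum_congr rfl fun s _ => by rw [hz s, mul_div_assoc]
  obtain ⟨a0, ha0⟩ : ∃ a0, Transcendental k (z a0 / z b0) := by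
    by_contra hcon
    push Not at hcon
    choose r hr using fun s => const_of_alg (hcon s)
    have h1 : ∀ l, x l / z b0 = algebraMap k L (∑ s, ψ l s * r s) := by
      intro l
      rw [hxz, map_sum]
      exact Finset.sum_congr rfl fun s _ => by rw [map_mul, hr]
    apply hab
    have h2 : x a / x b = (x a / z b0) / (x b / z b0) := by
      rw [div_div_div_cancel_right₀ hb0]
    rw [h2, h1, h1, ← map_div₀]
    exact isAlgebraic_algebraMap _
  have htopz : IntermediateField.adjoin k (Set.range fun s => z s / z b0) = ⊤ := by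
    rw [eq_top_iff, ← htop, IntermediateField.adjoin_le_iff]
    rintro _ ⟨l, rfl⟩
    have h1 : ∀ l, x l / z b0 ∈ IntermediateField.adjoin k (Set.range fun s => z s / z b0) := by
      intro l
      rw [hxz]
      refine sum_mem fun s _ => mul_mem (IntermediateField.algebraMap_mem _ _) ?_
      exact IntermediateField.subset_adjoin _ _ ⟨s, rfl⟩
    have h2 : x l / x b = (x l / z b0) / (x b / z b0) := by
      rw [div_div_div_cancel_right₀ hb0]
    change x l / x b ∈ _
    rw [h2]
    exact div_mem (h1 l) (h1 b)
  have hn : ∃ j, ![x (i 1) * δ (x (i 2)) - x (i 2) * δ (x (i 1)),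
      x (i 2) * δ (x (i 0)) - x (i 0) * δ (x (i 2)),
      x (i 0) * δ (x (i 1)) - x (i 1) * δ (x (i 0))] j ≠ 0 := by
    by_contra hcon
    push Not at hcon
    have h0 : x (i 1) * δ (x (i 2)) - x (i 2) * δ (x (i 1)) = 0 := hcon 0
    have h1 : x (i 2) * δ (x (i 0)) - x (i 0) * δ (x (i 2)) = 0 := hcon 1
    have h2 : x (i 0) * δ (x (i 1)) - x (i 1) * δ (x (i 0)) = 0 := hcon 2
    have h3 : ∀ s s', x (i s) * δ (x (i s')) - x (i s') * δ (x (i s)) = 0 := by
      intro s s'
      fin_cases s <;> fin_cases s'
      · exact sub_self _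
      · exact h2
      · change x (i 0) * δ (x (i 2)) - x (i 2) * δ (x (i 0)) = 0
        linear_combination -h1
      · change x (i 1) * δ (x (i 0)) - x (i 0) * δ (x (i 1)) = 0
        linear_combination -h2
      · exact sub_self _
      · exact h0
      · exact h1
      · change x (i 2) * δ (x (i 1)) - x (i 1) * δ (x (i 2)) = 0
        linear_combination -h0
      · exact sub_self _
    have h4 := h3 a0 b0
    have h5 := der_ne_zero hδ ha0
    apply h5
    rw [← hz, ← hz] at h4
    have h6 : δ (z a0) = δ (z a0 / z b0) * z b0 + z a0 / z b0 * δ (z b0) := by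
      conv_lhs => rw [← div_mul_cancel₀ (z a0) hb0]
      rw [δ.leibniz]
      simp only [smul_eq_mul]
      ring
    rw [h6] at h4
    have h7 : z b0 * z b0 * δ (z a0 / z b0) = 0 := by
      have h8 : z a0 / z b0 * z b0 = z a0 := div_mul_cancel₀ _ hb0
      linear_combination -h4 - δ (z b0) * h8
    exact (mul_eq_zero.1 h7).resolve_left (mul_ne_zero hb0 hb0)
  obtain ⟨W, hWf, hWm, hWr⟩ := upper hF (dual_of hDd) (fun I => hS () I) hFk hδ hxF hi hψ hψi hn
  rw [hzf] at hWr
  -- the form on the plane
  obtain ⟨f, hf⟩ : ∃ f : MvPolynomial (Fin (2 + 1)) k, f = aeval (fun l => ∑ s, C (ψ l s) * X s) G :=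
    ⟨_, rfl⟩
  have hfe : ∀ y : Fin (2 + 1) → k, eval y f = eval (fun l => ∑ s, ψ l s * y s) G := by
    intro y
    have h1 : (eval y).comp ((aeval (fun l => ∑ s, C (ψ l s) * X s) :
        MvPolynomial (Fin (4 + 1)) k →ₐ[k] MvPolynomial (Fin (2 + 1)) k) :
        MvPolynomial (Fin (4 + 1)) k →+* MvPolynomial (Fin (2 + 1)) k) =
        eval (fun l => ∑ s, ψ l s * y s) := by
      apply MvPolynomial.ringHom_ext
      · intro c
        rw [RingHom.comp_apply, RingHom.coe_coe, aeval_C, MvPolynomial.algebraMap_eq, eval_C,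
          eval_C]
      · intro l
        rw [RingHom.comp_apply, RingHom.coe_coe, aeval_X, map_sum, eval_X]
        exact Finset.sum_congr rfl fun s _ => by rw [map_mul, eval_C, eval_X]
    rw [hf]
    exact DFunLike.congr_fun h1 G
  have hfL : eval z (map (algebraMap k L) f) = 0 := by
    have h1 : ((eval z).comp (map (algebraMap k L))).comp ((aeval (fun l => ∑ s, C (ψ l s) * X s) :
        MvPolynomial (Fin (4 + 1)) k →ₐ[k] MvPolynomial (Fin (2 + 1)) k) :
        MvPolynomial (Fin (4 + 1)) k →+* MvPolynomial (Fin (2 + 1)) k) =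
        (eval x).comp (map (algebraMap k L)) := by
      apply MvPolynomial.ringHom_ext
      · intro c
        rw [RingHom.comp_apply, RingHom.comp_apply, RingHom.comp_apply, RingHom.coe_coe, aeval_C,
          MvPolynomial.algebraMap_eq, map_C, eval_C, map_C, eval_C]
      · intro l
        rw [RingHom.comp_apply, RingHom.comp_apply, RingHom.comp_apply, RingHom.coe_coe, aeval_X,
          map_sum, map_sum, map_X, eval_X, hψ l]
        exact Finset.sum_congr rfl fun s _ => by
          rw [map_mul, map_C, map_X, map_mul, eval_C, eval_X, hz]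
    rw [hf]
    have h2 := DFunLike.congr_fun h1 G
    rw [RingHom.comp_apply, RingHom.comp_apply, RingHom.comp_apply, ← hFd, hxF] at h2
    exact h2
  have hfh : f.IsHomogeneous 6 := by
    rw [hf]
    have h1 := hG.aeval (n := 1) (fun l => ∑ s, C (ψ l s) * X s) (fun l =>
      IsHomogeneous.sum _ _ _ fun s _ => by
        have h6 := (isHomogeneous_C (Fin (2 + 1)) (ψ l s)).mul (isHomogeneous_X k s)
        rwa [zero_add] at h6)
    rwa [one_mul] at h1
  have hf0 : f ≠ 0 := by
    intro h0
    obtain ⟨τ, hτ⟩ := no_line_k hG hgen (u := fun l => ψ l 0) (v := fun l => ψ l 1) (by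
      intro h1
      have h2 : ψ (i 0) 0 * ψ (i 1) 1 - ψ (i 1) 0 * ψ (i 0) 1 = 0 := congrFun h1 (i 0, i 1)
      rw [hψi, hψi, hψi, hψi, if_pos rfl, if_pos rfl, if_neg (by decide), if_neg (by decide)] at h2
      norm_num at h2)
    apply hτ
    have h1 := hfe ![1, τ, 0]
    rw [h0, map_zero] at h1
    rw [h1]
    congr 2
    funext l
    rw [Fin.sum_univ_three]
    change ψ l 0 + τ * ψ l 1 = ψ l 0 * 1 + ψ l 1 * τ + ψ l 2 * 0
    ring
  obtain ⟨e, he, he1, he6, hcard⟩ := lower hfh hf0 hfL hb0 ⟨a0, ha0⟩ htopz (V := W) (fun H hH => by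
    have h1 := hWm (rename i H) hH.rename_isHomogeneous
    have h2 : eval x (map (algebraMap k L) (rename i H)) = eval z (map (algebraMap k L) H) := by
      rw [map_rename, eval_rename]
      congr 2
    rwa [h2] at h1)
  have hcd0 := canDeg_nonneg_of hG hgen hb hab hx
  have he3 : 3 ≤ e := by
    by_contra hcon
    have h1 := rational_of_small (k := k) hlin (by rw [he]; omega)
    omega
  rw [he] at hWr
  have h3 := hcard.trans hWr
  have h4 : canDeg k L = 0 := le_antisymm hcd hcd0
  rw [h4] at h3
  interval_cases e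
  · have h5 : Fintype.card {p : Fin 7 × Fin 7 // (p.1 : ℕ) + p.2 ≤ 6 ∧ (p.2 : ℕ) < 3} = 18 := by
      decide
    rw [h5] at h3
    omega
  · have h5 : Fintype.card {p : Fin 7 × Fin 7 // (p.1 : ℕ) + p.2 ≤ 6 ∧ (p.2 : ℕ) < 4} = 22 := by
      decide
    rw [h5] at h3
    omega
  · have h5 : Fintype.card {p : Fin 7 × Fin 7 // (p.1 : ℕ) + p.2 ≤ 6 ∧ (p.2 : ℕ) < 5} = 25 := by
      decide
    rw [h5] at h3
    omega
  · have h5 : Fintype.card {p : Fin 7 × Fin 7 // (p.1 : ℕ) + p.2 ≤ 6 ∧ (p.2 : ℕ) < 6} = 27 := by
      decide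
    rw [h5] at h3
    omega

/-- A generic sextic contains no plane curves of genus at most one. -/
theorem no_small {k0 : Type} [Field k0] [Algebra k0 k]
    {G : MvPolynomial (Fin (4 + 1)) k} (hG : G.IsHomogeneous 6)
    (hgen : AlgebraicIndependent k0 fun I : {I : Fin (4 + 1) →₀ ℕ // I.degree = 6} =>
      G.coeff I.1) (hcd : canDeg k L ≤ 0) {x : Fin (4 + 1) → L} {a b : Fin (4 + 1)} (hb : x b ≠ 0)
    (hab : Transcendental k (x a / x b)) (hx : aeval x G = 0)
    {i : Fin (2 + 1) → Fin (4 + 1)}
    (hpl : ∀ l, ∃ c : Fin (2 + 1) → k, x l = ∑ s, algebraMap k L (c s) * x (i s)) : False := by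
  classical
  obtain ⟨K, hK⟩ : ∃ K : IntermediateField k L,
    K = IntermediateField.adjoin k (Set.range fun l => x l / x b) := ⟨_, rfl⟩
  have hmem : ∀ l, x l / x b ∈ K := by
    intro l
    rw [hK]
    exact IntermediateField.subset_adjoin _ _ ⟨l, rfl⟩
  have hKf : FiniteDimensional K L := by
    have h1 : k⟮x a / x b⟯ ≤ K := by
      rw [IntermediateField.adjoin_simple_le_iff]
      exact hmem a
    have h2 : FiniteDimensional k⟮x a / x b⟯ L := IsFF.finite hab
    let _ : Algebra k⟮x a / x b⟯ K := (IntermediateField.inclusion h1).toRingHom.toAlgebra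
    have h3 : IsScalarTower k⟮x a / x b⟯ K L := IsScalarTower.of_algebraMap_eq fun _ => rfl
    exact FiniteDimensional.right k⟮x a / x b⟯ K L
  have hKFF : IsFF k K := isFF_down (k := k) (E0 := K) (E := L)
  have hcdK : canDeg k K ≤ 0 := by
    have h1 := Pool.Agent.H916.canDeg_nonpos_below (k := k) (E := K) (K := L)
    have h2 : (0 : ℤ) < Module.finrank K L := by exact_mod_cast Module.finrank_pos
    by_contra h3
    push Not at h3
    have h4 := mul_pos h2 h3
    omega
  obtain ⟨x', hx'⟩ : ∃ x' : Fin (4 + 1) → K, ∀ l, x' l = ⟨x l / x b, hmem l⟩ := ⟨_, fun _ => rfl⟩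
  have hx'L : ∀ l, algebraMap K L (x' l) = (x b)⁻¹ * x l := by
    intro l
    rw [hx']
    change x l / x b = _
    rw [div_eq_mul_inv, mul_comm]
  have hinj := (algebraMap K L).injective
  have hx'b : x' b = 1 := by
    apply hinj
    rw [hx'L, inv_mul_cancel₀ hb, map_one]
  refine no_small1 (L := K) hG hgen hcdK (x := x') (a := a) (b := b)
    (by rw [hx'b]; exact one_ne_zero) ?_ ?_ ?_ (i := i) ?_
  · rw [hx'b, div_one]
    intro hA
    apply hab
    have h1 := hA.algebraMap (A := L)
    rw [hx'L] at h1
    rwa [div_eq_mul_inv, mul_comm]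
  · apply hinj
    have h1 : algebraMap K L (aeval x' G) = aeval (fun l => algebraMap K L (x' l)) G := by
      rw [← MvPolynomial.aeval_algebraMap_apply]
      rfl
    rw [h1, map_zero]
    have h2 := eval_smul_hom (hG.map (algebraMap k L)) x (x b)⁻¹
    rw [eval_map, eval_map] at h2
    have h3 : (fun j => algebraMap K L (x' j)) = (x b)⁻¹ • x := funext hx'L
    rw [h3]
    change eval₂ (algebraMap k L) ((x b)⁻¹ • x) G = 0
    rw [h2]
    have h4 : eval₂ (algebraMap k L) x G = 0 := hx
    rw [h4, mul_zero]
  · have h1 : (fun l => x' l / x' b) = x' := by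
      funext l
      rw [hx'b, div_one]
    rw [h1]
    -- the generators
    have h2 : (IntermediateField.adjoin k (Set.range x')).map K.val =
        IntermediateField.adjoin k (Set.range fun l => x l / x b) := by
      rw [IntermediateField.adjoin_map]
      congr 1
      rw [← Set.range_comp]
      congr 1
      funext l
      rw [Function.comp_apply, hx']
      rfl
    rw [← hK] at h2
    rw [eq_top_iff]
    intro y _
    have h3 : K.val y ∈ (IntermediateField.adjoin k (Set.range x')).map K.val := by
      rw [h2]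
      exact y.2
    obtain ⟨y', hy', hyy⟩ := h3
    have h4 : y' = y := K.val.injective hyy
    rw [← h4]
    exact hy'
  · intro l
    obtain ⟨c, hc⟩ := hpl l
    refine ⟨c, ?_⟩
    apply hinj
    rw [hx'L, hc, map_sum, Finset.mul_sum]
    refine Finset.sum_congr rfl fun s _ => ?_
    rw [map_mul, hx'L]
    have h1 : algebraMap K L (algebraMap k K (c s)) = algebraMap k L (c s) := rfl
    rw [h1]
    ring

end

end Pool.Agent.H435.ST
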