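import Pool.Agent.H435.ST.Loc
import Pool.Agent.H435.VG.Fe

/-!
Forms on a line as polynomials, and derivations.
-/

set_option autoImplicit false

open MvPolynomial FF Pool.Agent.W603.LV Pool.Agent.W603.PV Pool.Agent.TH145.GH
open Pool.Agent.Y735 (lf lf_apply lf_hom eval_lf pm lf_pm sum_pm eval_pm pl DD DD_apply)

namespace Pool.Agent.H435.ST

section

variable {L : Type} [Field L] {n : ℕ}

/-- A form on the line through `u` and `w`. -/
noncomputable def lnp (G : MvPolynomial (Fin (n + 1)) L) (u w : Fin (n + 1) → L) : Polynomial L :=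
  aeval (fun l => Polynomial.C (u l) + Polynomial.X * Polynomial.C (w l)) G

theorem lnp_eval (G : MvPolynomial (Fin (n + 1)) L) (u w : Fin (n + 1) → L) (t : L) :
    (lnp G u w).eval t = eval (fun l => u l + t * w l) G := by
  have h2 : (Polynomial.evalRingHom t).comp
      ((aeval (fun l => Polynomial.C (u l) + Polynomial.X * Polynomial.C (w l)) :
        MvPolynomial (Fin (n + 1)) L →ₐ[L] Polynomial L) :
        MvPolynomial (Fin (n + 1)) L →+* Polynomial L) = eval (fun l => u l + t * w l) := by
    apply MvPolynomial.ringHom_ext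
    · intro c
      simp
    · intro l
      rw [RingHom.comp_apply, RingHom.coe_coe, aeval_X, Polynomial.coe_evalRingHom,
        Polynomial.eval_add, Polynomial.eval_mul, Polynomial.eval_C, Polynomial.eval_C,
        Polynomial.eval_X, eval_X]
  exact DFunLike.congr_fun h2 G

/-- The differential of a form along a line. -/
noncomputable def dln (G : MvPolynomial (Fin (n + 1)) L) (u w : Fin (n + 1) → L) :
    (Fin (n + 1) → L) × (Fin (n + 1) → L) →ₗ[L] Polynomial L where
  toFun ab := ∑ l, lnp (pderiv l G) u w *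
    (Polynomial.C (ab.1 l) + Polynomial.X * Polynomial.C (ab.2 l))
  map_add' ab ab' := by
    rw [← Finset.sum_add_distrib]
    refine Finset.sum_congr rfl fun l _ => ?_
    rw [Prod.fst_add, Prod.snd_add, Pi.add_apply, Pi.add_apply, Polynomial.C_add,
      Polynomial.C_add]
    ring
  map_smul' r ab := by
    rw [Finset.smul_sum]
    refine Finset.sum_congr rfl fun l _ => ?_
    rw [Prod.smul_fst, Prod.smul_snd, Pi.smul_apply, Pi.smul_apply, smul_eq_mul, smul_eq_mul,
      Polynomial.C_mul, Polynomial.C_mul, RingHom.id_apply, Polynomial.smul_eq_C_mul]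
    ring

theorem dln_apply (G : MvPolynomial (Fin (n + 1)) L) (u w a b : Fin (n + 1) → L) :
    dln G u w (a, b) = ∑ l, lnp (pderiv l G) u w *
      (Polynomial.C (a l) + Polynomial.X * Polynomial.C (b l)) := rfl

theorem dln_snd (G : MvPolynomial (Fin (n + 1)) L) (u w b : Fin (n + 1) → L) :
    dln G u w (0, b) = Polynomial.X * dln G u w (b, 0) := by
  rw [dln_apply, dln_apply, Finset.mul_sum]
  refine Finset.sum_congr rfl fun l _ => ?_
  simp only [Pi.zero_apply, Polynomial.C_0]
  ring

theorem dln_eval (G : MvPolynomial (Fin (n + 1)) L) (u w a b : Fin (n + 1) → L) (t : L) :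
    (dln G u w (a, b)).eval t = dF G (fun l => u l + t * w l) (fun l => a l + t * b l) := by
  rw [dln_apply, Polynomial.eval_finsetSum]
  unfold dF
  refine Finset.sum_congr rfl fun l _ => ?_
  rw [Polynomial.eval_mul, lnp_eval, Polynomial.eval_add, Polynomial.eval_mul, Polynomial.eval_C,
    Polynomial.eval_C, Polynomial.eval_X]

/-- The identity of Euler. -/
theorem dln_self [Infinite L] {G : MvPolynomial (Fin (n + 1)) L} {e : ℕ} (hG : G.IsHomogeneous e)
    (u w : Fin (n + 1) → L) : dln G u w (u, w) = (e : Polynomial L) * lnp G u w := by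
  apply Polynomial.funext
  intro t
  rw [dln_eval, Polynomial.eval_mul, lnp_eval, Polynomial.eval_natCast]
  exact Pool.Agent.TH145.GC.dF_self hG _

/-- The derivative along the line. -/
theorem lnp_derivative (G : MvPolynomial (Fin (n + 1)) L) (u w : Fin (n + 1) → L) :
    Polynomial.derivative (lnp G u w) = dln G u w (w, 0) := by
  induction G using MvPolynomial.induction_on with
  | C c =>
    rw [dln_apply]
    unfold lnp
    simp
  | add p q hp hq =>
    have h1 : lnp (p + q) u w = lnp p u w + lnp q u w := by unfold lnp; rw [map_add]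
    rw [h1, Polynomial.derivative_add, hp, hq, dln_apply, dln_apply, dln_apply,
      ← Finset.sum_add_distrib]
    refine Finset.sum_congr rfl fun l _ => ?_
    have h2 : lnp (pderiv l (p + q)) u w = lnp (pderiv l p) u w + lnp (pderiv l q) u w := by
      unfold lnp; rw [map_add, map_add]
    rw [h2]
    ring
  | mul_X p i hp =>
    have h1 : lnp (p * X i) u w = lnp p u w *
        (Polynomial.C (u i) + Polynomial.X * Polynomial.C (w i)) := by
      unfold lnp; rw [map_mul, aeval_X]
    rw [h1, Polynomial.derivative_mul, hp]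
    have h2 : Polynomial.derivative (Polynomial.C (u i) + Polynomial.X * Polynomial.C (w i)) =
        Polynomial.C (w i) := by simp
    rw [h2, dln_apply, dln_apply]
    have h3 : ∀ l, lnp (pderiv l (p * X i)) u w = lnp (pderiv l p) u w *
        (Polynomial.C (u i) + Polynomial.X * Polynomial.C (w i)) +
        if l = i then lnp p u w else 0 := by
      intro l
      have e1 : lnp (pderiv l p * X i) u w = lnp (pderiv l p) u w *
          (Polynomial.C (u i) + Polynomial.X * Polynomial.C (w i)) := by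
        unfold lnp; rw [map_mul, aeval_X]
      rw [pderiv_mul]
      have e2 : lnp (pderiv l p * X i + p * pderiv l (X i)) u w =
          lnp (pderiv l p * X i) u w + lnp (p * pderiv l (X i)) u w := by
        unfold lnp; rw [map_add]
      rw [e2, e1]
      congr 1
      by_cases hl : l = i
      · rw [if_pos hl, hl, pderiv_X_self, mul_one]
      · rw [if_neg hl, pderiv_X_of_ne (fun h => hl h.symm), mul_zero]
        unfold lnp
        rw [map_zero]
    simp only [h3, Pi.zero_apply, Polynomial.C_0, mul_zero, add_zero, add_mul]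
    rw [Finset.sum_add_distrib]
    congr 1
    · rw [Finset.sum_mul]
      exact Finset.sum_congr rfl fun l _ => by ring
    · rw [Finset.sum_eq_single i]
      · rw [if_pos rfl]
      · intro l _ hl
        rw [if_neg hl, zero_mul]
      · intro h; exact absurd (Finset.mem_univ _) h

/-- The derivation at the coefficients of a polynomial. -/
noncomputable def dco (E : Derivation ℤ L L) (p : Polynomial L) : Polynomial L :=
  ∑ j ∈ p.support, Polynomial.monomial j (E (p.coeff j))

theorem dco_coeff (E : Derivation ℤ L L) (p : Polynomial L) (j : ℕ) :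
    (dco E p).coeff j = E (p.coeff j) := by
  unfold dco
  rw [Polynomial.finsetSum_coeff]
  simp only [Polynomial.coeff_monomial]
  rw [Finset.sum_ite_eq' p.support j]
  split_ifs with h
  · rfl
  · rw [Polynomial.notMem_support_iff.1 h, map_zero]

theorem dco_eval (E : Derivation ℤ L L) (p : Polynomial L) (t : ℕ) :
    (dco E p).eval (t : L) = E (p.eval (t : L)) := by
  unfold dco
  rw [Polynomial.eval_finsetSum, Polynomial.eval_eq_sum, Polynomial.sum, map_sum]
  refine Finset.sum_congr rfl fun j _ => ?_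
  rw [Polynomial.eval_monomial, E.leibniz, E.leibniz_pow, Derivation.map_natCast]
  simp [mul_comm]

/-- The chain rule on a line. -/
theorem chain_ln [CharZero L] {E : Derivation ℤ L L} {G G' : MvPolynomial (Fin (n + 1)) L}
    (h : ∀ J, E (G.coeff J) = G'.coeff J) (u w : Fin (n + 1) → L) :
    dco E (lnp G u w) = lnp G' u w + dln G u w (fun l => E (u l), fun l => E (w l)) := by
  refine Polynomial.eq_of_infinite_eval_eq _ _ ?_
  refine (Set.infinite_range_of_injective (Nat.cast_injective (R := L))).mono ?_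
  rintro _ ⟨t, rfl⟩
  change (dco E (lnp G u w)).eval (t : L) = _
  rw [dco_eval, Polynomial.eval_add, lnp_eval, lnp_eval, dln_eval]
  have h1 := chainM E (fun l => u l + (t : L) * w l) G
  rw [h1]
  congr 1
  · rw [eval_mon]
    have h2 : G'.support ⊆ G.support := by
      intro J hJ
      rw [mem_support_iff] at hJ ⊢
      intro h0
      apply hJ
      rw [← h, h0, map_zero]
    rw [← Finset.sum_subset h2 (f := fun J => E (G.coeff J) * mon (fun l => u l + (t : L) * w l) J)]
    · exact Finset.sum_congr rfl fun J _ => by rw [h]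
    · intro J _ hJ
      rw [h, notMem_support_iff.1 hJ, zero_mul]
  · unfold dF
    refine Finset.sum_congr rfl fun l _ => ?_
    rw [map_add, E.leibniz, Derivation.map_natCast]
    simp only [smul_eq_mul, mul_zero, add_zero]

end

/-- The kernel of a surjective linear map. -/
theorem ker_span {L M N : Type} [Field L] [AddCommGroup M] [Module L M] [FiniteDimensional L M]
    [AddCommGroup N] [Module L N] [FiniteDimensional L N] (Ψ : M →ₗ[L] N)
    (hs : Function.Surjective Ψ) {m : ℕ} (hfr : Module.finrank L M = Module.finrank L N + m)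
    {v : Fin m → M} (hv : LinearIndependent L v) (hk : ∀ i, Ψ (v i) = 0) {z : M} (hz : Ψ z = 0) :
    z ∈ Submodule.span L (Set.range v) := by
  have h1 := LinearMap.finrank_range_add_finrank_ker Ψ
  rw [LinearMap.range_eq_top.2 hs, finrank_top] at h1
  have h2 : Module.finrank L (LinearMap.ker Ψ) = m := by omega
  have h3 : Submodule.span L (Set.range v) ≤ LinearMap.ker Ψ := by
    rw [Submodule.span_le]
    rintro _ ⟨i, rfl⟩
    exact hk i
  have h4 := finrank_span_eq_card hv
  rw [Fintype.card_fin] at h4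
  have h5 := Submodule.eq_of_le_of_finrank_eq h3 (by rw [h4, h2])
  rw [h5]
  exact hz

section

variable {L : Type} [Field L] {n : ℕ}

theorem exists_AB {u w : Fin (n + 1) → L} (h : pl u w ≠ 0) : ∃ A B : Fin (n + 1) → L,
    ∑ l, A l * u l = 1 ∧ ∑ l, A l * w l = 0 ∧ ∑ l, B l * u l = 0 ∧ ∑ l, B l * w l = 1 := by
  obtain ⟨q, hq⟩ := Function.ne_iff.1 h
  have hq' : pl u w q ≠ 0 := hq
  have hs : ∀ (r : L) (z z' : Fin (n + 1) → L), ∑ l, (r • pm z q.1 q.2) l * z' l =
      r * (z q.1 * z' q.2 - z q.2 * z' q.1) := by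
    intro r z z'
    rw [← sum_pm, Finset.mul_sum]
    exact Finset.sum_congr rfl fun l _ => by rw [Pi.smul_apply, smul_eq_mul]; ring
  refine ⟨(-(pl u w q)⁻¹) • pm w q.1 q.2, (pl u w q)⁻¹ • pm u q.1 q.2, ?_, ?_, ?_, ?_⟩
  · rw [hs]
    have h1 : w q.1 * u q.2 - w q.2 * u q.1 = - pl u w q := by
      simp only [pl]; ring
    rw [h1]
    field_simp
  · rw [hs]
    ring
  · rw [hs]
    ring
  · rw [hs]
    have h1 : u q.1 * w q.2 - u q.2 * w q.1 = pl u w q := rfl
    rw [h1]
    field_simp

theorem lnp_mul (G H : MvPolynomial (Fin (n + 1)) L) (u w : Fin (n + 1) → L) :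
    lnp (G * H) u w = lnp G u w * lnp H u w := map_mul _ _ _

theorem lnp_add (G H : MvPolynomial (Fin (n + 1)) L) (u w : Fin (n + 1) → L) :
    lnp (G + H) u w = lnp G u w + lnp H u w := map_add _ _ _

theorem lnp_pow (G : MvPolynomial (Fin (n + 1)) L) (e : ℕ) (u w : Fin (n + 1) → L) :
    lnp (G ^ e) u w = lnp G u w ^ e := map_pow _ _ _

theorem lnp_smul (r : L) (G : MvPolynomial (Fin (n + 1)) L) (u w : Fin (n + 1) → L) :
    lnp (r • G) u w = Polynomial.C r * lnp G u w := by
  unfold lnp
  rw [map_smul, Polynomial.smul_eq_C_mul]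

theorem lnp_sum {ι : Type} (s : Finset ι) (G : ι → MvPolynomial (Fin (n + 1)) L)
    (u w : Fin (n + 1) → L) : lnp (∑ i ∈ s, G i) u w = ∑ i ∈ s, lnp (G i) u w := map_sum _ _ _

theorem lnp_lf (m u w : Fin (n + 1) → L) : lnp (lf m) u w =
    Polynomial.C (∑ l, m l * u l) + Polynomial.X * Polynomial.C (∑ l, m l * w l) := by
  rw [lf_apply, lnp_sum, map_sum, map_sum, Finset.mul_sum, ← Finset.sum_add_distrib]
  refine Finset.sum_congr rfl fun l _ => ?_
  rw [lnp_smul]
  unfold lnp
  rw [aeval_X, Polynomial.C_mul, Polynomial.C_mul]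
  ring

/-- The vanishing of the coefficients of the differential. -/
theorem dln_of_der [CharZero L] {F : MvPolynomial (Fin (n + 1)) L}
    {E : Derivation ℤ L L} {G' : MvPolynomial (Fin (n + 1)) L}
    (h : ∀ J, E (F.coeff J) = G'.coeff J) {u w : Fin (n + 1) → L} {j : ℕ}
    (hj : (lnp F u w).coeff j = 0) :
    (dln F u w (fun l => E (u l), fun l => E (w l))).coeff j = - (lnp G' u w).coeff j := by
  have h1 := congrArg (fun p => p.coeff j) (chain_ln h u w)
  simp only [Polynomial.coeff_add] at h1
  rw [dco_coeff, hj, map_zero] at h1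
  linear_combination -h1

/-- A generic sextic in four-dimensional space contains no lines. -/
theorem no_line [CharZero L] {F : MvPolynomial (Fin (4 + 1)) L}
    {D : (Fin (4 + 1) →₀ ℕ) → Derivation ℤ L L} (hF : F.IsHomogeneous 6) (hD : Dual F 6 D)
    {u w : Fin (4 + 1) → L} (hp : pl u w ≠ 0) : lnp F u w ≠ 0 := by
  intro h0
  obtain ⟨Ψ, hΨ⟩ : ∃ Ψ : (Fin (4 + 1) → L) × (Fin (4 + 1) → L) →ₗ[L] (Fin 7 → L),
      ∀ z j, Ψ z j = (dln F u w z).coeff j :=
    ⟨LinearMap.pi fun j : Fin 7 => (Polynomial.lcoeff L (j : ℕ)) ∘ₗ dln F u w, fun z j => rfl⟩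
  have hsurj : Function.Surjective Ψ := by
    intro r
    obtain ⟨A, B, hAu, hAw, hBu, hBw⟩ := exists_AB hp
    obtain ⟨H, hH⟩ : ∃ H : MvPolynomial (Fin (4 + 1)) L,
      H = ∑ j : Fin 7, r j • (lf A ^ (6 - (j : ℕ)) * lf B ^ (j : ℕ)) := ⟨_, rfl⟩
    have hHh : H.IsHomogeneous 6 := by
      rw [hH]
      refine IsHomogeneous.sum _ _ _ fun j _ => ?_
      rw [smul_eq_C_mul]
      have h1 := (isHomogeneous_C (Fin (4 + 1)) (r j)).mul
        (((lf_hom A).pow (6 - (j : ℕ))).mul ((lf_hom B).pow (j : ℕ)))
      have h2 : 0 + (1 * (6 - (j : ℕ)) + 1 * (j : ℕ)) = 6 := by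
        have := j.2
        omega
      rwa [h2] at h1
    have hln : lnp H u w = ∑ j : Fin 7, Polynomial.C (r j) * Polynomial.X ^ (j : ℕ) := by
      rw [hH, lnp_sum]
      refine Finset.sum_congr rfl fun j _ => ?_
      rw [lnp_smul, lnp_mul, lnp_pow, lnp_pow, lnp_lf, lnp_lf, hAu, hAw, hBu, hBw]
      simp
    refine ⟨-((fun l => DD D H (u l)), (fun l => DD D H (w l))), ?_⟩
    funext j
    rw [map_neg, Pi.neg_apply, hΨ, dln_of_der (fun J => Pool.Agent.Y735.DD_coeff hF hD hHh J)
      (by rw [h0, Polynomial.coeff_zero]), neg_neg, hln, Polynomial.finsetSum_coeff,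
      Finset.sum_eq_single j]
    · rw [Polynomial.coeff_C_mul, Polynomial.coeff_X_pow, if_pos rfl, mul_one]
    · intro i _ hi
      rw [Polynomial.coeff_C_mul, Polynomial.coeff_X_pow, if_neg, mul_zero]
      intro h
      exact hi (Fin.ext h.symm)
    · intro h; exact absurd (Finset.mem_univ _) h
  -- the kernel
  have hw0 : dln F u w (w, 0) = 0 := by
    rw [← lnp_derivative, h0, Polynomial.derivative_zero]
  have h0w : dln F u w (0, w) = 0 := by rw [dln_snd, hw0, mul_zero]
  have hu0 : dln F u w (u, 0) = 0 := by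
    have h1 : ((u, 0) : (Fin (4 + 1) → L) × (Fin (4 + 1) → L)) = (u, w) - (0, w) := by
      rw [Prod.mk_sub_mk, sub_zero, sub_self]
    rw [h1, map_sub, h0w, dln_self hF, h0, mul_zero, sub_zero]
  have h0u : dln F u w (0, u) = 0 := by rw [dln_snd, hu0, mul_zero]
  obtain ⟨v, hv⟩ : ∃ v : Fin 3 → (Fin (4 + 1) → L) × (Fin (4 + 1) → L),
    v = ![(u, 0), (0, u), (0, w)] := ⟨_, rfl⟩
  obtain ⟨q, hq0⟩ := Function.ne_iff.1 hp
  have hq' : u q.1 * w q.2 - u q.2 * w q.1 ≠ 0 := hq0
  have hpq : ∀ α β : L, α • u + β • w = 0 → α = 0 ∧ β = 0 := by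
    intro α β h
    have h1 : α * u q.1 + β * w q.1 = 0 := congrFun h q.1
    have h2 : α * u q.2 + β * w q.2 = 0 := congrFun h q.2
    constructor
    · apply (mul_eq_zero.1 (_ : α * (u q.1 * w q.2 - u q.2 * w q.1) = 0)).resolve_right hq'
      linear_combination w q.2 * h1 - w q.1 * h2
    · apply (mul_eq_zero.1 (_ : β * (u q.1 * w q.2 - u q.2 * w q.1) = 0)).resolve_right hq'
      linear_combination u q.1 * h2 - u q.2 * h1
  have hind : LinearIndependent L v := by
    rw [Fintype.linearIndependent_iff]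
    intro g hg
    rw [Fin.sum_univ_three, hv] at hg
    change g 0 • (u, (0 : Fin (4 + 1) → L)) + g 1 • ((0 : Fin (4 + 1) → L), u) +
      g 2 • ((0 : Fin (4 + 1) → L), w) = 0 at hg
    rw [Prod.smul_mk, Prod.smul_mk, Prod.smul_mk, Prod.mk_add_mk, Prod.mk_add_mk, smul_zero,
      smul_zero, smul_zero, add_zero, add_zero, zero_add, Prod.mk_eq_zero] at hg
    have h1 := (hpq (g 0) 0 (by rw [zero_smul, add_zero]; exact hg.1)).1
    have h2 := hpq (g 1) (g 2) hg.2
    intro i
    fin_cases i
    · exact h1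
    · exact h2.1
    · exact h2.2
  have hk : ∀ i, Ψ (v i) = 0 := by
    intro i
    funext j
    rw [hΨ, hv]
    fin_cases i
    · change (dln F u w (u, 0)).coeff j = 0
      rw [hu0, Polynomial.coeff_zero]
    · change (dln F u w (0, u)).coeff j = 0
      rw [h0u, Polynomial.coeff_zero]
    · change (dln F u w (0, w)).coeff j = 0
      rw [h0w, Polynomial.coeff_zero]
  have hz : Ψ (w, 0) = 0 := by
    funext j
    rw [hΨ, hw0, Polynomial.coeff_zero]
    rfl
  have h1 := ker_span Ψ hsurj (m := 3) (by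
    rw [Module.finrank_prod, Module.finrank_fin_fun, Module.finrank_fin_fun]) hind hk hz
  rw [Submodule.mem_span_range_iff_exists_fun] at h1
  obtain ⟨g, hg⟩ := h1
  rw [Fin.sum_univ_three, hv] at hg
  change g 0 • (u, (0 : Fin (4 + 1) → L)) + g 1 • ((0 : Fin (4 + 1) → L), u) +
    g 2 • ((0 : Fin (4 + 1) → L), w) = (w, 0) at hg
  rw [Prod.smul_mk, Prod.smul_mk, Prod.smul_mk, Prod.mk_add_mk, Prod.mk_add_mk, smul_zero,
    smul_zero, smul_zero, add_zero, add_zero, zero_add, Prod.mk.injEq] at hg
  apply hp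
  funext q
  simp only [pl, Pi.zero_apply]
  rw [← hg.1]
  simp only [Pi.smul_apply, smul_eq_mul]
  ring

end

end Pool.Agent.H435.ST
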