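import Pool.Agent.H435.ST.Fou

/-!
The degree of a curve in a generic sextic threefold is bounded, or there is a plane of small height.
-/

set_option autoImplicit false

open MvPolynomial FF Pool.Agent.W603.LV Pool.Agent.W603.PV Pool.Agent.TH145.GH
open Pool.Agent.Y735 (lf lf_apply lf_hom eval_lf pm lf_pm sum_pm eval_pm pl po po_le exists_po fht
  fht_nonneg sum_two po_finite DD DD_apply vec vec_apply vec_scale wv dF_vec)
open Pool.Agent.W602.GT
open Pool.Agent.Y741 (Comm pht_nonneg)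

namespace Pool.Agent.H435.ST

open Pool.Agent.H435.QL (GeM)
open Pool.Agent.H435.VG (fun_eval lin_hom ge_po le_po po_prod fht_prod)

section

variable {k L : Type} [Field k] [Field L] [Algebra k L]

theorem Pln.scale {x : Fin (4 + 1) → L} {Y : T3 → L} {c : L} (hc : c ≠ 0)
    (h : Pln (fun l => c * x l) Y) : Pln x Y := by
  refine ⟨h.ne, fun a b e f => ?_⟩
  have h1 := h.rel a b e f
  have h2 : c * (x a * Y (b, e, f) - x b * Y (a, e, f) + x e * Y (a, b, f) -
      x f * Y (a, b, e)) = 0 := by linear_combination h1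
  exact (mul_eq_zero.1 h2).resolve_left hc

variable [IsAlgClosed k] [CharZero k] [IsFF k L]

/-- The plane that is given by the line. -/
theorem pln_of_line {x y : Fin (4 + 1) → L} (h : pl x y ≠ 0) :
    ∃ Y, Pln x Y ∧ fht k Y ≤ fht k (pl x y) := by
  classical
  obtain ⟨q, hq⟩ := Function.ne_iff.1 h
  have hq' : pl x y q ≠ 0 := hq
  have hq12 : q.1 ≠ q.2 := by
    intro h0
    apply hq'
    simp only [pl, h0]
    ring
  obtain ⟨i, hi1, hi2⟩ : ∃ i : Fin (4 + 1), i ≠ q.1 ∧ i ≠ q.2 := by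
    by_contra hcon
    push Not at hcon
    have h1 : (Finset.univ : Finset (Fin (4 + 1))) ⊆ {q.1, q.2} := by
      intro i _
      by_cases h2 : i = q.1
      · rw [h2]; exact Finset.mem_insert_self _ _
      · rw [hcon i h2]; exact Finset.mem_insert_of_mem (Finset.mem_singleton_self _)
    have h2 := Finset.card_le_card h1
    rw [Finset.card_univ, Fintype.card_fin] at h2
    have h3 := Finset.card_insert_le q.1 {q.2}
    rw [Finset.card_singleton] at h3
    omega
  obtain ⟨Y, hY⟩ : ∃ Y : T3 → L, ∀ a b c, Y (a, b, c) =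
      pl x y (a, b) * (Pi.single i 1 : Fin (4 + 1) → L) c -
      pl x y (a, c) * (Pi.single i 1 : Fin (4 + 1) → L) b +
      pl x y (b, c) * (Pi.single i 1 : Fin (4 + 1) → L) a :=
    ⟨fun q => pl x y (q.1, q.2.1) * (Pi.single i 1 : Fin (4 + 1) → L) q.2.2 -
      pl x y (q.1, q.2.2) * (Pi.single i 1 : Fin (4 + 1) → L) q.2.1 +
      pl x y (q.2.1, q.2.2) * (Pi.single i 1 : Fin (4 + 1) → L) q.1, fun _ _ _ => rfl⟩
  have hY0 : Y ≠ 0 := by
    intro h0
    apply hq'
    have h1 := hY q.1 q.2 i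
    rw [h0, Pi.single_eq_same, Pi.single_eq_of_ne hi1.symm, Pi.single_eq_of_ne hi2.symm,
      mul_zero, mul_zero, mul_one, sub_zero, add_zero] at h1
    exact h1.symm
  have hpl0 : pl x y ≠ 0 := h
  refine ⟨Y, ⟨hY0, fun a b c e => ?_⟩, ?_⟩
  · rw [hY, hY, hY, hY]
    simp only [pl]
    ring
  · have hle : ∀ P : Place k L, po P (pl x y) ≤ po P Y := by
      intro P
      refine le_po P hY0 fun q => ?_
      obtain ⟨a, b, c⟩ := q
      rw [hY]
      have hs : ∀ j, Ge P 0 ((Pi.single i 1 : Fin (4 + 1) → L) j) := by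
        intro j
        by_cases hj : j = i
        · rw [hj, Pi.single_eq_same]
          exact Ge.one
        · rw [Pi.single_eq_of_ne hj]
          exact Ge.zero
      have h1 : ∀ q j, Ge P (po P (pl x y)) (pl x y q * (Pi.single i 1 : Fin (4 + 1) → L) j) := by
        intro q j
        have h2 := (ge_po P (pl x y) q).mul (hs j)
        rwa [add_zero] at h2
      exact ((h1 _ _).sub (h1 _ _)).add (h1 _ _)
    unfold fht
    have h2 := finsum_le_finsum' (f := fun P : Place k L => po P (pl x y))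
      (g := fun P : Place k L => po P Y) (po_finite hpl0) (po_finite hY0) hle
    linarith

/-- The degree of a curve in a generic sextic threefold, or a plane of small height, at a
normalised point. -/
theorem part1 {k0 : Type} [Field k0] [Algebra k0 k]
    {G : MvPolynomial (Fin (4 + 1)) k} (hG : G.IsHomogeneous 6)
    (hgen : AlgebraicIndependent k0 fun I : {I : Fin (4 + 1) →₀ ℕ // I.degree = 6} =>
      G.coeff I.1) {x : Fin (4 + 1) → L} {j0 l0 : Fin (4 + 1)} (hj0 : x j0 = 1)
    (hl0 : Transcendental k (x l0)) (hx : aeval x G = 0) :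
    pht k x ≤ 2 * canDeg k L ∨ ∃ Y, Pln x Y ∧ fht k Y ≤ canDeg k L := by
  classical
  have hLz : CharZero L := charZero_of_injective_algebraMap (algebraMap k L).injective
  obtain ⟨F, hFd⟩ : ∃ F, F = map (algebraMap k L) G := ⟨_, rfl⟩
  have hF : F.IsHomogeneous 6 := by rw [hFd]; exact hG.map _
  have hxF : eval x F = 0 := by
    rw [hFd, eval_map]
    exact hx
  have hFk : ∀ u, ∃ c : k, F.coeff u = algebraMap k L c := fun u => by
    rw [hFd, coeff_map]
    exact ⟨_, rfl⟩
  obtain ⟨Dd, hDd, hS, hcm, hDt⟩ := exists_DU (L := L) hgen (IsFF.basis (k := k) hl0)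
  rw [← hFd] at hDd
  obtain ⟨δ, hδ⟩ := exists_der (k := k) (K := L)
  have hδl : δ (x l0) ≠ 0 := der_ne_zero hδ hl0
  have hcv : Cv k F 6 (Dd ()) δ x j0 := by
    refine ⟨by omega, hF, dual_of hDd, fun I => hS () I, hFk, hδ, hxF,
      by rw [hj0]; exact one_ne_zero, fun a b hab => ?_⟩
    have h1 := hab j0
    rw [hj0, δ.map_one_eq_zero, mul_zero, add_zero, mul_one] at h1
    have h2 := hab l0
    rw [h1, zero_mul, zero_add] at h2
    exact (mul_eq_zero.1 h2).resolve_right hδl
  have hx0 : x ≠ 0 := by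
    rintro rfl
    exact hcv.ne rfl
  have hp0 : 0 ≤ pht k x := pht_nonneg hx0
  by_cases hA : ∃ pq pq', Ox (Dd ()) 6 δ x j0 (wv F (Dd ()) x pq) (wv F (Dd ()) x pq') ≠ 0
  · obtain ⟨pq, pq', hA⟩ := hA
    left
    have h1 := hcv.degA hA
    push_cast at h1
    linarith
  push Not at hA
  by_cases hB : ∃ pq w, dF F x w = 0 ∧ Ox (Dd ()) 6 δ x j0 (wv F (Dd ()) x pq) w ≠ 0
  · obtain ⟨pq, w, hw, hB⟩ := hB
    rcases hcv.caseB hA hw hB with h1 | ⟨y, hy, hyh⟩
    · exact Or.inl h1
    · right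
      obtain ⟨Y, hY, hYh⟩ := pln_of_line (k := k) hy
      exact ⟨Y, hY, hYh.trans hyh⟩
  push Not at hB
  by_cases hC : ∃ P : MvPolynomial (Fin (4 + 1)) L, P.IsHomogeneous (6 - 1) ∧
      (∀ Q : Place k L, GeM Q 0 P) ∧ Xi (Dd ()) δ x j0 P ≠ 0
  · obtain ⟨P, hP, hP0, hne⟩ := hC
    right
    exact hcv.caseP hj0 hP hP0 hne
  push Not at hC
  left
  have h1 := hcv.caseT hDd hcm hj0 (l0 := l0) (fun I => hDt () I ()) hδl hB hC
  linarith

/-- The degree of a curve in a generic sextic threefold, or a plane of small height. -/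
theorem part2 {k0 : Type} [Field k0] [Algebra k0 k]
    {G : MvPolynomial (Fin (4 + 1)) k} (hG : G.IsHomogeneous 6)
    (hgen : AlgebraicIndependent k0 fun I : {I : Fin (4 + 1) →₀ ℕ // I.degree = 6} =>
      G.coeff I.1) {x : Fin (4 + 1) → L} {a b : Fin (4 + 1)} (hb : x b ≠ 0)
    (hab : Transcendental k (x a / x b)) (hx : aeval x G = 0) :
    pht k x ≤ 2 * canDeg k L ∨ ∃ Y, Pln x Y ∧ fht k Y ≤ canDeg k L := by
  have h1 := pht_scale (k := k) (f := x) ⟨b, hb⟩ (inv_ne_zero hb)
  rw [← h1]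
  rcases part1 (L := L) hG hgen (x := fun j => (x b)⁻¹ * x j) (j0 := b) (l0 := a)
    (inv_mul_cancel₀ hb) (by
      rw [mul_comm, ← div_eq_mul_inv]
      exact hab) (by
      have h2 := eval_smul_hom (hG.map (algebraMap k L)) x (x b)⁻¹
      rw [eval_map, eval_map] at h2
      have h3 : (fun j => (x b)⁻¹ * x j) = (x b)⁻¹ • x := rfl
      rw [h3]
      change eval₂ (algebraMap k L) ((x b)⁻¹ • x) G = 0
      rw [h2]
      have h4 : eval₂ (algebraMap k L) x G = 0 := hx
      rw [h4, mul_zero]) with h2 | ⟨Y, hY, hYh⟩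
  · exact Or.inl h2
  · exact Or.inr ⟨Y, hY.scale (inv_ne_zero hb), hYh⟩

end

end Pool.Agent.H435.ST
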