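import Pool.Agent.H435.ST.Thr

/-!
The degree of a curve in a generic sextic threefold, or a plane of small height.
-/

set_option autoImplicit false

open MvPolynomial FF Pool.Agent.W603.LV Pool.Agent.W603.PV Pool.Agent.TH145.GH
open Pool.Agent.Y735 (lf lf_apply lf_hom eval_lf pm lf_pm sum_pm eval_pm pl po po_le exists_po fht
  fht_nonneg sum_two po_finite DD DD_apply vec vec_apply vec_scale wv dF_vec alt_tri ge_DD ge_lf
  ge_coeff_mul zp exists_xi)
open Pool.Agent.W602.GT
open Pool.Agent.Y741 (Comm Vl Wsp ww vA vA_sum vq vq_apply ql ql_apply gf OnL on_lineK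
  line_local_d pht_nonneg)

namespace Pool.Agent.H435.ST

open Pool.Agent.H435.QL (GeM)
open Pool.Agent.H435.VG (fun_eval lin_hom ge_po le_po po_prod fht_prod)

section

variable {k L : Type} [Field k] [Field L] [Algebra k L] [IsAlgClosed k] [CharZero k] [IsFF k L]
  {F : MvPolynomial (Fin (4 + 1)) L}
  {Dd : Unit → (Fin (4 + 1) →₀ ℕ) → Derivation ℤ L L} {δ : Derivation k L L}
  {x : Fin (4 + 1) → L} {i0 l0 : Fin (4 + 1)}

omit [IsAlgClosed k] [CharZero k] [IsFF k L] in
theorem vA_unit (G : Unit → MvPolynomial (Fin (4 + 1)) L) :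
    vA Dd x G = vec (Dd ()) x (G ()) := by
  rw [vA_sum]
  exact Fintype.sum_unique _

/-- The degree in the case of a line. -/
theorem Cv.caseT (h : Cv k F 6 (Dd ()) δ x i0)
    (hDd : Pool.Agent.TH145.GC.Dual (fun _ : Unit => F) (fun _ => 6) Dd) (hcm : Comm Dd)
    (hx1 : x i0 = 1) (hDl : ∀ I, Dd () I (x l0) = 0) (hδl : δ (x l0) ≠ 0)
    (hU : ∀ pq w, dF F x w = 0 → Ox (Dd ()) 6 δ x i0 (wv F (Dd ()) x pq) w = 0)
    (hX : ∀ P : MvPolynomial (Fin (4 + 1)) L, P.IsHomogeneous (6 - 1) →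
      (∀ Q : Place k L, GeM Q 0 P) → Xi (Dd ()) δ x i0 P = 0) :
    pht k x ≤ canDeg k L := by
  classical
  have hLz : CharZero L := charZero_of_injective_algebraMap (algebraMap k L).injective
  have hx0 : x ≠ 0 := by
    rintro rfl
    exact h.ne rfl
  obtain ⟨y, b1, J1, J2, hJ1, hJ2, hyi, hyb, hg0, hvec⟩ := h.caseL hx1 hU hX
  have hpl : pl x y (i0, b1) ≠ 0 := by
    simp only [pl]
    rw [hx1, hyb, hyi, mul_zero, sub_zero, mul_one]
    exact one_ne_zero
  have hpl0 : pl x y ≠ 0 := fun h0 => hpl (by rw [h0]; rfl)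
  -- vertical vectors with two coordinates zero
  have hDD0 : ∀ G, DD (Dd ()) G (x l0) = 0 := fun G => by
    rw [DD_apply]
    exact Finset.sum_eq_zero fun J _ => by rw [hDl, mul_zero]
  have hvanM : ∀ J : Fin (4 + 1) →₀ ℕ, J.degree = 6 - 1 → ∀ m : Fin (4 + 1) → L,
      ∑ l, m l * x l = 0 → ∑ l, m l * y l = 0 → vec (Dd ()) x (lf m * monomial J 1) = 0 := by
    intro J hJ m hmx hmy
    obtain ⟨A, B, hAB⟩ := hvec J hJ m hmx
    rw [hmy, zero_smul, zero_add] at hAB
    have h1 := congrFun hAB i0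
    rw [vec_apply, hx1, (DD (Dd ()) _).map_one_eq_zero, Pi.add_apply, Pi.smul_apply,
      Pi.smul_apply, smul_eq_mul, smul_eq_mul, hx1, δ.map_one_eq_zero, mul_zero, add_zero,
      mul_one] at h1
    have h2 := congrFun hAB l0
    rw [vec_apply, hDD0, ← h1, zero_smul, zero_add, Pi.smul_apply, smul_eq_mul] at h2
    have h3 : B = 0 := (mul_eq_zero.1 h2.symm).resolve_right hδl
    rw [hAB, ← h1, h3, zero_smul, zero_smul, add_zero]
  have hvan : ∀ Q : MvPolynomial (Fin (4 + 1)) L, Q.IsHomogeneous (6 - 1) →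
      ∀ m : Fin (4 + 1) → L, ∑ l, m l * x l = 0 → ∑ l, m l * y l = 0 →
      vec (Dd ()) x (Q * lf m) = 0 := by
    intro Q hQ m hmx hmy
    have h1 := lin_hom (T := (vec (Dd ()) x) ∘ₗ LinearMap.mulLeft L (lf m)) (T' := 0)
      (e := 6 - 1) (fun J hJ => by
        rw [LinearMap.comp_apply, LinearMap.mulLeft_apply, LinearMap.zero_apply]
        exact hvanM J hJ m hmx hmy) hQ
    rw [LinearMap.comp_apply, LinearMap.mulLeft_apply, LinearMap.zero_apply] at h1
    rw [mul_comm]
    exact h1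
  have hVW : Vl (fun _ : Unit => F) (fun _ => 6) Dd x y = Wsp (fun _ : Unit => F) Dd x := by
    unfold Vl
    refine sup_eq_left.2 ?_
    rw [Submodule.span_le]
    rintro v ⟨Q, m, hQ, hmx, hmy, rfl⟩
    rw [vq_apply, vA_unit, ql_apply, hvan _ (hQ ()) m hmx hmy]
    exact zero_mem _
  -- the vectors of the linear group are vertical
  obtain ⟨U, hUd⟩ : ∃ U : Submodule L (Fin (4 + 1) → L),
    U = Submodule.span L (Set.range ![x, fun l => δ (x l)]) := ⟨_, rfl⟩
  have hxU : x ∈ U := by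
    rw [hUd]
    exact Submodule.subset_span ⟨0, rfl⟩
  have hδU : (fun l => δ (x l)) ∈ U := by
    rw [hUd]
    exact Submodule.subset_span ⟨1, rfl⟩
  have hwvU : ∀ pq, wv F (Dd ()) x pq ∈ U := by
    intro pq
    obtain ⟨α, β, hαβ⟩ := h.nondeg (h.dF_wv pq) fun w hw => hU pq w hw
    rw [hαβ]
    exact add_mem (Submodule.smul_mem _ _ hxU) (Submodule.smul_mem _ _ hδU)
  have hFU : vec (Dd ()) x F ∈ U := by
    have h1 : ∑ p, wv F (Dd ()) x (p, p) = x + (6 : L) • vec (Dd ()) x F := by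
      unfold wv
      rw [Finset.sum_add_distrib, ← map_sum]
      have h2 : ∑ p, x p • (Pi.single p 1 : Fin (4 + 1) → L) = x := by
        funext l
        rw [Finset.sum_apply, Finset.sum_eq_single l]
        · rw [Pi.smul_apply, smul_eq_mul, Pi.single_eq_same, mul_one]
        · intro p _ hp
          rw [Pi.smul_apply, Pi.single_eq_of_ne hp.symm, smul_zero]
        · intro h; exact absurd (Finset.mem_univ _) h
      have h3 : ∑ p, X p * pderiv p F = (6 : L) • F := by
        rw [h.hom.sum_X_mul_pderiv, nsmul_eq_mul, smul_eq_C_mul]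
        congr 1
      rw [h2, h3, map_smul]
    have h2 : vec (Dd ()) x F = (6 : L)⁻¹ • (∑ p, wv F (Dd ()) x (p, p) - x) := by
      rw [h1, add_sub_cancel_left, smul_smul, inv_mul_cancel₀ (by norm_num), one_smul]
    rw [h2]
    exact Submodule.smul_mem _ _ (sub_mem (sum_mem fun p _ => hwvU (p, p)) hxU)
  have hWU : Wsp (fun _ : Unit => F) Dd x ≤ U := by
    unfold Wsp
    refine sup_le ?_ ?_
    · rw [Submodule.span_le]
      rintro _ rfl
      exact hxU
    · rw [Submodule.span_le]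
      rintro _ ⟨w, rfl⟩
      rcases w with pq | a
      · have h1 : ww (fun _ : Unit => F) Dd x (Sum.inl pq) = wv F (Dd ()) x pq := by
          simp only [ww, gf]
          rw [vA_unit]
          rfl
        rw [h1]
        exact hwvU pq
      · have h1 : ww (fun _ : Unit => F) Dd x (Sum.inr a) = vec (Dd ()) x F := by
          simp only [ww, gf]
          rw [vA_unit, Pi.single_eq_same]
        rw [h1]
        exact hFU
  have hfr : Module.finrank L (Wsp (fun _ : Unit => F) Dd x) ≤ 2 := by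
    refine (Submodule.finrank_mono hWU).trans ?_
    rw [hUd]
    have h1 := finrank_range_le_card (R := L) ![x, fun l => δ (x l)]
    rw [Fintype.card_fin] at h1
    exact h1
  -- the line
  have hline := on_lineK (F := fun _ : Unit => F) (dg := fun _ => 6) (D := Dd)
    (fun _ => by norm_num) (fun _ => h.hom) hDd hcm (x := x) (fun _ => h.zero) (y := y) hpl
    (by rw [hVW, Fintype.card_unit]; omega)
    (by
      rw [hVW, Fintype.card_unit, Finset.univ_unique, Finset.sum_singleton]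
      omega)
  -- the family of the products
  obtain ⟨g, hg⟩ : ∃ g, g = Ox (Dd ()) 6 δ x i0 (Sv (Dd ()) x i0 (monomial J1 1) b1)
    (Sv (Dd ()) x i0 (monomial J2 1) b1) := ⟨_, rfl⟩
  rw [← hg] at hg0
  have hgU : (fun _ : Unit => g) ≠ 0 := fun h0 => hg0 (congrFun h0 ())
  have hgp : (fun q : (Fin (4 + 1) × Fin (4 + 1)) × Unit => pl x y q.1 * (fun _ : Unit => g) q.2)
      ≠ 0 := by
    intro h0
    exact mul_ne_zero hpl hg0 (congrFun h0 ((i0, b1), ()))
  have hΘ0 : (fun q : (Fin (4 + 1) × Fin (4 + 1)) × ((Fin (4 + 1) × Fin (4 + 1)) × Unit) =>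
      pl x y q.1 * (fun q : (Fin (4 + 1) × Fin (4 + 1)) × Unit =>
        pl x y q.1 * (fun _ : Unit => g) q.2) q.2) ≠ 0 := by
    intro h0
    exact mul_ne_zero hpl (mul_ne_zero hpl hg0) (congrFun h0 ((i0, b1), ((i0, b1), ())))
  have hxs : ∀ v, Ox (Dd ()) 6 δ x i0 x v = 0 := fun v => by rw [Ox_swap, Ox_x, neg_zero]
  have hds : ∀ v, Ox (Dd ()) 6 δ x i0 (fun l => δ (x l)) v = 0 := fun v => by
    rw [Ox_swap, Ox_del, neg_zero]
  have h1 := h.deg_fam hΘ0 (r := 2) fun P q => by
    obtain ⟨⟨a, b⟩, ⟨a', b'⟩, u⟩ := q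
    have h2 := h.ge_Ox P (h.sec_lf P a b (isHomogeneous_monomial (1 : L) hJ1) (GeM_mon P J1))
      (h.sec_lf P a' b' (isHomogeneous_monomial (1 : L) hJ2) (GeM_mon P J2))
    obtain ⟨A, B, hAB⟩ := hvec J1 hJ1 (pm x a b) (by rw [← eval_lf]; exact eval_pm x a b)
    obtain ⟨A', B', hAB'⟩ := hvec J2 hJ2 (pm x a' b') (by rw [← eval_lf]; exact eval_pm x a' b')
    rw [hAB, hAB', sum_pm, sum_pm] at h2
    simp only [map_add, map_smul, LinearMap.add_apply, LinearMap.smul_apply, smul_eq_mul] at h2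
    rw [hxs, hds, Ox_x, Ox_del, hxs, hxs, hds, hds, ← hg] at h2
    have h3 : pl x y (a, b) * (pl x y (a', b') * g) =
        (x a * y b - x b * y a) * ((x a' * y b' - x b' * y a') * g) := rfl
    have key : ∀ {c c' : ℤ} {z w : L}, Ge P c z → c' ≤ c → z = w → Ge P c' w := by
      intro c c' z w hz hc hzw
      rw [← hzw]
      exact hz.mono hc
    change Ge P _ (pl x y (a, b) * (pl x y (a', b') * g))
    exact key h2 (by linarith) (by rw [h3]; ring)
  rw [fht_prod hpl0 hgp, fht_prod hpl0 hgU] at h1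
  have h2 : 0 ≤ fht k (fun _ : Unit => g) := fht_nonneg hgU
  push_cast at h1
  rcases hline with h3 | ⟨c, hc1, a, b, hab⟩
  · exfalso
    have h4 : lnp F x y = 0 := by
      apply Polynomial.funext
      intro t
      rw [lnp_eval, Polynomial.eval_zero]
      have h5 := h3 () (Finset.mem_univ _) 1 t
      have h6 : (fun l => x l + t * y l) = (1 : L) • x + t • y := by
        funext l
        simp
      rw [h6]
      exact h5
    exact no_line h.hom h.dual hpl0 h4
  · obtain ⟨ξ, hξ⟩ := exists_xi (k := k) hpl hab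
    have hfin : {P : Place k L | (fun _ : Place k L => (0 : ℤ)) P ≠ 0}.Finite := by simp
    have h4 := sum_two (k := k) hx0 hpl0 hfin
      (fun P => line_local_d (k := k) (d := 6) (by norm_num) h.hom hc1 hpl hξ P (g := 0)
        (fun u => by
          obtain ⟨c, hc⟩ := h.cst u
          rw [hc, neg_zero]
          exact Ge.const _))
    rw [finsum_zero] at h4
    push_cast at h4
    linarith

end

end Pool.Agent.H435.ST
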