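import Pool.Graph.R_seed8.Y741.LPhi
import Pool.Graph.R_seed8.Y741.MCurve
import Pool.Agent.H435.QL.Bin

/-!
The volume of two vectors along a curve in a threefold, and its orders at the places.
-/

set_option autoImplicit false

open MvPolynomial FF Pool.Agent.W603.LV Pool.Agent.W603.PV Pool.Agent.TH145.GH
open Pool.Agent.Y735 (lf pl po po_le exists_po fht fht_nonneg sum_two po_finite DD DD_apply vec
  vec_apply vec_scale wv dF_vec alt_tri ge_DD)
open Pool.Agent.W602.GT Pool.Agent.TH145.GF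

namespace Pool.Agent.H435.ST

open Pool.Agent.H435.QL (GeM)
open Pool.Agent.Y741 (div_one)

section alg

variable {L : Type} [Field L]

theorem det_alt {n : ℕ} (M : Fin n → Fin n → L) :
    (Matrix.detRowAlternating : (Fin n → L) [⋀^Fin n]→ₗ[L] L) M = (Matrix.of M).det := rfl

/-- The volume of five vectors. -/
noncomputable def d5 (a b c e f : Fin (4 + 1) → L) : L :=
  (Matrix.detRowAlternating : (Fin (4 + 1) → L) [⋀^Fin (4 + 1)]→ₗ[L] L) ![a, b, c, e, f]

theorem d5_det (a b c e f : Fin (4 + 1) → L) :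
    d5 a b c e f = (Matrix.of ![a, b, c, e, f]).det := by
  unfold d5
  exact det_alt _

theorem d5_last (a b c e f : Fin (4 + 1) → L) :
    d5 a b c e f = (Matrix.detRowAlternating : (Fin (4 + 1) → L) [⋀^Fin (4 + 1)]→ₗ[L] L)
      (Function.update ![a, b, c, e, 0] 4 f) := by
  unfold d5
  congr 1
  funext i
  fin_cases i <;> rfl

theorem d5_fourth (a b c e f : Fin (4 + 1) → L) :
    d5 a b c e f = (Matrix.detRowAlternating : (Fin (4 + 1) → L) [⋀^Fin (4 + 1)]→ₗ[L] L)
      (Function.update ![a, b, c, 0, f] 3 e) := by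
  unfold d5
  congr 1
  funext i
  fin_cases i <;> rfl

theorem d5_first (a b c e f : Fin (4 + 1) → L) :
    d5 a b c e f = (Matrix.detRowAlternating : (Fin (4 + 1) → L) [⋀^Fin (4 + 1)]→ₗ[L] L)
      (Function.update ![0, b, c, e, f] 0 a) := by
  unfold d5
  congr 1
  funext i
  fin_cases i <;> rfl

/-- The volume as a bilinear form in the last two vectors. -/
noncomputable def Om (a b c : Fin (4 + 1) → L) :
    (Fin (4 + 1) → L) →ₗ[L] (Fin (4 + 1) → L) →ₗ[L] L :=
  LinearMap.mk₂ L (fun e f => d5 a b c e f)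
    (fun e e' f => by rw [d5_fourth, d5_fourth, d5_fourth, AlternatingMap.map_update_add])
    (fun r e f => by rw [d5_fourth, d5_fourth, AlternatingMap.map_update_smul])
    (fun e f f' => by rw [d5_last, d5_last, d5_last, AlternatingMap.map_update_add])
    (fun r e f => by rw [d5_last, d5_last, AlternatingMap.map_update_smul])

theorem Om_apply (a b c e f : Fin (4 + 1) → L) : Om a b c e f = d5 a b c e f := rfl

theorem Om_self (a b c e : Fin (4 + 1) → L) : Om a b c e e = 0 := by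
  rw [Om_apply]
  unfold d5
  exact AlternatingMap.map_eq_zero_of_eq _ _ (i := 3) (j := 4) rfl (by decide)

theorem Om_swap (a b c e f : Fin (4 + 1) → L) : Om a b c e f = -Om a b c f e := by
  have h1 := Om_self a b c (e + f)
  simp only [map_add, LinearMap.add_apply, Om_self] at h1
  linear_combination h1

theorem Om_b (a b c e : Fin (4 + 1) → L) : Om a b c e b = 0 := by
  rw [Om_apply]
  unfold d5
  exact AlternatingMap.map_eq_zero_of_eq _ _ (i := 1) (j := 4) rfl (by decide)

theorem Om_c (a b c e : Fin (4 + 1) → L) : Om a b c e c = 0 := by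
  rw [Om_apply]
  unfold d5
  exact AlternatingMap.map_eq_zero_of_eq _ _ (i := 2) (j := 4) rfl (by decide)

theorem d5_sub_first (a a' b c e f : Fin (4 + 1) → L) :
    d5 (a - a') b c e f = d5 a b c e f - d5 a' b c e f := by
  rw [d5_first, d5_first a, d5_first a', sub_eq_add_neg, AlternatingMap.map_update_add,
    ← neg_one_smul L a', AlternatingMap.map_update_smul, smul_eq_mul]
  ring

theorem d5_smul_first (r : L) (a b c e f : Fin (4 + 1) → L) :
    d5 (r • a) b c e f = r * d5 a b c e f := by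
  rw [d5_first, d5_first a, AlternatingMap.map_update_smul, smul_eq_mul]

/-- Five vectors in a hyperplane. -/
theorem d5_zero {y a b c e f : Fin (4 + 1) → L} (hy : y ≠ 0) (ha : ∑ j, y j * a j = 0)
    (hb : ∑ j, y j * b j = 0) (hc : ∑ j, y j * c j = 0) (he : ∑ j, y j * e j = 0)
    (hf : ∑ j, y j * f j = 0) : d5 a b c e f = 0 := by
  rw [d5_det]
  refine Pool.Agent.TH145.GC.det_zero_of_dot ![a, b, c, e, f] y hy fun i => ?_
  fin_cases i
  · exact ha
  · exact hb
  · exact hc
  · exact he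
  · exact hf

end alg

section loc

variable {k L : Type} [Field k] [Field L] [Algebra k L]

theorem ge_d5 (P : Place k L) {a b c e f : Fin (4 + 1) → L} {r s : ℤ} (ha : ∀ l, Ge P 0 (a l))
    (hb : ∀ l, Ge P 0 (b l)) (hc : ∀ l, Ge P 0 (c l)) (he : ∀ l, Ge P r (e l))
    (hf : ∀ l, Ge P s (f l)) : Ge P (r + s) (d5 a b c e f) := by
  rw [d5_det]
  refine ge_det P _ _ (fun i _ => ![0, 0, 0, r, s] i) (fun i j => ?_) fun σ => ?_
  · fin_cases i
    · exact ha j
    · exact hb j
    · exact hc j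
    · exact he j
    · exact hf j
  · have h1 : ∑ i, (![0, 0, 0, r, s] : Fin (4 + 1) → ℤ) (σ i) =
        ∑ i, (![0, 0, 0, r, s] : Fin (4 + 1) → ℤ) i :=
      Equiv.sum_comp σ (![0, 0, 0, r, s] : Fin (4 + 1) → ℤ)
    rw [h1]
    have h2 : ∑ i, (![0, 0, 0, r, s] : Fin (4 + 1) → ℤ) i = 0 + 0 + 0 + r + s := by
      rw [Fin.sum_univ_five]
      rfl
    rw [h2]
    omega

variable [IsAlgClosed k] [CharZero k] [IsFF k L]

/-- The vector fields modulo the vertical derivation at a place. -/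
theorem exists_pres {n : ℕ} (P : Place k L) {F : MvPolynomial (Fin (n + 1)) L} {d : ℕ}
    {D : (Fin (n + 1) →₀ ℕ) → Derivation ℤ L L} (hD : Dual F d D) (hS : ∀ I, Sem k (D I))
    (hFk : ∀ u, ∃ c : k, F.coeff u = algebraMap k L c) {δ : Derivation k L L} (hδ : δ ≠ 0) :
    ∃ D' : (Fin (n + 1) →₀ ℕ) → Derivation ℤ L L, Dual F d D' ∧
      (∀ f, Ge P 0 f → ∀ I : Fin (n + 1) →₀ ℕ, I.degree = d → Ge P (-0) (D' I f)) ∧
      ∀ G : MvPolynomial (Fin (n + 1)) L, ∃ m : L, ∀ x : Fin (n + 1) → L,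
        vec D x G = vec D' x G + m • fun l => δ (x l) := by
  classical
  have hFF : IsFF k L := inferInstance
  have htr : Algebra.trdeg k L = (1 : ℕ) := by rw [hFF.trdeg, Nat.cast_one]
  have hπ := ord_unif P
  have hδπ := der_pi_ne_zero hδ P hπ
  have hπt : Transcendental k (unif P) := P.transcendental_of_ord_ne (by omega)
  choose ξ hξ using fun I => exists_lift one_pos htr (div_one P) (hS I)
  have hξδ : ∀ I f, ξ I f = ξ I (unif P) / δ (unif P) * δ f := by
    intro I f
    obtain ⟨c, hc⟩ := ratio hπt f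
    rw [hc (ξ I), hc δ]
    field_simp
  obtain ⟨D', hD'⟩ : ∃ D' : (Fin (n + 1) →₀ ℕ) → Derivation ℤ L L, ∀ I f,
    D' I f = D I f - ξ I f := ⟨fun I => D I - (ξ I).restrictScalars ℤ, fun I f => by simp⟩
  refine ⟨D', fun I J hI hJ => ?_, fun f hf I hI => ?_, fun G => ?_⟩
  · obtain ⟨c, hc⟩ := hFk J
    rw [hD', hc, (ξ I).map_algebraMap, sub_zero, ← hc]
    exact hD I J hI hJ
  · rw [hD', neg_zero]
    rcases eq_or_ne f 0 with rfl | hf0
    · rw [map_zero, map_zero, sub_zero]
      exact Ge.zero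
    · exact (hξ I f hf0).mono (hf.resolve_left hf0)
  · refine ⟨∑ J ∈ G.support, G.coeff J * (ξ J (unif P) / δ (unif P)), fun x => ?_⟩
    funext l
    rw [Pi.add_apply, Pi.smul_apply, smul_eq_mul, vec_apply, vec_apply, DD_apply, DD_apply,
      Finset.sum_mul, ← Finset.sum_add_distrib]
    refine Finset.sum_congr rfl fun J _ => ?_
    rw [hD', hξδ]
    ring

/-- The order of the volume at a place. -/
theorem d5_local (P : Place k L) {F : MvPolynomial (Fin (4 + 1)) L} {d : ℕ}
    (hF : F.IsHomogeneous d)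
    {D : (Fin (4 + 1) →₀ ℕ) → Derivation ℤ L L} (hD : Dual F d D) (hS : ∀ I, Sem k (D I))
    (hFk : ∀ u, ∃ c : k, F.coeff u = algebraMap k L c) {δ : Derivation k L L} (hδ : δ ≠ 0)
    {x : Fin (4 + 1) → L} (hxF : eval x F = 0) {i0 : Fin (4 + 1)} (hi0 : x i0 ≠ 0) {c c' : ℤ}
    {u u' : Fin (4 + 1) → L} {G G' : MvPolynomial (Fin (4 + 1)) L} (hG : G.IsHomogeneous d)
    (hG' : G'.IsHomogeneous d) (hGc : GeM P c G) (hGc' : GeM P c' G')
    (hu : ∀ l, Ge P (c + pord P x) (u l)) (hu' : ∀ l, Ge P (c' + pord P x) (u' l))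
    (hv : dF F x (u + vec D x G) = 0) (hv' : dF F x (u' + vec D x G') = 0) :
    Ge P ((5 - d) * pord P x + vo P δ + d * P.ord (x i0) + c + c')
      (d5 (vec D x (X i0 ^ d)) x (fun l => δ (x l)) (u + vec D x G) (u' + vec D x G')) := by
  classical
  have hx0 : x ≠ 0 := by
    rintro rfl
    exact hi0 rfl
  obtain ⟨lam, x', hlam, hlamP, hxx, hx', i1, hi1⟩ := exists_scaled P hx0
  obtain ⟨D', hD'd, hD'p, hD'v⟩ := exists_pres P hD hS hFk hδ
  have hπ := ord_unif P
  have hδπ := der_pi_ne_zero hδ P hπ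
  obtain ⟨δ', hδ'⟩ : ∃ δ' : Derivation k L L, δ' = (δ (unif P))⁻¹ • δ := ⟨_, rfl⟩
  have hδ'a : ∀ f, δ f = δ (unif P) * δ' f := fun f => by
    rw [hδ', Derivation.coe_smul, Pi.smul_apply, smul_eq_mul, mul_inv_cancel_left₀ hδπ]
  have hreg : ∀ f, Ge P 0 f → Ge P 0 (δ' f) := fun f hf =>
    der_reg P hπ δ' (by rw [hδ']; simp [hδπ]) hf
  have hhom : ∀ i : Fin (4 + 1), (X i ^ d : MvPolynomial (Fin (4 + 1)) L).IsHomogeneous d :=
    fun i => by
      have := (isHomogeneous_X L i).pow d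
      rwa [one_mul] at this
  -- the vectors at the point `x'`
  obtain ⟨w, hw⟩ : ∃ w, w = u + lam • vec D' x' G := ⟨_, rfl⟩
  obtain ⟨w', hw'⟩ : ∃ w', w' = u' + lam • vec D' x' G' := ⟨_, rfl⟩
  have hsc : ∀ H : MvPolynomial (Fin (4 + 1)) L, ∃ a b : L, vec D x H =
      lam • vec D' x' H + a • x + b • fun l => δ (x l) := by
    intro H
    obtain ⟨m, hm⟩ := hD'v H
    refine ⟨lam⁻¹ * DD D' H lam, m, ?_⟩
    have h1 := vec_scale D' x' lam H
    rw [← hxx] at h1
    rw [hm x, h1]
    congr 2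
    rw [hxx, smul_smul, mul_comm lam⁻¹, mul_assoc, inv_mul_cancel₀ hlam, mul_one]
  have h1 : d5 (vec D x (X i0 ^ d)) x (fun l => δ (x l)) (u + vec D x G) (u' + vec D x G') =
      (lam * lam * (lam * δ (unif P)) * 1 * 1) *
        d5 (vec D' x' (X i0 ^ d)) x' (fun l => δ' (x' l)) w w' := by
    have h2 := alt_tri (Matrix.detRowAlternating : (Fin (4 + 1) → L) [⋀^Fin (4 + 1)]→ₗ[L] L)
      ![vec D x (X i0 ^ d), x, fun l => δ (x l), u + vec D x G, u' + vec D x G']
      ![vec D' x' (X i0 ^ d), x', fun l => δ' (x' l), w, w']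
      ![lam, lam, lam * δ (unif P), 1, 1] ![2, 0, 1, 2, 2] ?_
    · rw [Fin.prod_univ_five] at h2
      exact h2
    obtain ⟨S, hS⟩ : ∃ S : Submodule L (Fin (4 + 1) → L), S = Submodule.span L
        ((![vec D x (X i0 ^ d), x, fun l => δ (x l), u + vec D x G, u' + vec D x G'] :
          Fin (4 + 1) → Fin (4 + 1) → L) '' {l | (![2, 0, 1, 2, 2] : Fin (4 + 1) → ℕ) l < 2}) :=
      ⟨_, rfl⟩
    have hS1 : x ∈ S := by
      rw [hS]
      exact Submodule.subset_span ⟨1, by decide, rfl⟩
    have hS2 : (fun l => δ (x l)) ∈ S := by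
      rw [hS]
      exact Submodule.subset_span ⟨2, by decide, rfl⟩
    have hsec : ∀ (v : Fin (4 + 1) → L) (H : MvPolynomial (Fin (4 + 1)) L)
        (z : Fin (4 + 1) → L), z = v + lam • vec D' x' H → v + vec D x H - (1 : L) • z ∈ S := by
      intro v H z hz
      obtain ⟨a, b, hab⟩ := hsc H
      have h3 : v + vec D x H - (1 : L) • z = a • x + b • fun l => δ (x l) := by
        rw [one_smul, hz, hab]
        abel
      rw [h3]
      exact add_mem (Submodule.smul_mem _ _ hS1) (Submodule.smul_mem _ _ hS2)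
    intro i
    fin_cases i
    · change vec D x (X i0 ^ d) - lam • vec D' x' (X i0 ^ d) ∈ Submodule.span L
        ((![vec D x (X i0 ^ d), x, fun l => δ (x l), u + vec D x G, u' + vec D x G'] :
          Fin (4 + 1) → Fin (4 + 1) → L) '' {l | (![2, 0, 1, 2, 2] : Fin (4 + 1) → ℕ) l < 2})
      rw [← hS]
      obtain ⟨a, b, hab⟩ := hsc (X i0 ^ d)
      rw [hab, add_assoc, add_sub_cancel_left]
      exact add_mem (Submodule.smul_mem _ _ hS1) (Submodule.smul_mem _ _ hS2)
    · change x - lam • x' ∈ _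
      rw [← hxx, sub_self]
      exact zero_mem _
    · change (fun l => δ (x l)) - (lam * δ (unif P)) • (fun l => δ' (x' l)) ∈ _
      have h3 : (fun l => δ (x l)) - (lam * δ (unif P)) • (fun l => δ' (x' l)) =
          (δ lam * lam⁻¹) • x := by
        funext l
        have h4 : x l = lam * x' l := by
          conv_lhs => rw [hxx]
          rfl
        rw [Pi.sub_apply, Pi.smul_apply, Pi.smul_apply, smul_eq_mul, smul_eq_mul, mul_assoc lam,
          ← hδ'a, h4, δ.leibniz]
        simp only [smul_eq_mul]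
        field_simp
        ring
      rw [h3]
      exact Submodule.smul_mem _ _ (Submodule.subset_span ⟨1, by decide, rfl⟩)
    · change u + vec D x G - (1 : L) • w ∈ Submodule.span L
        ((![vec D x (X i0 ^ d), x, fun l => δ (x l), u + vec D x G, u' + vec D x G'] :
          Fin (4 + 1) → Fin (4 + 1) → L) '' {l | (![2, 0, 1, 2, 2] : Fin (4 + 1) → ℕ) l < 2})
      rw [← hS]
      exact hsec u G w hw
    · change u' + vec D x G' - (1 : L) • w' ∈ Submodule.span L
        ((![vec D x (X i0 ^ d), x, fun l => δ (x l), u + vec D x G, u' + vec D x G'] :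
          Fin (4 + 1) → Fin (4 + 1) → L) '' {l | (![2, 0, 1, 2, 2] : Fin (4 + 1) → ℕ) l < 2})
      rw [← hS]
      exact hsec u' G' w' hw'
  -- the first vector
  have hxF' : eval x' F = 0 := by
    rw [hxx, eval_smul_hom hF] at hxF
    exact (mul_eq_zero.1 hxF).resolve_left (pow_ne_zero _ hlam)
  have hdx : ∀ z, dF F x z = lam ^ (d - 1) * dF F x' z := by
    intro z
    unfold dF
    rw [Finset.mul_sum]
    refine Finset.sum_congr rfl fun l _ => ?_
    rw [hxx, eval_smul_hom (hF.pderiv (i := l)), mul_assoc]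
  have hdF1 : ∀ H : MvPolynomial (Fin (4 + 1)) L, H.IsHomogeneous d →
      dF F x' (vec D' x' H) = - eval x' H := fun H hH => by
    rw [dF_vec hF hD'd x' hH, hxF', map_zero, zero_sub]
  have hdδ : ∀ (ε : Derivation k L L) (z : Fin (4 + 1) → L), eval z F = 0 →
      dF F z (fun l => ε (z l)) = 0 := by
    intro ε z hz
    have h3 := Pool.Agent.TH145.GE.dF_ev (E := ε.restrictScalars ℤ) (G := F) (fun u => by
      obtain ⟨c, hc⟩ := hFk u
      rw [hc]
      exact ε.map_algebraMap c) z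
    rw [hz, map_zero] at h3
    exact h3
  have hself : ∀ z : Fin (4 + 1) → L, eval z F = 0 → dF F z z = 0 := fun z hz => by
    rw [Pool.Agent.TH145.GC.dF_self hF, hz, mul_zero]
  have hwT' : ∀ (v : Fin (4 + 1) → L) (H : MvPolynomial (Fin (4 + 1)) L)
      (z : Fin (4 + 1) → L), z = v + lam • vec D' x' H → dF F x (v + vec D x H) = 0 →
      dF F x' z = 0 := by
    intro v H z hz hvz
    obtain ⟨a, b, hab⟩ := hsc H
    have h3 : z = v + vec D x H + (-a) • x + (-b) • fun l => δ (x l) := by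
      rw [hz, hab, neg_smul, neg_smul]
      abel
    have h4 : dF F x z = 0 := by
      rw [h3, dF_add, dF_add, dF_smul, dF_smul, hvz, hself x hxF, hdδ δ x hxF]
      ring
    rw [hdx] at h4
    exact (mul_eq_zero.1 h4).resolve_left (pow_ne_zero _ hlam)
  have hne : (fun l => eval x' (pderiv l F)) ≠ 0 := by
    intro h0
    have h3 := hdF1 (X i1 ^ d) (hhom i1)
    have h4 : dF F x' (vec D' x' (X i1 ^ d)) = 0 := by
      unfold dF
      refine Finset.sum_eq_zero fun l _ => ?_
      have h5 : eval x' (pderiv l F) = 0 := congrFun h0 l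
      rw [h5, zero_mul]
    rw [h4, map_pow, eval_X, hi1, one_pow] at h3
    norm_num at h3
  have h2 : d5 (vec D' x' (X i0 ^ d)) x' (fun l => δ' (x' l)) w w' =
      x' i0 ^ d * d5 (vec D' x' (X i1 ^ d)) x' (fun l => δ' (x' l)) w w' := by
    have h3 : d5 (vec D' x' (X i0 ^ d) - x' i0 ^ d • vec D' x' (X i1 ^ d)) x'
        (fun l => δ' (x' l)) w w' = 0 := by
      refine d5_zero hne ?_ (hself x' hxF') (hdδ δ' x' hxF') (hwT' u G w hw hv)
        (hwT' u' G' w' hw' hv')
      change dF F x' (vec D' x' (X i0 ^ d) - x' i0 ^ d • vec D' x' (X i1 ^ d)) = 0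
      rw [Pool.Agent.TH145.GC.dF_sub, dF_smul, hdF1 _ (hhom i0), hdF1 _ (hhom i1), map_pow,
        map_pow, eval_X, eval_X, hi1]
      ring
    rw [d5_sub_first, d5_smul_first] at h3
    linear_combination h3
  have hsec : ∀ (m : ℤ) (v : Fin (4 + 1) → L) (H : MvPolynomial (Fin (4 + 1)) L)
      (z : Fin (4 + 1) → L), z = v + lam • vec D' x' H → H.IsHomogeneous d → GeM P m H →
      (∀ l, Ge P (m + pord P x) (v l)) → ∀ l, Ge P (m + pord P x) (z l) := by
    intro m v H z hz hH hHm hvm l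
    rw [hz, Pi.add_apply, Pi.smul_apply, smul_eq_mul]
    refine (hvm l).add ?_
    have h4 := ge_DD P (c := -m) hD'p hH (fun v => by rw [neg_neg]; exact hHm v) (hx' l)
    have h5 : Ge P (pord P x) lam := Or.inr hlamP.ge
    rw [vec_apply]
    exact (h5.mul h4).mono (by omega)
  have h3 : Ge P ((c + pord P x) + (c' + pord P x))
      (d5 (vec D' x' (X i1 ^ d)) x' (fun l => δ' (x' l)) w w') := by
    refine ge_d5 P (fun l => ?_) hx' (fun l => hreg _ (hx' l)) (hsec c u G w hw hG hGc hu)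
      (hsec c' u' G' w' hw' hG' hGc' hu')
    rw [vec_apply]
    have h4 := ge_DD P (c := 0) hD'p (hhom i1) (fun v => by
      rw [neg_zero]
      have h5 : GeM P (d * 0) (X i1 ^ d : MvPolynomial (Fin (4 + 1)) L) := (GeM.X i1).pow d
      have h6 := h5 v
      rwa [mul_zero] at h6) (hx' l)
    exact h4.mono (by omega)
  have hxi : x i0 = lam * x' i0 := by
    conv_lhs => rw [hxx]
    rfl
  have hxi0 : x' i0 ≠ 0 := by
    intro h0
    apply hi0
    rw [hxi, h0, mul_zero]
  have h4 : P.ord (x' i0) = P.ord (x i0) - pord P x := by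
    rw [hxi, P.ord_mul hlam hxi0, hlamP]
    ring
  rw [h1, h2, mul_one, mul_one]
  have h5 : Ge P (3 * pord P x + vo P δ) (lam * lam * (lam * δ (unif P))) := by
    right
    rw [P.ord_mul (mul_ne_zero hlam hlam) (mul_ne_zero hlam hδπ), P.ord_mul hlam hlam,
      P.ord_mul hlam hδπ, hlamP]
    unfold vo
    omega
  have h6 : Ge P (d * (P.ord (x i0) - pord P x)) (x' i0 ^ d) := by
    right
    rw [P.ord_pow, h4]
  refine (h5.mul (h6.mul h3)).mono (le_of_eq ?_)
  ring

end loc

end Pool.Agent.H435.ST
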