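import Pool.Agent.H435.ST.Du

/-!
The degree of a curve in a generic threefold: the form on the normal space.
-/

set_option autoImplicit false

open MvPolynomial FF Pool.Agent.W603.LV Pool.Agent.W603.PV Pool.Agent.TH145.GH
open Pool.Agent.Y735 (lf lf_apply lf_hom eval_lf pm lf_pm sum_pm eval_pm pl po po_le exists_po fht
  fht_nonneg sum_two po_finite DD DD_apply vec vec_apply vec_scale wv dF_vec alt_tri ge_DD ge_lf
  ge_coeff_mul)
open Pool.Agent.W602.GT

namespace Pool.Agent.H435.ST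

open Pool.Agent.H435.QL (GeM)
open Pool.Agent.H435.VG (fun_eval lin_hom ge_po le_po po_prod fht_prod)

/-- A curve in a threefold with derivations that are dual to the coefficients of its equation. -/
structure Cv (k : Type) {L : Type} [Field k] [Field L] [Algebra k L]
    (F : MvPolynomial (Fin (4 + 1)) L) (d : ℕ) (D : (Fin (4 + 1) →₀ ℕ) → Derivation ℤ L L)
    (δ : Derivation k L L) (x : Fin (4 + 1) → L) (i0 : Fin (4 + 1)) : Prop where
  pos : 1 ≤ d
  hom : F.IsHomogeneous d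
  dual : Dual F d D
  sem : ∀ I, Sem k (D I)
  cst : ∀ u, ∃ c : k, F.coeff u = algebraMap k L c
  der : δ ≠ 0
  zero : eval x F = 0
  ne : x i0 ≠ 0
  ind : ∀ a b : L, (∀ l, a * x l + b * δ (x l) = 0) → b = 0

section

variable {k L : Type} [Field k] [Field L] [Algebra k L] {F : MvPolynomial (Fin (4 + 1)) L} {d : ℕ}
  {D : (Fin (4 + 1) →₀ ℕ) → Derivation ℤ L L} {δ : Derivation k L L} {x : Fin (4 + 1) → L}
  {i0 : Fin (4 + 1)}

/-- The form along the curve. -/
noncomputable def Ox (D : (Fin (4 + 1) →₀ ℕ) → Derivation ℤ L L) (d : ℕ) (δ : Derivation k L L)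
    (x : Fin (4 + 1) → L) (i0 : Fin (4 + 1)) :
    (Fin (4 + 1) → L) →ₗ[L] (Fin (4 + 1) → L) →ₗ[L] L :=
  Om (vec D x (X i0 ^ d)) x fun l => δ (x l)

theorem Ox_self (v : Fin (4 + 1) → L) : Ox D d δ x i0 v v = 0 := Om_self _ _ _ _

theorem Ox_swap (v w : Fin (4 + 1) → L) : Ox D d δ x i0 v w = - Ox D d δ x i0 w v :=
  Om_swap _ _ _ _ _

theorem Ox_x (v : Fin (4 + 1) → L) : Ox D d δ x i0 v x = 0 := Om_b _ _ _ _

theorem Ox_del (v : Fin (4 + 1) → L) : Ox D d δ x i0 v (fun l => δ (x l)) = 0 := Om_c _ _ _ _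

theorem Om_a (a b c e : Fin (4 + 1) → L) : Om a b c e a = 0 := by
  rw [Om_apply]
  unfold d5
  exact AlternatingMap.map_eq_zero_of_eq _ _ (i := 0) (j := 4) rfl (by decide)

theorem pow_hom (i : Fin (4 + 1)) (d : ℕ) :
    (X i ^ d : MvPolynomial (Fin (4 + 1)) L).IsHomogeneous d := by
  have := (isHomogeneous_X L i).pow d
  rwa [one_mul] at this

theorem Cv.dF_vec (h : Cv k F d D δ x i0) {G : MvPolynomial (Fin (4 + 1)) L}
    (hG : G.IsHomogeneous d) : dF F x (vec D x G) = - eval x G := by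
  rw [Pool.Agent.Y735.dF_vec h.hom h.dual x hG, h.zero, map_zero, zero_sub]

theorem Cv.dF_x (h : Cv k F d D δ x i0) : dF F x x = 0 := by
  rw [Pool.Agent.TH145.GC.dF_self h.hom, h.zero, mul_zero]

theorem Cv.dF_del (h : Cv k F d D δ x i0) : dF F x (fun l => δ (x l)) = 0 := by
  have h3 := Pool.Agent.TH145.GE.dF_ev (E := δ.restrictScalars ℤ) (G := F) (fun u => by
    obtain ⟨c, hc⟩ := h.cst u
    rw [hc]
    exact δ.map_algebraMap c) x
  rw [h.zero, map_zero] at h3
  exact h3

theorem wv_hom (hd : 1 ≤ d) (hF : F.IsHomogeneous d) (pq : Fin (4 + 1) × Fin (4 + 1)) :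
    (X pq.2 * pderiv pq.1 F).IsHomogeneous d := by
  have h4 := (isHomogeneous_X L pq.2).mul (hF.pderiv (i := pq.1))
  have h5 : 1 + (d - 1) = d := by omega
  rwa [h5] at h4

theorem dF_zero (F : MvPolynomial (Fin (4 + 1)) L) (x : Fin (4 + 1) → L) : dF F x 0 = 0 := by
  unfold dF
  exact Finset.sum_eq_zero fun l _ => by rw [Pi.zero_apply, mul_zero]

theorem Cv.dF_wv (h : Cv k F d D δ x i0) (pq : Fin (4 + 1) × Fin (4 + 1)) :
    dF F x (wv F D x pq) = 0 := by
  unfold wv
  rw [dF_add, dF_smul, h.dF_vec (wv_hom h.pos h.hom pq), map_mul, eval_X]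
  have h1 : dF F x (Pi.single pq.1 1) = eval x (pderiv pq.1 F) := by
    unfold dF
    rw [Finset.sum_eq_single pq.1]
    · rw [Pi.single_eq_same, mul_one]
    · intro b _ hb
      rw [Pi.single_eq_of_ne hb, mul_zero]
    · intro h; exact absurd (Finset.mem_univ _) h
  rw [h1]
  ring

theorem Cv.dF_a (h : Cv k F d D δ x i0) : dF F x (vec D x (X i0 ^ d)) ≠ 0 := by
  rw [h.dF_vec (pow_hom i0 d), map_pow, eval_X]
  exact neg_ne_zero.2 (pow_ne_zero _ h.ne)

theorem snoc_ind {m : ℕ} {V : Fin m → Fin (4 + 1) → L} (hV : LinearIndependent L V)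
    {e : Fin (4 + 1) → L} (he : e ∉ Submodule.span L (Set.range V)) :
    LinearIndependent L (Fin.snoc V e : Fin (m + 1) → Fin (4 + 1) → L) := by
  rw [linearIndependent_finSnoc]
  exact ⟨hV, he⟩

theorem exists_out {m : ℕ} (hm : m < 5) {V : Fin m → Fin (4 + 1) → L}
    (hV : LinearIndependent L V) : ∃ e, e ∉ Submodule.span L (Set.range V) := by
  by_contra hcon
  push Not at hcon
  have h1 : Submodule.span L (Set.range V) = ⊤ := by
    rw [eq_top_iff]
    exact fun z _ => hcon z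
  have h2 := finrank_span_eq_card hV
  rw [h1, finrank_top, Module.finrank_fin_fun, Fintype.card_fin] at h2
  omega

theorem Cv.ind3 (h : Cv k F d D δ x i0) :
    LinearIndependent L ![vec D x (X i0 ^ d), x, fun l => δ (x l)] := by
  rw [Fintype.linearIndependent_iff]
  intro g hg
  rw [Fin.sum_univ_three] at hg
  change g 0 • vec D x (X i0 ^ d) + g 1 • x + g 2 • (fun l => δ (x l)) = 0 at hg
  have h1 := congrArg (dF F x) hg
  rw [dF_add, dF_add, dF_smul, dF_smul, dF_smul, h.dF_x, h.dF_del, mul_zero, mul_zero, add_zero,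
    add_zero, dF_zero] at h1
  have hg0 : g 0 = 0 := (mul_eq_zero.1 h1).resolve_right h.dF_a
  rw [hg0, zero_smul, zero_add] at hg
  have h3 : ∀ l, g 1 * x l + g 2 * δ (x l) = 0 := fun l => congrFun hg l
  have hg2 := h.ind _ _ h3
  have hg1 : g 1 = 0 := by
    have h4 := h3 i0
    rw [hg2, zero_mul, add_zero] at h4
    exact (mul_eq_zero.1 h4).resolve_right h.ne
  intro i
  fin_cases i
  · exact hg0
  · exact hg1
  · exact hg2

/-- The vectors in the kernel of the form. -/
theorem Cv.nondeg (h : Cv k F d D δ x i0) {v : Fin (4 + 1) → L} (hv : dF F x v = 0)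
    (hk : ∀ w, dF F x w = 0 → Ox D d δ x i0 v w = 0) :
    ∃ α β : L, v = α • x + β • fun l => δ (x l) := by
  classical
  obtain ⟨V, hV⟩ : ∃ V : Fin 3 → Fin (4 + 1) → L, V = ![vec D x (X i0 ^ d), x, fun l => δ (x l)] :=
    ⟨_, rfl⟩
  have hind : LinearIndependent L V := by
    rw [hV]
    exact h.ind3
  by_cases hvs : v ∈ Submodule.span L (Set.range V)
  · rw [Submodule.mem_span_range_iff_exists_fun] at hvs
    obtain ⟨g, hg⟩ := hvs
    rw [Fin.sum_univ_three, hV] at hg
    change g 0 • vec D x (X i0 ^ d) + g 1 • x + g 2 • (fun l => δ (x l)) = v at hg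
    have h1 := congrArg (dF F x) hg
    rw [dF_add, dF_add, dF_smul, dF_smul, dF_smul, h.dF_x, h.dF_del, mul_zero, mul_zero, add_zero,
      add_zero, hv] at h1
    have hg0 : g 0 = 0 := (mul_eq_zero.1 h1).resolve_right h.dF_a
    refine ⟨g 1, g 2, ?_⟩
    rw [← hg, hg0, zero_smul, zero_add]
  · exfalso
    have h4 := snoc_ind hind hvs
    obtain ⟨e, he⟩ := exists_out (by norm_num) h4
    have h5 := snoc_ind h4 he
    have h2 : (Fin.snoc (Fin.snoc V v : Fin (3 + 1) → Fin (4 + 1) → L) e :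
        Fin (4 + 1) → Fin (4 + 1) → L) =
        ![vec D x (X i0 ^ d), x, fun l => δ (x l), v, e] := by
      funext i
      rw [hV]
      fin_cases i <;> rfl
    rw [h2] at h5
    have hdet : d5 (vec D x (X i0 ^ d)) x (fun l => δ (x l)) v e ≠ 0 := by
      rw [d5_det]
      have h4 := Matrix.linearIndependent_rows_iff_isUnit
        (A := Matrix.of ![vec D x (X i0 ^ d), x, fun l => δ (x l), v, e])
      rw [Matrix.isUnit_iff_isUnit_det, isUnit_iff_ne_zero] at h4
      exact h4.1 h5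
    apply hdet
    have h6 := hk (e - (dF F x e / dF F x (vec D x (X i0 ^ d))) • vec D x (X i0 ^ d)) (by
      rw [Pool.Agent.TH145.GC.dF_sub, dF_smul, div_mul_cancel₀ _ h.dF_a, sub_self])
    rw [map_sub, map_smul] at h6
    unfold Ox at h6
    rw [Om_a, smul_zero, sub_zero] at h6
    exact h6

/-- The form is not zero. -/
theorem Cv.exists_pair (h : Cv k F d D δ x i0) : ∃ v w, dF F x v = 0 ∧ dF F x w = 0 ∧
    Ox D d δ x i0 v w ≠ 0 := by
  obtain ⟨e, he⟩ := exists_out (by norm_num) h.ind3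
  have ha : vec D x (X i0 ^ d) ∈ Submodule.span L
      (Set.range ![vec D x (X i0 ^ d), x, fun l => δ (x l)]) :=
    Submodule.subset_span ⟨0, rfl⟩
  have hx : x ∈ Submodule.span L
      (Set.range ![vec D x (X i0 ^ d), x, fun l => δ (x l)]) :=
    Submodule.subset_span ⟨1, rfl⟩
  have hδ : (fun l => δ (x l)) ∈ Submodule.span L
      (Set.range ![vec D x (X i0 ^ d), x, fun l => δ (x l)]) :=
    Submodule.subset_span ⟨2, rfl⟩
  obtain ⟨v, hv⟩ : ∃ v, v = e - (dF F x e / dF F x (vec D x (X i0 ^ d))) • vec D x (X i0 ^ d) :=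
    ⟨_, rfl⟩
  have hv0 : dF F x v = 0 := by
    rw [hv, Pool.Agent.TH145.GC.dF_sub, dF_smul, div_mul_cancel₀ _ h.dF_a, sub_self]
  by_contra hcon
  push Not at hcon
  obtain ⟨α, β, hαβ⟩ := h.nondeg hv0 fun w hw => hcon v w hv0 hw
  apply he
  have h1 : e = v + (dF F x e / dF F x (vec D x (X i0 ^ d))) • vec D x (X i0 ^ d) := by
    rw [hv, sub_add_cancel]
  rw [h1]
  refine add_mem ?_ (Submodule.smul_mem _ _ ha)
  rw [hαβ]
  exact add_mem (Submodule.smul_mem _ _ hx) (Submodule.smul_mem _ _ hδ)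

/-- The coordinates of the tangent vectors. -/
theorem Cv.two (h : Cv k F d D δ x i0) {s t v : Fin (4 + 1) → L} (hs : dF F x s = 0)
    (ht : dF F x t = 0) (hv : dF F x v = 0) (hst : Ox D d δ x i0 s t ≠ 0) :
    ∃ α β γ ε : L, v = α • x + β • (fun l => δ (x l)) + γ • s + ε • t := by
  have h1 : d5 (vec D x (X i0 ^ d)) x (fun l => δ (x l)) s t ≠ 0 := hst
  rw [d5_det] at h1
  have h4 := Matrix.linearIndependent_rows_iff_isUnit
    (A := Matrix.of ![vec D x (X i0 ^ d), x, fun l => δ (x l), s, t])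
  rw [Matrix.isUnit_iff_isUnit_det, isUnit_iff_ne_zero] at h4
  have h5 : LinearIndependent L ![vec D x (X i0 ^ d), x, fun l => δ (x l), s, t] := h4.2 h1
  have h6 : Submodule.span L (Set.range ![vec D x (X i0 ^ d), x, fun l => δ (x l), s, t]) = ⊤ :=
    h5.span_eq_top_of_card_eq_finrank (by rw [Fintype.card_fin, Module.finrank_fin_fun])
  have h7 : v ∈ Submodule.span L (Set.range ![vec D x (X i0 ^ d), x, fun l => δ (x l), s, t]) := by
    rw [h6]
    exact Submodule.mem_top
  rw [Submodule.mem_span_range_iff_exists_fun] at h7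
  obtain ⟨g, hg⟩ := h7
  rw [Fin.sum_univ_five] at hg
  change g 0 • vec D x (X i0 ^ d) + g 1 • x + g 2 • (fun l => δ (x l)) + g 3 • s + g 4 • t = v at hg
  have h8 := congrArg (dF F x) hg
  rw [dF_add, dF_add, dF_add, dF_add, dF_smul, dF_smul, dF_smul, dF_smul, dF_smul, h.dF_x,
    h.dF_del, hs, ht, hv, mul_zero, mul_zero, mul_zero, mul_zero, add_zero, add_zero, add_zero,
    add_zero] at h8
  have hg0 : g 0 = 0 := (mul_eq_zero.1 h8).resolve_right h.dF_a
  refine ⟨g 1, g 2, g 3, g 4, ?_⟩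
  rw [← hg, hg0, zero_smul, zero_add]

/-- The value of a linear form at the vector field of a product. -/
noncomputable def Ph (T : (Fin (4 + 1) → L) →ₗ[L] L)
    (D : (Fin (4 + 1) →₀ ℕ) → Derivation ℤ L L) (x : Fin (4 + 1) → L)
    (P : MvPolynomial (Fin (4 + 1)) L) (a b : Fin (4 + 1)) : L :=
  T (vec D x (lf (pm x a b) * P))

/-- The point over a form. -/
noncomputable def Yx (T : (Fin (4 + 1) → L) →ₗ[L] L)
    (D : (Fin (4 + 1) →₀ ℕ) → Derivation ℤ L L) (x : Fin (4 + 1) → L) (i0 : Fin (4 + 1))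
    (P : MvPolynomial (Fin (4 + 1)) L) (b : Fin (4 + 1)) : L :=
  Ph T D x P i0 b / x i0

theorem lf_comb (hi0 : x i0 ≠ 0) {m : Fin (4 + 1) → L} (hm : ∑ l, m l * x l = 0) :
    lf m = ∑ b, (m b / x i0) • lf (pm x i0 b) := by
  have h1 : m = ∑ b, (m b / x i0) • pm x i0 b := by
    funext l
    rw [Finset.sum_apply]
    simp only [Pi.smul_apply, smul_eq_mul, pm, mul_sub, mul_ite, mul_zero]
    rw [Finset.sum_sub_distrib, Finset.sum_ite_eq Finset.univ l, if_pos (Finset.mem_univ l)]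
    by_cases hl : l = i0
    · simp only [if_pos hl]
      have h2 : ∑ b, m b / x i0 * x b = 0 := by
        have h3 : ∑ b, m b / x i0 * x b = (∑ b, m b * x b) / x i0 := by
          rw [Finset.sum_div]
          exact Finset.sum_congr rfl fun b _ => by ring
        rw [h3, hm, zero_div]
      rw [h2, sub_zero, div_mul_cancel₀ _ hi0]
    · simp only [if_neg hl]
      rw [Finset.sum_const_zero, sub_zero, div_mul_cancel₀ _ hi0]
  conv_lhs => rw [h1]
  rw [map_sum]
  exact Finset.sum_congr rfl fun b _ => map_smul _ _ _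

theorem Yx_spec (T : (Fin (4 + 1) → L) →ₗ[L] L) (hi0 : x i0 ≠ 0)
    (P : MvPolynomial (Fin (4 + 1)) L) {m : Fin (4 + 1) → L}
    (hm : ∑ l, m l * x l = 0) :
    T (vec D x (lf m * P)) = ∑ l, m l * Yx T D x i0 P l := by
  rw [lf_comb hi0 hm, Finset.sum_mul, map_sum, map_sum]
  refine Finset.sum_congr rfl fun b _ => ?_
  rw [smul_mul_assoc, map_smul, map_smul, smul_eq_mul]
  unfold Yx Ph
  ring

theorem Ph_eq (T : (Fin (4 + 1) → L) →ₗ[L] L) (hi0 : x i0 ≠ 0) (a b : Fin (4 + 1))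
    (P : MvPolynomial (Fin (4 + 1)) L) :
    Ph T D x P a b = pl x (Yx T D x i0 P) (a, b) := by
  unfold Ph
  rw [Yx_spec T hi0 P (by rw [← eval_lf]; exact eval_pm x a b), sum_pm]
  rfl

theorem Yx_i0 (T : (Fin (4 + 1) → L) →ₗ[L] L) (P : MvPolynomial (Fin (4 + 1)) L) :
    Yx T D x i0 P i0 = 0 := by
  unfold Yx Ph
  have h1 : pm x i0 i0 = 0 := by
    funext l
    simp [pm]
  rw [h1, map_zero, zero_mul, map_zero, map_zero, zero_div]

/-- A linear form that vanishes at the vectors of the linear group and at the vector fields. -/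
theorem Cv.gen (h : Cv k F d D δ x i0) {T : (Fin (4 + 1) → L) →ₗ[L] L}
    (hw : ∀ pq, T (wv F D x pq) = 0)
    (hP : ∀ b (J : Fin (4 + 1) →₀ ℕ), J.degree = d - 1 → Ph T D x (monomial J 1) i0 b = 0)
    {w : Fin (4 + 1) → L} (hw1 : dF F x w = 0) : T w = 0 := by
  classical
  have hx0 : x ≠ 0 := by
    rintro rfl
    exact h.ne rfl
  obtain ⟨b, hb⟩ := fun_eval (e := d) (T ∘ₗ vec D x) hx0 fun m hm J hJ => by
    rw [LinearMap.comp_apply, Yx_spec T h.ne _ hm]
    refine Finset.sum_eq_zero fun l _ => ?_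
    unfold Yx
    rw [hP l J (by omega), zero_div, mul_zero]
  obtain ⟨G, hG⟩ : ∃ G : MvPolynomial (Fin (4 + 1)) L, G = ∑ p, w p • (X i0 * pderiv p F) :=
    ⟨_, rfl⟩
  have hGh : G.IsHomogeneous d := by
    rw [hG]
    refine IsHomogeneous.sum _ _ _ fun p _ => ?_
    rw [smul_eq_C_mul]
    have := (isHomogeneous_C (Fin (4 + 1)) (w p)).mul (wv_hom h.pos h.hom (p, i0))
    rwa [zero_add] at this
  have h1 : x i0 • w = ∑ p, w p • wv F D x (p, i0) - vec D x G := by
    rw [hG, map_sum, ← Finset.sum_sub_distrib]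
    have h2 : ∀ p, w p • wv F D x (p, i0) - vec D x (w p • (X i0 * pderiv p F)) =
        (x i0 * w p) • (Pi.single p 1 : Fin (4 + 1) → L) := by
      intro p
      unfold wv
      rw [map_smul, smul_add, add_sub_cancel_right, smul_smul, mul_comm]
    rw [Finset.sum_congr rfl fun p _ => h2 p]
    funext l
    rw [Finset.sum_apply, Finset.sum_eq_single l]
    · rw [Pi.smul_apply, Pi.smul_apply, smul_eq_mul, smul_eq_mul, Pi.single_eq_same, mul_one]
    · intro p _ hp
      rw [Pi.smul_apply, Pi.single_eq_of_ne hp.symm, smul_zero]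
    · intro h; exact absurd (Finset.mem_univ _) h
  have h3 := congrArg T h1
  rw [map_smul, map_sub, map_sum, Finset.sum_eq_zero fun p _ => by
    rw [map_smul, hw, smul_zero], zero_sub, smul_eq_mul] at h3
  have h4 := hb G hGh
  rw [LinearMap.comp_apply] at h4
  have h5 : eval x G = 0 := by
    rw [hG, map_sum]
    have h6 : ∑ p, eval x (w p • (X i0 * pderiv p F)) = x i0 * dF F x w := by
      unfold dF
      rw [Finset.mul_sum]
      refine Finset.sum_congr rfl fun p _ => ?_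
      rw [smul_eval, map_mul, eval_X]
      ring
    rw [h6, hw1, mul_zero]
  rw [h4, h5, mul_zero, neg_zero] at h3
  exact (mul_eq_zero.1 h3).resolve_left h.ne

end

section

variable {k L : Type} [Field k] [Field L] [Algebra k L] [IsAlgClosed k] [CharZero k] [IsFF k L]
  {F : MvPolynomial (Fin (4 + 1)) L} {d : ℕ}
  {D : (Fin (4 + 1) →₀ ℕ) → Derivation ℤ L L} {δ : Derivation k L L} {x : Fin (4 + 1) → L}
  {i0 : Fin (4 + 1)}

theorem Cv.fin_vo (h : Cv k F d D δ x i0) : {P : Place k L | -vo P δ ≠ 0}.Finite := by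
  refine (vo_finite (k := k) h.der).subset fun P hP => ?_
  intro h0
  apply hP
  rw [h0, neg_zero]

theorem Cv.sum_vo (h : Cv k F d D δ x i0) : ∑ᶠ P : Place k L, -vo P δ = canDeg k L := by
  rw [canDeg_eq h.der, finsum_neg_distrib]

/-- A tangent vector field with a bound for its poles. -/
def Sec (P : Place k L) (F : MvPolynomial (Fin (4 + 1)) L) (d : ℕ)
    (D : (Fin (4 + 1) →₀ ℕ) → Derivation ℤ L L) (x : Fin (4 + 1) → L) (c : ℤ)
    (v : Fin (4 + 1) → L) : Prop :=
  ∃ (u : Fin (4 + 1) → L) (G : MvPolynomial (Fin (4 + 1)) L), G.IsHomogeneous d ∧ GeM P c G ∧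
    (∀ l, Ge P (c + pord P x) (u l)) ∧ v = u + vec D x G ∧ dF F x v = 0

theorem Cv.sec_wv (h : Cv k F d D δ x i0) (P : Place k L) (pq : Fin (4 + 1) × Fin (4 + 1)) :
    Sec P F d D x 0 (wv F D x pq) := by
  refine ⟨x pq.2 • (Pi.single pq.1 1 : Fin (4 + 1) → L), X pq.2 * pderiv pq.1 F,
    wv_hom h.pos h.hom pq, fun v => ?_, fun l => ?_, rfl, h.dF_wv pq⟩
  · have h3 := ge_coeff_mul P (GeM.X pq.2) (ge_pderiv P (g := 0) (fun u => by
      obtain ⟨c, hc⟩ := h.cst u
      rw [hc]
      exact Ge.const _) pq.1) v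
    exact h3.mono (by omega)
  · rw [zero_add, Pi.smul_apply, smul_eq_mul]
    by_cases hl : l = pq.1
    · rw [hl, Pi.single_eq_same, mul_one]
      exact ge_pord P x _
    · rw [Pi.single_eq_of_ne hl, mul_zero]
      exact Ge.zero

theorem Cv.lf_vec (h : Cv k F d D δ x i0) (a b : Fin (4 + 1))
    {Q : MvPolynomial (Fin (4 + 1)) L} (hQ : Q.IsHomogeneous (d - 1)) :
    (lf (pm x a b) * Q).IsHomogeneous d ∧ dF F x (vec D x (lf (pm x a b) * Q)) = 0 := by
  have hhom : (lf (pm x a b) * Q).IsHomogeneous d := by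
    have h4 := (lf_hom (pm x a b)).mul hQ
    have h5 : 1 + (d - 1) = d := by have := h.pos; omega
    rwa [h5] at h4
  exact ⟨hhom, by rw [h.dF_vec hhom, map_mul, eval_pm, zero_mul, neg_zero]⟩

theorem Cv.sec_lf (h : Cv k F d D δ x i0) (P : Place k L) (a b : Fin (4 + 1))
    {Q : MvPolynomial (Fin (4 + 1)) L} (hQ : Q.IsHomogeneous (d - 1)) (hQ0 : GeM P 0 Q) :
    Sec P F d D x (pord P x) (vec D x (lf (pm x a b) * Q)) := by
  refine ⟨0, lf (pm x a b) * Q, (h.lf_vec a b hQ).1, fun v => ?_, fun l => Ge.zero,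
    by rw [zero_add], (h.lf_vec a b hQ).2⟩
  have h3 := ge_coeff_mul P (ge_lf P (m := pm x a b) (a := pord P x) fun l => by
    unfold pm
    refine Ge.sub ?_ ?_
    · split_ifs
      · exact ge_pord P x _
      · exact Ge.zero
    · split_ifs
      · exact ge_pord P x _
      · exact Ge.zero) (q := Q) (b := 0) hQ0 v
  exact h3.mono (by omega)

/-- The order of the form at two vector fields. -/
theorem Cv.ge_Ox (h : Cv k F d D δ x i0) (P : Place k L) {c c' : ℤ} {v v' : Fin (4 + 1) → L}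
    (hv : Sec P F d D x c v) (hv' : Sec P F d D x c' v') :
    Ge P ((5 - d) * pord P x + vo P δ + d * P.ord (x i0) + c + c') (Ox D d δ x i0 v v') := by
  obtain ⟨u, G, hG, hGc, hu, rfl, hd1⟩ := hv
  obtain ⟨u', G', hG', hGc', hu', rfl, hd2⟩ := hv'
  exact d5_local P h.hom h.dual h.sem h.cst h.der h.zero h.ne hG hG' hGc hGc' hu hu' hd1 hd2

/-- The degree of the curve and the height of a family. -/
theorem Cv.deg_fam (h : Cv k F d D δ x i0) {ι : Type} [Finite ι] {Θ : ι → L} (hΘ : Θ ≠ 0) {r : ℤ}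
    (hge : ∀ (P : Place k L) j, Ge P ((5 - d) * pord P x + vo P δ + d * P.ord (x i0) +
      r * pord P x) (Θ j)) : (d - 5 - r) * pht k x + fht k Θ ≤ canDeg k L := by
  have hx0 : x ≠ 0 := by
    rintro rfl
    exact h.ne rfl
  have h1 := sum_two (k := k) hx0 hΘ (a := 5 - d + r) (b := -1) (c := d) (g := x i0)
    (Θ := (1 : L)) h.fin_vo (fun P => by
      rw [P.ord_one]
      have h2 := le_po P hΘ (hge P)
      linarith)
  rw [h.sum_vo] at h1
  linarith

/-- The degree of the curve if the form is not zero on the vectors of the linear group. -/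
theorem Cv.degA (h : Cv k F d D δ x i0) {pq pq' : Fin (4 + 1) × Fin (4 + 1)}
    (hne : Ox D d δ x i0 (wv F D x pq) (wv F D x pq') ≠ 0) :
    (d - 5) * pht k x ≤ canDeg k L := by
  have h1 := h.deg_fam (ι := Unit) (Θ := fun _ => Ox D d δ x i0 (wv F D x pq) (wv F D x pq'))
    (by
      intro h0
      exact hne (congrFun h0 ())) (r := 0) (fun P _ =>
        (h.ge_Ox P (h.sec_wv P pq) (h.sec_wv P pq')).mono (by linarith))
  have h2 : 0 ≤ fht k (fun _ : Unit => Ox D d δ x i0 (wv F D x pq) (wv F D x pq')) :=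
    fht_nonneg fun h0 => hne (congrFun h0 ())
  linarith

/-- Two different lines through the point. -/
theorem two_lines {ι : Type} [Finite ι] {Θ : ι → L} (hΘ : Θ ≠ 0) {x y z : Fin (4 + 1) → L}
    (hx0 : x ≠ 0) (hy : ∀ q, ∃ j, Θ j = pl x y q) (hz : ∀ q, ∃ j, Θ j = pl x z q)
    {a b c : Fin (4 + 1)} (hM : x a * (y b * z c - y c * z b) - x b * (y a * z c - y c * z a) +
      x c * (y a * z b - y b * z a) ≠ 0) : pht k x ≤ 2 * fht k Θ := by
  obtain ⟨M, hMd⟩ : ∃ M, M = x a * (y b * z c - y c * z b) - x b * (y a * z c - y c * z a) +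
    x c * (y a * z b - y b * z a) := ⟨_, rfl⟩
  rw [← hMd] at hM
  have hfin : {P : Place k L | (fun _ : Place k L => (0 : ℤ)) P ≠ 0}.Finite := by simp
  have h1 := sum_two (k := k) hx0 hΘ (a := -1) (b := 2) (c := 0) (g := (1 : L))
    (Θ := M) hfin (fun P => by
      obtain ⟨e, he, heP⟩ := exists_pord P (Function.ne_iff.1 hx0)
      have h2 : ∀ q, Ge P (po P Θ) (pl x y q) := fun q => by
        obtain ⟨j, hj⟩ := hy q
        rw [← hj]
        exact ge_po P Θ j
      have h3 : ∀ q, Ge P (po P Θ) (pl x z q) := fun q => by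
        obtain ⟨j, hj⟩ := hz q
        rw [← hj]
        exact ge_po P Θ j
      have h4 : x e * (x e * M) =
          x a * (pl x y (e, b) * pl x z (e, c) - pl x y (e, c) * pl x z (e, b)) -
          x b * (pl x y (e, a) * pl x z (e, c) - pl x y (e, c) * pl x z (e, a)) +
          x c * (pl x y (e, a) * pl x z (e, b) - pl x y (e, b) * pl x z (e, a)) := by
        rw [hMd]
        simp only [pl]
        ring
      have h5 : ∀ p q r s, Ge P (po P Θ + po P Θ) (pl x y p * pl x z q - pl x y r * pl x z s) :=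
        fun p q r s => ((h2 p).mul (h3 q)).sub ((h2 r).mul (h3 s))
      have h6 : Ge P (pord P x + (po P Θ + po P Θ)) (x e * (x e * M)) := by
        rw [h4]
        exact (((ge_pord P x a).mul (h5 _ _ _ _)).sub ((ge_pord P x b).mul (h5 _ _ _ _))).add
          ((ge_pord P x c).mul (h5 _ _ _ _))
      have h7 := h6.resolve_left (mul_ne_zero he (mul_ne_zero he hM))
      rw [P.ord_mul he (mul_ne_zero he hM), P.ord_mul he hM, heP] at h7
      linarith)
  rw [finsum_zero] at h1
  linarith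

end

end Pool.Agent.H435.ST
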