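import Pool.Agent.H435.ST.Two
import Pool.Graph.R_seed8.Y741.KComb

/-!
The degree of a curve in a generic sextic threefold: the plane or the line that is attached to its
points if the vectors of the linear group are vertical.
-/

set_option autoImplicit false

open MvPolynomial FF Pool.Agent.W603.LV Pool.Agent.W603.PV Pool.Agent.TH145.GH
open Pool.Agent.Y735 (lf lf_apply lf_hom eval_lf pm lf_pm sum_pm eval_pm pl po po_le exists_po fht
  fht_nonneg sum_two po_finite DD DD_apply vec vec_apply vec_scale wv dF_vec alt_tri ge_DD ge_lf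
  ge_coeff_mul)
open Pool.Agent.W602.GT

namespace Pool.Agent.H435.ST

open Pool.Agent.H435.QL (GeM)
open Pool.Agent.H435.VG (fun_eval lin_hom ge_po le_po po_prod fht_prod)

/-- Triples of indices. -/
abbrev T3 : Type := Fin (4 + 1) × Fin (4 + 1) × Fin (4 + 1)

/-- The coordinates of a plane through a point. -/
structure Pln {L : Type} [Field L] (x : Fin (4 + 1) → L) (Y : T3 → L) : Prop where
  ne : Y ≠ 0
  rel : ∀ a b c e, x a * Y (b, c, e) - x b * Y (a, c, e) + x c * Y (a, b, e) -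
    x e * Y (a, b, c) = 0

section

variable {k L : Type} [Field k] [Field L] [Algebra k L] {F : MvPolynomial (Fin (4 + 1)) L}
  {D : (Fin (4 + 1) →₀ ℕ) → Derivation ℤ L L} {δ : Derivation k L L} {x : Fin (4 + 1) → L}
  {i0 : Fin (4 + 1)}

/-- The vector field of the product of a form with a basic linear form. -/
noncomputable def Sv (D : (Fin (4 + 1) →₀ ℕ) → Derivation ℤ L L) (x : Fin (4 + 1) → L)
    (i0 : Fin (4 + 1)) (P : MvPolynomial (Fin (4 + 1)) L) (b : Fin (4 + 1)) : Fin (4 + 1) → L :=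
  vec D x (lf (pm x i0 b) * P)

/-- The coordinates of the plane of a form. -/
noncomputable def Xi (D : (Fin (4 + 1) →₀ ℕ) → Derivation ℤ L L) (δ : Derivation k L L)
    (x : Fin (4 + 1) → L) (i0 : Fin (4 + 1)) (P : MvPolynomial (Fin (4 + 1)) L) (q : T3) : L :=
  x q.1 * Ox D 6 δ x i0 (Sv D x i0 P q.2.1) (Sv D x i0 P q.2.2) -
    x q.2.1 * Ox D 6 δ x i0 (Sv D x i0 P q.1) (Sv D x i0 P q.2.2) +
    x q.2.2 * Ox D 6 δ x i0 (Sv D x i0 P q.1) (Sv D x i0 P q.2.1)

theorem Sv_i0 (P : MvPolynomial (Fin (4 + 1)) L) : Sv D x i0 P i0 = 0 := by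
  unfold Sv
  have h1 : pm x i0 i0 = 0 := by
    funext l
    simp [pm]
  rw [h1, map_zero, zero_mul, map_zero]

theorem Sv_add (P Q : MvPolynomial (Fin (4 + 1)) L) (b : Fin (4 + 1)) :
    Sv D x i0 (P + Q) b = Sv D x i0 P b + Sv D x i0 Q b := by
  unfold Sv
  rw [mul_add, map_add]

theorem pm_comb (hx1 : x i0 = 1) (a b : Fin (4 + 1)) :
    pm x a b = x a • pm x i0 b - x b • pm x i0 a := by
  funext l
  simp only [pm, Pi.sub_apply, Pi.smul_apply, smul_eq_mul, hx1]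
  by_cases h1 : l = b
  · by_cases h2 : l = a
    · simp only [if_pos h1, if_pos h2]
      split_ifs <;> ring
    · simp only [if_pos h1, if_neg h2]
      split_ifs <;> ring
  · by_cases h2 : l = a
    · simp only [if_neg h1, if_pos h2]
      split_ifs <;> ring
    · simp only [if_neg h1, if_neg h2]
      split_ifs <;> ring

theorem vec_pm (hx1 : x i0 = 1) (P : MvPolynomial (Fin (4 + 1)) L) (a b : Fin (4 + 1)) :
    vec D x (lf (pm x a b) * P) = x a • Sv D x i0 P b - x b • Sv D x i0 P a := by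
  unfold Sv
  rw [pm_comb hx1 a b, map_sub, map_smul, map_smul, sub_mul, smul_mul_assoc, smul_mul_assoc,
    map_sub, map_smul, map_smul]

theorem Xi_mul (hx1 : x i0 = 1) (P : MvPolynomial (Fin (4 + 1)) L) (a b c : Fin (4 + 1)) :
    Ox D 6 δ x i0 (vec D x (lf (pm x a b) * P)) (vec D x (lf (pm x a c) * P)) =
      x a * Xi D δ x i0 P (a, b, c) := by
  rw [vec_pm hx1, vec_pm hx1]
  simp only [map_sub, map_smul, LinearMap.sub_apply, LinearMap.smul_apply, smul_eq_mul, Xi]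
  have h1 := Ox_swap (D := D) (d := 6) (δ := δ) (x := x) (i0 := i0) (Sv D x i0 P b)
    (Sv D x i0 P a)
  have h2 := Ox_self (D := D) (d := 6) (δ := δ) (x := x) (i0 := i0) (Sv D x i0 P a)
  linear_combination (-(x a * x c)) * h1 + x b * x c * h2

theorem Xi_rel (P : MvPolynomial (Fin (4 + 1)) L) (a b c e : Fin (4 + 1)) :
    x a * Xi D δ x i0 P (b, c, e) - x b * Xi D δ x i0 P (a, c, e) +
      x c * Xi D δ x i0 P (a, b, e) - x e * Xi D δ x i0 P (a, b, c) = 0 := by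
  simp only [Xi]
  ring

theorem Xi_i0 (hx1 : x i0 = 1) (P : MvPolynomial (Fin (4 + 1)) L) (b c : Fin (4 + 1)) :
    Xi D δ x i0 P (i0, b, c) = Ox D 6 δ x i0 (Sv D x i0 P b) (Sv D x i0 P c) := by
  simp only [Xi, Sv_i0, map_zero, LinearMap.zero_apply, hx1]
  ring

end

section

variable {k L : Type} [Field k] [Field L] [Algebra k L] [IsAlgClosed k] [CharZero k] [IsFF k L]
  {F : MvPolynomial (Fin (4 + 1)) L}
  {D : (Fin (4 + 1) →₀ ℕ) → Derivation ℤ L L} {δ : Derivation k L L} {x : Fin (4 + 1) → L}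
  {i0 : Fin (4 + 1)}

omit [IsAlgClosed k] [CharZero k] [IsFF k L] in
theorem ge_cancel (P : Place k L) {f g : L} {c : ℤ} (hf : f ≠ 0)
    (h : Ge P (c + P.ord f) (f * g)) : Ge P c g := by
  rcases h with h | h
  · exact Or.inl ((mul_eq_zero.1 h).resolve_left hf)
  · by_cases hg : g = 0
    · exact Or.inl hg
    · right
      rw [P.ord_mul hf hg] at h
      linarith

/-- A plane of small height. -/
theorem Cv.caseP (h : Cv k F 6 D δ x i0) (hx1 : x i0 = 1) {P : MvPolynomial (Fin (4 + 1)) L}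
    (hP : P.IsHomogeneous (6 - 1)) (hP0 : ∀ Q : Place k L, GeM Q 0 P)
    (hne : Xi D δ x i0 P ≠ 0) : ∃ Y, Pln x Y ∧ fht k Y ≤ canDeg k L := by
  refine ⟨Xi D δ x i0 P, ⟨hne, Xi_rel P⟩, ?_⟩
  have hx0 : x ≠ 0 := by
    rintro rfl
    exact h.ne rfl
  have h1 := h.deg_fam hne (r := 1) fun Q q => by
    obtain ⟨a, b, c⟩ := q
    obtain ⟨e, he, heP⟩ := exists_pord Q (Function.ne_iff.1 hx0)
    have h2 : ∀ b c, Ge Q ((5 - (6 : ℕ)) * pord Q x + vo Q δ + (6 : ℕ) * Q.ord (x i0) +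
        1 * pord Q x) (Xi D δ x i0 P (e, b, c)) := by
      intro b c
      have h3 := h.ge_Ox Q (h.sec_lf Q e b hP (hP0 Q)) (h.sec_lf Q e c hP (hP0 Q))
      rw [Xi_mul hx1] at h3
      refine ge_cancel Q he (h3.mono ?_)
      rw [heP]
      linarith
    have h4 := Xi_rel (D := D) (δ := δ) (x := x) (i0 := i0) P e a b c
    have h5 : x e * Xi D δ x i0 P (a, b, c) = x a * Xi D δ x i0 P (e, b, c) -
        x b * Xi D δ x i0 P (e, a, c) + x c * Xi D δ x i0 P (e, a, b) := by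
      linear_combination h4
    have h6 := (((ge_pord Q x a).mul (h2 b c)).sub ((ge_pord Q x b).mul (h2 a c))).add
      ((ge_pord Q x c).mul (h2 a b))
    rw [← h5] at h6
    refine ge_cancel Q he (h6.mono ?_)
    rw [heP]
    linarith
  push_cast at h1
  linarith

/-- The line in the case in which there is no plane. -/
theorem Cv.caseL (h : Cv k F 6 D δ x i0) (hx1 : x i0 = 1)
    (hU : ∀ pq w, dF F x w = 0 → Ox D 6 δ x i0 (wv F D x pq) w = 0)
    (hX : ∀ P : MvPolynomial (Fin (4 + 1)) L, P.IsHomogeneous (6 - 1) →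
      (∀ Q : Place k L, GeM Q 0 P) → Xi D δ x i0 P = 0) :
    ∃ (y : Fin (4 + 1) → L) (b1 : Fin (4 + 1)) (J1 J2 : Fin (4 + 1) →₀ ℕ), J1.degree = 6 - 1 ∧
      J2.degree = 6 - 1 ∧ y i0 = 0 ∧ y b1 = 1 ∧
      Ox D 6 δ x i0 (Sv D x i0 (monomial J1 1) b1) (Sv D x i0 (monomial J2 1) b1) ≠ 0 ∧
      ∀ J : Fin (4 + 1) →₀ ℕ, J.degree = 6 - 1 → ∀ m : Fin (4 + 1) → L, ∑ l, m l * x l = 0 →
        ∃ A B : L, vec D x (lf m * monomial J 1) =
          (∑ l, m l * y l) • Sv D x i0 (monomial J 1) b1 + A • x + B • fun l => δ (x l) := by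
  classical
  have hmonh : ∀ J : Fin (4 + 1) →₀ ℕ, J.degree = 6 - 1 →
      (monomial J 1 : MvPolynomial (Fin (4 + 1)) L).IsHomogeneous (6 - 1) := fun J hJ =>
    isHomogeneous_monomial (1 : L) hJ
  have hi : ∀ (J : Fin (4 + 1) →₀ ℕ), J.degree = 6 - 1 → ∀ b c,
      Ox D 6 δ x i0 (Sv D x i0 (monomial J 1) b) (Sv D x i0 (monomial J 1) c) = 0 := by
    intro J hJ b c
    rw [← Xi_i0 hx1, hX _ (hmonh J hJ) fun Q => GeM_mon Q J]
    rfl
  have hii : ∀ (J J' : Fin (4 + 1) →₀ ℕ), J.degree = 6 - 1 → J'.degree = 6 - 1 → ∀ b c,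
      Ox D 6 δ x i0 (Sv D x i0 (monomial J 1) b) (Sv D x i0 (monomial J' 1) c) =
        - Ox D 6 δ x i0 (Sv D x i0 (monomial J' 1) b) (Sv D x i0 (monomial J 1) c) := by
    intro J J' hJ hJ' b c
    have h1 : Ox D 6 δ x i0 (Sv D x i0 (monomial J 1 + monomial J' 1) b)
        (Sv D x i0 (monomial J 1 + monomial J' 1) c) = 0 := by
      rw [← Xi_i0 hx1, hX _ ((hmonh J hJ).add (hmonh J' hJ')) fun Q u => by
        rw [coeff_add]
        exact (GeM_mon Q J u).add (GeM_mon Q J' u)]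
      rfl
    rw [Sv_add, Sv_add] at h1
    simp only [map_add, LinearMap.add_apply] at h1
    rw [hi J hJ, hi J' hJ'] at h1
    linear_combination h1
  have htan : ∀ (J : Fin (4 + 1) →₀ ℕ), J.degree = 6 - 1 → ∀ b,
      dF F x (Sv D x i0 (monomial J 1) b) = 0 := fun J hJ b =>
    (h.lf_vec i0 b (hmonh J hJ)).2
  -- two vectors with a positive volume
  obtain ⟨v0, w0, hv0, hw0, hvw⟩ := h.exists_pair
  obtain ⟨b1, J1, hJ1, hs1⟩ : ∃ (b : Fin (4 + 1)) (J : Fin (4 + 1) →₀ ℕ), J.degree = 6 - 1 ∧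
      Ox D 6 δ x i0 w0 (Sv D x i0 (monomial J 1) b) ≠ 0 := by
    by_contra hcon
    push Not at hcon
    have h1 := h.gen (T := Ox D 6 δ x i0 w0) (fun pq => by
      rw [Ox_swap, hU pq w0 hw0, neg_zero]) (fun b J hJ => hcon b J hJ) hv0
    apply hvw
    rw [Ox_swap, h1, neg_zero]
  obtain ⟨b2, J2, hJ2, hs2⟩ : ∃ (b : Fin (4 + 1)) (J : Fin (4 + 1) →₀ ℕ), J.degree = 6 - 1 ∧
      Ox D 6 δ x i0 (Sv D x i0 (monomial J1 1) b1) (Sv D x i0 (monomial J 1) b) ≠ 0 := by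
    by_contra hcon
    push Not at hcon
    have h1 := h.gen (T := Ox D 6 δ x i0 (Sv D x i0 (monomial J1 1) b1)) (fun pq => by
      rw [Ox_swap, hU pq _ (htan J1 hJ1 b1), neg_zero]) (fun b J hJ => hcon b J hJ) hw0
    apply hs1
    rw [Ox_swap, h1, neg_zero]
  obtain ⟨s1, hs1d⟩ : ∃ s1, s1 = Sv D x i0 (monomial J1 1) b1 := ⟨_, rfl⟩
  obtain ⟨s2, hs2d⟩ : ∃ s2, s2 = Sv D x i0 (monomial J2 1) b2 := ⟨_, rfl⟩
  have ht1 : dF F x s1 = 0 := by rw [hs1d]; exact htan J1 hJ1 b1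
  have ht2 : dF F x s2 = 0 := by rw [hs2d]; exact htan J2 hJ2 b2
  obtain ⟨Δ, hΔ⟩ : ∃ Δ, Δ = Ox D 6 δ x i0 s1 s2 := ⟨_, rfl⟩
  have hΔ0 : Δ ≠ 0 := by
    rw [hΔ, hs1d, hs2d]
    exact hs2
  have hΔ' : Ox D 6 δ x i0 s2 s1 = -Δ := by rw [Ox_swap, hΔ]
  have hxs : ∀ v, Ox D 6 δ x i0 x v = 0 := fun v => by rw [Ox_swap, Ox_x, neg_zero]
  have hds : ∀ v, Ox D 6 δ x i0 (fun l => δ (x l)) v = 0 := fun v => by
    rw [Ox_swap, Ox_del, neg_zero]
  -- the coordinates with respect to the two vectors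
  have hco : ∀ v, dF F x v = 0 → ∃ α β : L, v = α • x + β • (fun l => δ (x l)) +
      (Ox D 6 δ x i0 v s2 / Δ) • s1 + (-(Ox D 6 δ x i0 v s1) / Δ) • s2 := by
    intro v hv
    obtain ⟨α, β, γ, ε, hvd⟩ := h.two ht1 ht2 hv (by rw [← hΔ]; exact hΔ0)
    have h1 : Ox D 6 δ x i0 v s2 = γ * Δ := by
      rw [hvd]
      simp only [map_add, map_smul, LinearMap.add_apply, LinearMap.smul_apply, smul_eq_mul]
      rw [hxs, hds, Ox_self, hΔ]
      ring
    have h2 : Ox D 6 δ x i0 v s1 = -(ε * Δ) := by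
      rw [hvd]
      simp only [map_add, map_smul, LinearMap.add_apply, LinearMap.smul_apply, smul_eq_mul]
      rw [hxs, hds, Ox_self, hΔ']
      ring
    refine ⟨α, β, ?_⟩
    rw [h1, h2, neg_neg, mul_div_cancel_right₀ _ hΔ0, mul_div_cancel_right₀ _ hΔ0]
    exact hvd
  -- the second point of the line
  obtain ⟨y, hy⟩ : ∃ y : Fin (4 + 1) → L,
    ∀ b, y b = Ox D 6 δ x i0 (Sv D x i0 (monomial J1 1) b) s2 / Δ := ⟨_, fun _ => rfl⟩
  have hyi : y i0 = 0 := by
    rw [hy, Sv_i0, map_zero, LinearMap.zero_apply, zero_div]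
  have hyb : y b1 = 1 := by
    rw [hy, ← hs1d, ← hΔ, div_self hΔ0]
  -- the first form
  have e1 : ∀ b w, Ox D 6 δ x i0 (Sv D x i0 (monomial J1 1) b) w = y b * Ox D 6 δ x i0 s1 w := by
    intro b w
    obtain ⟨α, β, hv⟩ := hco _ (htan J1 hJ1 b)
    have h1 : Ox D 6 δ x i0 (Sv D x i0 (monomial J1 1) b) s1 = 0 := by
      rw [hs1d]
      exact hi J1 hJ1 b b1
    rw [h1, neg_zero, zero_div, zero_smul, add_zero, ← hy] at hv
    rw [hv]
    simp only [map_add, map_smul, LinearMap.add_apply, LinearMap.smul_apply, smul_eq_mul]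
    rw [hxs, hds]
    ring
  have e2 : ∀ (J : Fin (4 + 1) →₀ ℕ), J.degree = 6 - 1 → ∀ b,
      Ox D 6 δ x i0 (Sv D x i0 (monomial J 1) b) s1 =
        y b * Ox D 6 δ x i0 (Sv D x i0 (monomial J 1) b1) s1 := by
    intro J hJ b
    have h1 := hii J J1 hJ hJ1 b b1
    rw [← hs1d, e1, Ox_swap s1] at h1
    linear_combination h1
  -- the second form
  have e3 : Ox D 6 δ x i0 s2 s1 = y b2 * Ox D 6 δ x i0 (Sv D x i0 (monomial J2 1) b1) s1 := by
    have h1 := e2 J2 hJ2 b2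
    rw [← hs2d] at h1
    exact h1
  have hyb2 : y b2 ≠ 0 := by
    intro h0
    rw [h0, zero_mul, hΔ'] at e3
    exact hΔ0 (neg_eq_zero.1 e3)
  have e4 : ∀ b w, y b2 * Ox D 6 δ x i0 (Sv D x i0 (monomial J2 1) b) w =
      y b * Ox D 6 δ x i0 s2 w := by
    intro b w
    obtain ⟨α, β, hv⟩ := hco _ (htan J2 hJ2 b)
    have h1 : Ox D 6 δ x i0 (Sv D x i0 (monomial J2 1) b) s2 = 0 := by
      rw [hs2d]
      exact hi J2 hJ2 b b2
    rw [h1, zero_div, zero_smul, add_zero, e2 J2 hJ2 b] at hv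
    rw [hv]
    simp only [map_add, map_smul, LinearMap.add_apply, LinearMap.smul_apply, smul_eq_mul]
    rw [hxs, hds]
    rw [hΔ'] at e3
    have h2 : y b2 * (-(y b * Ox D 6 δ x i0 (Sv D x i0 (monomial J2 1) b1) s1) / Δ) = y b := by
      field_simp
      linear_combination (y b) * e3
    linear_combination (Ox D 6 δ x i0 s2 w) * h2
  have e5 : ∀ (J : Fin (4 + 1) →₀ ℕ), J.degree = 6 - 1 → ∀ b,
      Ox D 6 δ x i0 (Sv D x i0 (monomial J 1) b) s2 =
        y b * Ox D 6 δ x i0 (Sv D x i0 (monomial J 1) b1) s2 := by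
    intro J hJ b
    -- the value at the vector over `b1`
    have h1 := hii J J2 hJ hJ2 b b1
    have h2 := e4 b (Sv D x i0 (monomial J 1) b1)
    have h3 := e4 b1 (Sv D x i0 (monomial J 1) b)
    rw [hyb, one_mul] at h3
    have h4 := Ox_swap (D := D) (d := 6) (δ := δ) (x := x) (i0 := i0)
      (Sv D x i0 (monomial J 1) b) (Sv D x i0 (monomial J2 1) b1)
    have h5 := Ox_swap (D := D) (d := 6) (δ := δ) (x := x) (i0 := i0)
      (Sv D x i0 (monomial J 1) b) s2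
    have h6 := Ox_swap (D := D) (d := 6) (δ := δ) (x := x) (i0 := i0)
      (Sv D x i0 (monomial J 1) b1) s2
    linear_combination h5 - y b * h6 + h3 - y b2 * h4 + y b2 * h1 - h2
  have e6 : ∀ (J : Fin (4 + 1) →₀ ℕ), J.degree = 6 - 1 → ∀ b, ∃ A B : L,
      Sv D x i0 (monomial J 1) b = y b • Sv D x i0 (monomial J 1) b1 + A • x +
        B • fun l => δ (x l) := by
    intro J hJ b
    obtain ⟨α, β, hv⟩ := hco (Sv D x i0 (monomial J 1) b - y b • Sv D x i0 (monomial J 1) b1) (by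
      rw [Pool.Agent.TH145.GC.dF_sub, dF_smul, htan J hJ, htan J hJ, mul_zero, sub_zero])
    have h1 : Ox D 6 δ x i0 (Sv D x i0 (monomial J 1) b - y b • Sv D x i0 (monomial J 1) b1) s1 =
        0 := by
      rw [map_sub, map_smul, LinearMap.sub_apply, LinearMap.smul_apply, smul_eq_mul, e2 J hJ b,
        sub_self]
    have h2 : Ox D 6 δ x i0 (Sv D x i0 (monomial J 1) b - y b • Sv D x i0 (monomial J 1) b1) s2 =
        0 := by
      rw [map_sub, map_smul, LinearMap.sub_apply, LinearMap.smul_apply, smul_eq_mul, e5 J hJ b,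
        sub_self]
    rw [h1, h2, neg_zero, zero_div, zero_smul, zero_smul, add_zero, add_zero] at hv
    refine ⟨α, β, ?_⟩
    rw [add_assoc, ← hv]
    abel
  refine ⟨y, b1, J1, J2, hJ1, hJ2, hyi, hyb, ?_, ?_⟩
  · intro h0
    apply hΔ0
    have h1 := e4 b1 s1
    rw [← hs1d] at h0
    rw [Ox_swap (Sv D x i0 (monomial J2 1) b1), h0, neg_zero, mul_zero, hyb, one_mul, hΔ'] at h1
    exact neg_eq_zero.1 h1.symm
  · intro J hJ m hm
    choose A B hAB using e6 J hJ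
    refine ⟨∑ b, m b / x i0 * A b, ∑ b, m b / x i0 * B b, ?_⟩
    rw [lf_comb h.ne hm, Finset.sum_mul, map_sum]
    have h1 : ∀ b, vec D x ((m b / x i0) • lf (pm x i0 b) * monomial J 1) =
        (m b * y b) • Sv D x i0 (monomial J 1) b1 + (m b / x i0 * A b) • x +
          (m b / x i0 * B b) • fun l => δ (x l) := by
      intro b
      rw [smul_mul_assoc, map_smul]
      have h2 : vec D x (lf (pm x i0 b) * monomial J 1) = Sv D x i0 (monomial J 1) b := rfl
      rw [h2, hAB b, smul_add, smul_add, smul_smul, smul_smul, smul_smul, hx1, div_one]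
    rw [Finset.sum_congr rfl fun b _ => h1 b, Finset.sum_add_distrib, Finset.sum_add_distrib,
      Finset.sum_smul, Finset.sum_smul, Finset.sum_smul]

end

end Pool.Agent.H435.ST
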