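import Pool.Agent.H435.ST.One
import Pool.Graph.R_seed8.TH145.GH.DataE

/-!
The degree of a curve in a generic sextic threefold: the first two cases.
-/

set_option autoImplicit false

open MvPolynomial FF Pool.Agent.W603.LV Pool.Agent.W603.PV Pool.Agent.TH145.GH
open Pool.Agent.Y735 (lf lf_apply lf_hom eval_lf pm lf_pm sum_pm eval_pm pl po po_le exists_po fht
  fht_nonneg sum_two po_finite DD DD_apply vec vec_apply vec_scale wv dF_vec alt_tri ge_DD ge_lf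
  ge_coeff_mul)
open Pool.Agent.W602.GT

namespace Pool.Agent.H435.ST

open Pool.Agent.H435.QL (GeM)
open Pool.Agent.H435.VG (fun_eval lin_hom ge_po le_po po_prod fht_prod)

section

variable {k L : Type} [Field k] [Field L] [Algebra k L] [IsAlgClosed k] [CharZero k] [IsFF k L]
  {F : MvPolynomial (Fin (4 + 1)) L}
  {D : (Fin (4 + 1) →₀ ℕ) → Derivation ℤ L L} {δ : Derivation k L L} {x : Fin (4 + 1) → L}
  {i0 : Fin (4 + 1)}

theorem GeM_mon (P : Place k L) (J : Fin (4 + 1) →₀ ℕ) :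
    GeM P 0 (monomial J 1 : MvPolynomial (Fin (4 + 1)) L) := by
  classical
  intro u
  rw [coeff_monomial]
  split_ifs
  · exact Ge.one
  · exact Ge.zero

/-- The case in which a vector of the linear group is not vertical. -/
theorem Cv.caseB (h : Cv k F 6 D δ x i0)
    (hww : ∀ pq pq', Ox D 6 δ x i0 (wv F D x pq) (wv F D x pq') = 0)
    {pq0 : Fin (4 + 1) × Fin (4 + 1)} {w0 : Fin (4 + 1) → L} (hw0 : dF F x w0 = 0)
    (hne : Ox D 6 δ x i0 (wv F D x pq0) w0 ≠ 0) :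
    pht k x ≤ 2 * canDeg k L ∨ ∃ y : Fin (4 + 1) → L, pl x y ≠ 0 ∧
      fht k (pl x y) ≤ canDeg k L := by
  classical
  have hx0 : x ≠ 0 := by
    rintro rfl
    exact h.ne rfl
  obtain ⟨T, hT⟩ : ∃ T : (Fin (4 + 1) → L) →ₗ[L] L, T = Ox D 6 δ x i0 (wv F D x pq0) := ⟨_, rfl⟩
  have hTw : ∀ pq, T (wv F D x pq) = 0 := fun pq => by rw [hT]; exact hww _ _
  obtain ⟨b0, J0, hJ0, hΦ0⟩ : ∃ (b : Fin (4 + 1)) (J : Fin (4 + 1) →₀ ℕ), J.degree = 6 - 1 ∧
      Ph T D x (monomial J 1) i0 b ≠ 0 := by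
    by_contra hcon
    push Not at hcon
    apply hne
    have h1 := h.gen hTw hcon hw0
    rw [hT] at h1
    exact h1
  have hfd := finite_deg 4 (6 - 1)
  obtain ⟨y, hy⟩ : ∃ y, y = Yx T D x i0 (monomial J0 1) := ⟨_, rfl⟩
  have hpl : pl x y (i0, b0) ≠ 0 := by
    rw [hy, ← Ph_eq T h.ne]
    exact hΦ0
  have hpl0 : pl x y ≠ 0 := fun h0 => hpl (by rw [h0]; rfl)
  have hyi : y i0 = 0 := by rw [hy, Yx_i0]
  have hge : ∀ (P : Place k L) (a b : Fin (4 + 1)) (J : Fin (4 + 1) →₀ ℕ), J.degree = 6 - 1 →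
      Ge P ((5 - (6 : ℕ)) * pord P x + vo P δ + (6 : ℕ) * P.ord (x i0) + 1 * pord P x)
        (Ph T D x (monomial J 1) a b) := by
    intro P a b J hJ
    have h1 := h.ge_Ox P (h.sec_wv P pq0)
      (h.sec_lf P a b (isHomogeneous_monomial (1 : L) hJ) (GeM_mon P J))
    unfold Ph
    rw [hT]
    exact h1.mono (by linarith)
  by_cases hM : ∃ (J : Fin (4 + 1) →₀ ℕ) (a b c : Fin (4 + 1)), J.degree = 6 - 1 ∧
    x a * (y b * Yx T D x i0 (monomial J 1) c - y c * Yx T D x i0 (monomial J 1) b) -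
      x b * (y a * Yx T D x i0 (monomial J 1) c - y c * Yx T D x i0 (monomial J 1) a) +
      x c * (y a * Yx T D x i0 (monomial J 1) b - y b * Yx T D x i0 (monomial J 1) a) ≠ 0
  · -- two lines
    left
    obtain ⟨J, a, b, c, hJ, hM⟩ := hM
    obtain ⟨Θ, hΘ⟩ : ∃ Θ : (Fin (4 + 1) × Fin (4 + 1)) × {J : Fin (4 + 1) →₀ ℕ //
        J.degree = 6 - 1} → L, ∀ q, Θ q = Ph T D x (monomial q.2.1 1) q.1.1 q.1.2 :=
      ⟨_, fun _ => rfl⟩
    have hΘ0 : Θ ≠ 0 := by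
      intro h0
      apply hΦ0
      have h1 := congrFun h0 ((i0, b0), ⟨J0, hJ0⟩)
      rw [hΘ] at h1
      exact h1
    have h1 := h.deg_fam hΘ0 (r := 1) fun P j => by
      rw [hΘ]
      exact hge P _ _ _ j.2.2
    have h2 := two_lines (k := k) hΘ0 hx0 (y := y) (z := Yx T D x i0 (monomial J 1))
      (fun q => ⟨(q, ⟨J0, hJ0⟩), by rw [hΘ, Ph_eq T h.ne, hy]⟩)
      (fun q => ⟨(q, ⟨J, hJ⟩), by rw [hΘ, Ph_eq T h.ne]⟩) hM
    push_cast at h1
    linarith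
  push Not at hM
  right
  obtain ⟨b1, hb1⟩ : ∃ b1, y b1 ≠ 0 := by
    by_contra hcon
    push Not at hcon
    apply hpl
    simp only [pl]
    rw [hcon, hcon]
    ring
  have hprop : ∀ J : Fin (4 + 1) →₀ ℕ, J.degree = 6 - 1 → ∀ l,
      Yx T D x i0 (monomial J 1) l = Yx T D x i0 (monomial J 1) b1 / y b1 * y l := by
    intro J hJ l
    have h1 := hM J i0 b1 l hJ
    have h2 : Yx T D x i0 (monomial J 1) i0 = 0 := Yx_i0 T _
    rw [h2, hyi] at h1
    have h3 : x i0 * (y b1 * Yx T D x i0 (monomial J 1) l -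
        y l * Yx T D x i0 (monomial J 1) b1) = 0 := by
      linear_combination h1
    have h4 := (mul_eq_zero.1 h3).resolve_left h.ne
    field_simp
    linear_combination h4
  obtain ⟨g, hg⟩ : ∃ g : {J : Fin (4 + 1) →₀ ℕ // J.degree = 6 - 1} → L,
    ∀ J, g J = Yx T D x i0 (monomial J.1 1) b1 / y b1 := ⟨_, fun _ => rfl⟩
  have hcJ0 : g ⟨J0, hJ0⟩ ≠ 0 := by
    rw [hg, ← hy]
    exact div_ne_zero hb1 hb1
  have hg0 : g ≠ 0 := by
    intro h0
    apply hcJ0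
    rw [h0]
    rfl
  refine ⟨y, hpl0, ?_⟩
  have hΘ0 : (fun q : (Fin (4 + 1) × Fin (4 + 1)) × {J : Fin (4 + 1) →₀ ℕ //
      J.degree = 6 - 1} => pl x y q.1 * g q.2) ≠ 0 := by
    intro h0
    have h1 : pl x y (i0, b0) * g ⟨J0, hJ0⟩ = 0 := congrFun h0 ((i0, b0), ⟨J0, hJ0⟩)
    exact mul_ne_zero hpl hcJ0 h1
  have h1 := h.deg_fam hΘ0 (r := 1) fun P j => by
    have h2 : pl x y j.1 * g j.2 = Ph T D x (monomial j.2.1 1) j.1.1 j.1.2 := by
      rw [Ph_eq T h.ne, hg]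
      simp only [pl]
      rw [hprop _ j.2.2 j.1.2, hprop _ j.2.2 j.1.1]
      ring
    rw [h2]
    exact hge P _ _ _ j.2.2
  rw [fht_prod hpl0 hg0] at h1
  have h3 : 0 ≤ fht k g := fht_nonneg hg0
  push_cast at h1
  linarith

end

end Pool.Agent.H435.ST
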