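import Pool.Agent.H435.ST.Fiv
import Pool.Graph.R_seed8.W619.TW.Upper

/-!
An upper bound for the number of the conditions for a plane curve in a generic threefold.
-/

set_option autoImplicit false
set_option linter.unusedSectionVars false

open MvPolynomial FF Pool.Agent.W603.LV Pool.Agent.W603.PV Pool.Agent.TH145.GH
open Pool.Agent.Y735 (lf lf_apply lf_hom eval_lf pm lf_pm sum_pm eval_pm pl po po_le exists_po fht
  fht_nonneg sum_two po_finite DD DD_apply vec vec_apply vec_scale wv dF_vec)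
open Pool.Agent.W602.GT Pool.Agent.TH145.GF
open Pool.Agent.Y741 (Comm pht_nonneg div_one)
open Pool.Agent.W619.TW (finrank_LL_le)

namespace Pool.Agent.H435.ST

section

variable {k L : Type} [Field k] [Field L] [Algebra k L] [IsAlgClosed k] [CharZero k] [IsFF k L]

/-- The determinant of three vectors. -/
def det3 (a b c : Fin (2 + 1) → L) : L :=
  a 0 * (b 1 * c 2 - b 2 * c 1) - a 1 * (b 0 * c 2 - b 2 * c 0) + a 2 * (b 0 * c 1 - b 1 * c 0)

theorem ge_det (P : Place k L) {a b c : Fin (2 + 1) → L} (ha : ∀ l, Ge P 0 (a l))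
    (hb : ∀ l, Ge P 0 (b l)) (hc : ∀ l, Ge P 0 (c l)) : Ge P 0 (det3 a b c) := by
  have h1 : ∀ {u v : L}, Ge P 0 u → Ge P 0 v → Ge P 0 (u * v) := fun hu hv => by
    have h := hu.mul hv
    rwa [add_zero] at h
  unfold det3
  exact ((h1 (ha 0) ((h1 (hb 1) (hc 2)).sub (h1 (hb 2) (hc 1)))).sub
    (h1 (ha 1) ((h1 (hb 0) (hc 2)).sub (h1 (hb 2) (hc 0))))).add
    (h1 (ha 2) ((h1 (hb 0) (hc 1)).sub (h1 (hb 1) (hc 0))))

/-- The order of the determinant at a place. -/
theorem ge_det3 (P : Place k L) {E : Derivation ℤ L L} (hE : Sem k E) {δ : Derivation k L L}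
    (hδ : δ ≠ 0) {z : Fin (2 + 1) → L} (hz : z ≠ 0) :
    Ge P (3 * pord P z + vo P δ) (det3 z (fun l => δ (z l)) fun l => E (z l)) := by
  obtain ⟨lam, z', hlam, hlamP, hzz, hz', i1, hi1⟩ := exists_scaled P hz
  have hFF : IsFF k L := inferInstance
  have htr : Algebra.trdeg k L = (1 : ℕ) := by rw [hFF.trdeg, Nat.cast_one]
  have hπ := ord_unif P
  have hδπ := der_pi_ne_zero hδ P hπ
  have hπt : Transcendental k (unif P) := P.transcendental_of_ord_ne (by omega)
  obtain ⟨ξ, hξ⟩ := exists_lift one_pos htr (div_one P) hE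
  obtain ⟨c, hc⟩ : ∃ c, ∀ f, ξ f = c * δ f := by
    refine ⟨ξ (unif P) / δ (unif P), fun f => ?_⟩
    obtain ⟨c, hc⟩ := ratio hπt f
    rw [hc ξ, hc δ]
    field_simp
  obtain ⟨E', hE'⟩ : ∃ E' : Derivation ℤ L L, ∀ f, E f = E' f + c * δ f :=
    ⟨E - ξ.restrictScalars ℤ, fun f => by simp [hc]⟩
  have hE'P : ∀ f, Ge P 0 f → Ge P 0 (E' f) := by
    intro f hf
    rcases eq_or_ne f 0 with rfl | hf0
    · rw [map_zero]
      exact Ge.zero
    · have h1 := hξ f hf0
      have h2 : E' f = E f - ξ f := by rw [hE', hc]; ring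
      rw [h2]
      exact h1.mono (hf.resolve_left hf0)
  obtain ⟨δ', hδ'⟩ : ∃ δ' : Derivation k L L, δ' = (δ (unif P))⁻¹ • δ := ⟨_, rfl⟩
  have hδ'a : ∀ f, δ f = δ (unif P) * δ' f := fun f => by
    rw [hδ', Derivation.coe_smul, Pi.smul_apply, smul_eq_mul, mul_inv_cancel_left₀ hδπ]
  have hreg : ∀ f, Ge P 0 f → Ge P 0 (δ' f) := fun f hf =>
    der_reg P hπ δ' (by rw [hδ']; simp [hδπ]) hf
  have hzl : ∀ l, z l = lam * z' l := fun l => by
    conv_lhs => rw [hzz]
    rfl
  have hδz : ∀ l, δ (z l) = lam * (δ (unif P) * δ' (z' l)) + z' l * δ lam := fun l => by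
    rw [hzl, δ.leibniz, ← hδ'a]
    simp only [smul_eq_mul]
  have hEz : ∀ l, E (z l) = lam * (E' (z' l) + c * (δ (unif P) * δ' (z' l))) + z' l * E lam :=
    fun l => by
    rw [hzl, E.leibniz, hE' (z' l), ← hδ'a]
    simp only [smul_eq_mul]
  have h1 : det3 z (fun l => δ (z l)) (fun l => E (z l)) =
      (lam * lam * (lam * δ (unif P))) *
        det3 z' (fun l => δ' (z' l)) fun l => E' (z' l) := by
    unfold det3
    simp only [hδz, hEz]
    rw [hzl 0, hzl 1, hzl 2]
    ring
  rw [h1]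
  have h5 : Ge P (3 * pord P z + vo P δ) (lam * lam * (lam * δ (unif P))) := by
    right
    rw [P.ord_mul (mul_ne_zero hlam hlam) (mul_ne_zero hlam hδπ), P.ord_mul hlam hlam,
      P.ord_mul hlam hδπ, hlamP]
    unfold vo
    omega
  have h6 := h5.mul (ge_det P hz' (fun l => hreg _ (hz' l)) fun l => hE'P _ (hz' l))
  rwa [add_zero] at h6

/-- The divisor of the determinants. -/
theorem exists_div {δ : Derivation k L L} (hδ : δ ≠ 0) {z : Fin (2 + 1) → L} (hz : z ≠ 0) :
    ∃ Dv : Place k L →₀ ℤ, (∀ P, Dv P = -(3 * pord P z + vo P δ)) ∧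
      ddeg Dv = 3 * pht k z + canDeg k L := by
  classical
  have hp : {P : Place k L | pord P z ≠ 0}.Finite :=
    pord_finite (k := k) (Function.ne_iff.1 hz)
  have hv : {P : Place k L | vo P δ ≠ 0}.Finite := vo_finite (k := k) hδ
  have hfin : (Function.support fun P : Place k L => -(3 * pord P z + vo P δ)).Finite := by
    refine (hp.union hv).subset fun P hP => ?_
    by_contra hcon
    have h1 : pord P z = 0 := by
      by_contra h1
      exact hcon (Or.inl h1)
    have h2 : vo P δ = 0 := by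
      by_contra h2
      exact hcon (Or.inr h2)
    apply hP
    dsimp only
    rw [h1, h2]
    norm_num
  refine ⟨Finsupp.ofSupportFinite _ hfin, fun P => rfl, ?_⟩
  unfold ddeg
  rw [Finsupp.sum]
  have h1 : ∀ P : Place k L, (Finsupp.ofSupportFinite _ hfin) P * (P.deg : ℤ) =
      -(3 * pord P z + vo P δ) := fun P => by
    rw [deg_one, Nat.cast_one, mul_one]
    rfl
  rw [Finset.sum_congr rfl fun P _ => h1 P]
  have h2 : ∑ᶠ P : Place k L, -(3 * pord P z + vo P δ) =
      ∑ P ∈ (Finsupp.ofSupportFinite _ hfin).support, -(3 * pord P z + vo P δ) := by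
    refine finsum_eq_sum_of_support_subset _ fun P hP => ?_
    rw [Finset.mem_coe, Finsupp.mem_support_iff]
    exact hP
  have h3 : {P : Place k L | 3 * pord P z ≠ 0}.Finite := by
    refine hp.subset fun P hP h0 => ?_
    have hP' : 3 * pord P z ≠ 0 := hP
    exact hP' (by rw [h0, mul_zero])
  rw [← h2, finsum_neg_distrib, finsum_add_distrib h3 hv, ← mul_finsum' _ _ hp,
    canDeg_eq hδ]
  unfold pht
  ring

/-- The upper bound for the number of the conditions. -/
theorem upper {F : MvPolynomial (Fin (4 + 1)) L} {D : (Fin (4 + 1) →₀ ℕ) → Derivation ℤ L L}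
    (hF : F.IsHomogeneous 6) (hD : Dual F 6 D) (hS : ∀ I, Sem k (D I))
    (hFk : ∀ u, ∃ c : k, F.coeff u = algebraMap k L c) {δ : Derivation k L L} (hδ : δ ≠ 0)
    {x : Fin (4 + 1) → L} (hxF : eval x F = 0) {i : Fin (2 + 1) → Fin (4 + 1)}
    (hi : Function.Injective i) {ψ : Fin (4 + 1) → Fin (2 + 1) → k}
    (hψ : ∀ l, x l = ∑ s, algebraMap k L (ψ l s) * x (i s))
    (hψi : ∀ s s', ψ (i s) s' = if s = s' then 1 else 0)
    (hn : ∃ j, ![x (i 1) * δ (x (i 2)) - x (i 2) * δ (x (i 1)),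
      x (i 2) * δ (x (i 0)) - x (i 0) * δ (x (i 2)),
      x (i 0) * δ (x (i 1)) - x (i 1) * δ (x (i 0))] j ≠ 0) :
    ∃ W : Submodule k L, FiniteDimensional k W ∧ (∀ H : MvPolynomial (Fin (4 + 1)) k,
      H.IsHomogeneous 6 → eval x (map (algebraMap k L) H) ∈ W) ∧
      Module.finrank k W ≤ 6 + (3 * pht k (fun s => x (i s)) + canDeg k L + 1).toNat := by
  classical
  obtain ⟨z, hz⟩ : ∃ z : Fin (2 + 1) → L, z = fun s => x (i s) := ⟨_, rfl⟩
  have hzs : ∀ s, x (i s) = z s := fun s => by rw [hz]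
  rw [← hz]
  simp only [hzs] at hψ hn
  obtain ⟨w, hw⟩ : ∃ w : Fin (2 + 1) → L, w = fun s => δ (z s) := ⟨_, rfl⟩
  have hws : ∀ s, δ (z s) = w s := fun s => by rw [hw]
  simp only [hws] at hn
  obtain ⟨nn, hnn⟩ : ∃ nn : Fin (2 + 1) → L, nn = ![z 1 * w 2 - z 2 * w 1, z 2 * w 0 - z 0 * w 2,
    z 0 * w 1 - z 1 * w 0] := ⟨_, rfl⟩
  rw [← hnn] at hn
  have hn0 : nn 0 = z 1 * w 2 - z 2 * w 1 := by rw [hnn]; rfl
  have hn1 : nn 1 = z 2 * w 0 - z 0 * w 2 := by rw [hnn]; rfl
  have hn2 : nn 2 = z 0 * w 1 - z 1 * w 0 := by rw [hnn]; rfl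
  obtain ⟨j, hj⟩ := hn
  have hz0 : z ≠ 0 := by
    rintro rfl
    apply hj
    rw [hnn]
    fin_cases j <;> simp
  obtain ⟨Dv, hDv, hdd⟩ := exists_div hδ hz0
  -- the derivatives of the form on the plane
  obtain ⟨fs, hfs⟩ : ∃ fs : Fin (2 + 1) → L, ∀ s, fs s =
    ∑ l, eval x (pderiv l F) * algebraMap k L (ψ l s) := ⟨_, fun _ => rfl⟩
  have hdF : ∀ (v : Fin (4 + 1) → L) (u : Fin (2 + 1) → L),
      (∀ l, v l = ∑ s, algebraMap k L (ψ l s) * u s) → dF F x v = ∑ s, fs s * u s := by
    intro v u hv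
    unfold dF
    simp only [hfs, Finset.sum_mul]
    rw [Finset.sum_comm]
    refine Finset.sum_congr rfl fun l _ => ?_
    rw [hv, Finset.mul_sum]
    exact Finset.sum_congr rfl fun s _ => by ring
  have hz1 : fs 0 * z 0 + fs 1 * z 1 + fs 2 * z 2 = 0 := by
    have h1 := hdF x z hψ
    rw [Pool.Agent.TH145.GC.dF_self hF, hxF, mul_zero, Fin.sum_univ_three] at h1
    exact h1.symm
  have hw1 : fs 0 * w 0 + fs 1 * w 1 + fs 2 * w 2 = 0 := by
    have h1 := hdF (fun l => δ (x l)) w (fun l => by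
      rw [hψ l, map_sum]
      refine Finset.sum_congr rfl fun s _ => ?_
      rw [δ.leibniz, δ.map_algebraMap, smul_zero, add_zero, smul_eq_mul, hws])
    have h3 := Pool.Agent.TH145.GE.dF_ev (E := δ.restrictScalars ℤ) (G := F) (fun u => by
      obtain ⟨c, hc⟩ := hFk u
      rw [hc]
      exact δ.map_algebraMap c) x
    rw [hxF, map_zero] at h3
    rw [Fin.sum_univ_three] at h1
    rw [← h1]
    exact h3
  have e01 : fs 0 * nn 1 = fs 1 * nn 0 := by
    rw [hn0, hn1]
    linear_combination z 2 * hw1 - w 2 * hz1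
  have e02 : fs 0 * nn 2 = fs 2 * nn 0 := by
    rw [hn0, hn2]
    linear_combination w 1 * hz1 - z 1 * hw1
  have e12 : fs 1 * nn 2 = fs 2 * nn 1 := by
    rw [hn1, hn2]
    linear_combination z 0 * hw1 - w 0 * hz1
  have hrel : ∀ a b, fs a * nn b = fs b * nn a := by
    intro a b
    fin_cases a <;> fin_cases b
    · rfl
    · exact e01
    · exact e02
    · exact e01.symm
    · rfl
    · exact e12
    · exact e02.symm
    · exact e12.symm
    · rfl
  obtain ⟨κ, hκ⟩ : ∃ κ, κ = fs j / nn j := ⟨_, rfl⟩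
  have hfκ : ∀ s, fs s = κ * nn s := by
    intro s
    rw [hκ]
    field_simp
    exact hrel s j
  have hdet : ∀ u : Fin (2 + 1) → L, ∑ s, fs s * u s = κ * det3 z w u := by
    intro u
    rw [Fin.sum_univ_three, hfκ 0, hfκ 1, hfκ 2, hn0, hn1, hn2]
    unfold det3
    ring
  -- the two spaces
  obtain ⟨gA, hgA⟩ : ∃ gA : {l : Fin (4 + 1) // l ∉ Set.range i} × Fin (2 + 1) → L,
    ∀ q, gA q = eval x (pderiv q.1.1 F) * z q.2 := ⟨_, fun _ => rfl⟩
  obtain ⟨A, hA⟩ : ∃ A : Submodule k L, A = Submodule.span k (Set.range gA) := ⟨_, rfl⟩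
  obtain ⟨M, hM⟩ : ∃ M : Submodule k L, M = (LL Dv).map (LinearMap.mulLeft k κ) := ⟨_, rfl⟩
  have hAf : FiniteDimensional k A := by
    rw [hA]
    exact FiniteDimensional.span_of_finite k (Set.finite_range gA)
  have hMf : FiniteDimensional k M := by
    rw [hM]
    infer_instance
  have hAr : Module.finrank k A ≤ 6 := by
    rw [hA]
    refine (finrank_range_le_card gA).trans ?_
    rw [Fintype.card_prod, Fintype.card_fin]
    have h1 : Fintype.card {l : Fin (4 + 1) // l ∉ Set.range i} = 2 := by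
      have h2 := Fintype.card_subtype_compl (fun l => l ∈ Set.range i)
      have h3 : Fintype.card {l : Fin (4 + 1) // l ∈ Set.range i} = 3 := by
        have h4 := Set.card_range_of_injective hi
        rw [Fintype.card_fin] at h4
        exact (Fintype.card_congr (Equiv.refl _)).trans h4
      rw [h2, h3, Fintype.card_fin]
    rw [h1]
  have hMr : Module.finrank k M ≤ (3 * pht k z + canDeg k L + 1).toNat := by
    rw [hM]
    refine (Submodule.finrank_map_le _ _).trans ?_
    rw [← hdd]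
    exact finrank_LL_le Dv
  have hle : ∀ H : MvPolynomial (Fin (4 + 1)) k,
      H.IsHomogeneous 6 → eval x (map (algebraMap k L) H) ∈ A ⊔ M := by
    intro H hH
    obtain ⟨E, hE⟩ : ∃ E : Derivation ℤ L L, E = DD D (map (algebraMap k L) H) := ⟨_, rfl⟩
    have hES : Sem k E := by
      intro c
      choose d hd using fun J => hS J c
      refine ⟨∑ J ∈ (map (algebraMap k L) H).support, H.coeff J * d J, ?_⟩
      rw [hE, DD_apply, map_sum]
      refine Finset.sum_congr rfl fun J _ => ?_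
      rw [coeff_map, hd, map_mul]
    have h1 : eval x (map (algebraMap k L) H) = - dF F x (fun l => E (x l)) := by
      have h2 := Pool.Agent.Y735.dF_vec hF hD x (hH.map (algebraMap k L))
      rw [hxF, map_zero, zero_sub] at h2
      have h3 : vec D x (map (algebraMap k L) H) = fun l => E (x l) := by
        funext l
        rw [vec_apply, hE]
      rw [h3] at h2
      rw [h2, neg_neg]
    choose c hc using fun l s => hES (ψ l s)
    have hcr : ∀ l, l ∈ Set.range i → ∀ s, algebraMap k L (c l s) = 0 := by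
      rintro l ⟨s', rfl⟩ s
      rw [← hc, hψi]
      split_ifs
      · rw [map_one, E.map_one_eq_zero]
      · rw [map_zero, map_zero]
    have h2 : (fun l => E (x l)) = (fun l => ∑ s, algebraMap k L (c l s) * z s) +
        fun l => ∑ s, algebraMap k L (ψ l s) * E (z s) := by
      funext l
      rw [Pi.add_apply, hψ l, map_sum, ← Finset.sum_add_distrib]
      refine Finset.sum_congr rfl fun s _ => ?_
      rw [E.leibniz, hc]
      simp only [smul_eq_mul]
      ring
    rw [h1, h2, dF_add, hdF _ (fun s => E (z s)) (fun l => rfl), hdet, neg_add]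
    refine Submodule.add_mem_sup ?_ ?_
    · refine neg_mem ?_
      unfold dF
      refine sum_mem fun l _ => ?_
      dsimp only
      by_cases hl : l ∈ Set.range i
      · rw [Finset.sum_eq_zero fun s _ => by rw [hcr l hl, zero_mul], mul_zero]
        exact zero_mem _
      · rw [Finset.mul_sum]
        refine sum_mem fun s _ => ?_
        have h3 : eval x (pderiv l F) * (algebraMap k L (c l s) * z s) =
            c l s • gA (⟨l, hl⟩, s) := by
          rw [hgA, Algebra.smul_def]
          ring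
        rw [h3, hA]
        exact Submodule.smul_mem _ _ (Submodule.subset_span ⟨_, rfl⟩)
    · refine neg_mem ?_
      rw [hM]
      refine ⟨det3 z w fun s => E (z s), ?_, rfl⟩
      change det3 z w (fun s => E (z s)) ∈ LL Dv
      rw [mem_LL]
      by_cases h0 : det3 z w (fun s => E (z s)) = 0
      · exact Or.inl h0
      · right
        intro P
        have h3 := ge_det3 P hES hδ hz0
        rw [← hw] at h3
        rw [hDv, neg_neg]
        exact h3.resolve_left h0
  refine ⟨A ⊔ M, inferInstance, hle, ?_⟩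
  have h5 := Submodule.finrank_add_le_finrank_add_finrank A M
  omega

end

end Pool.Agent.H435.ST
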